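import Pool.Agent.H165R3.Sk

/-!
# The torus map of a skew product preserves the area
-/

set_option autoImplicit false

open Set Filter Topology MeasureTheory Function
open scoped ContDiff

namespace Pool.Agent.H165R3

/-- the two-torus -/
abbrev T2 : Type := UnitAddCircle × UnitAddCircle

instance instPC : IsProbabilityMeasure (volume : Measure UnitAddCircle) :=
  ⟨UnitAddCircle.measure_univ⟩

instance instPT : IsProbabilityMeasure (volume : Measure T2) :=
  inferInstanceAs (IsProbabilityMeasure ((volume : Measure UnitAddCircle).prod volume))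

/-- the projection of the plane onto the torus -/
def pr (z : ℝ × ℝ) : T2 := ((z.1 : UnitAddCircle), (z.2 : UnitAddCircle))

/-- representative in `(0, 1]` -/
noncomputable def rep (a : UnitAddCircle) : ℝ := (AddCircle.equivIoc (1 : ℝ) 0 a : ℝ)

lemma coe_rep (a : UnitAddCircle) : ((rep a : ℝ) : UnitAddCircle) = a := AddCircle.coe_equivIoc

lemma rep_mem (a : UnitAddCircle) : rep a ∈ Ioc (0 : ℝ) 1 := by
  have := (AddCircle.equivIoc (1 : ℝ) 0 a).2
  simpa [rep] using this

lemma rep_coe {y : ℝ} (hy : y ∈ Ioc (0 : ℝ) 1) : rep (y : UnitAddCircle) = y := by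
  apply AddCircle.equivIoc_coe_of_mem
  simpa using hy

lemma rep_meas : Measurable rep :=
  measurable_subtype_coe.comp (AddCircle.measurableEquivIoc (1 : ℝ) 0).measurable

lemma pr_rep (w : T2) : pr (rep w.1, rep w.2) = w := by
  simp [pr, coe_rep]

lemma coe_eq_iff {x y : ℝ} : (x : UnitAddCircle) = y ↔ ∃ n : ℤ, x = y + n := by
  rw [← sub_eq_zero, ← AddCircle.coe_sub, AddCircle.coe_eq_zero_iff]
  constructor
  · rintro ⟨n, hn⟩
    exact ⟨n, by simp at hn; linarith⟩
  · rintro ⟨n, hn⟩
    exact ⟨n, by simp; linarith⟩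

lemma per_int {β : Type*} {u : ℝ → β} (hu : ∀ x, u (x + 1) = u x) (x : ℝ) (n : ℤ) :
    u (x + n) = u x := by
  have h : Function.Periodic u 1 := hu
  simpa using (h.int_mul n) x

/-- the map of the torus defined by a doubly periodic function on the plane -/
noncomputable def tl {β : Type*} (H : ℝ × ℝ → β) (w : T2) : β := H (rep w.1, rep w.2)

lemma tl_pr {β : Type*} {H : ℝ × ℝ → β} (h1 : ∀ x y, H (x + 1, y) = H (x, y))
    (h2 : ∀ x y, H (x, y + 1) = H (x, y)) (z : ℝ × ℝ) : tl H (pr z) = H z := by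
  obtain ⟨x, y⟩ := z
  obtain ⟨n, hn⟩ := coe_eq_iff.mp (coe_rep (x : UnitAddCircle))
  obtain ⟨m, hm⟩ := coe_eq_iff.mp (coe_rep (y : UnitAddCircle))
  show H (rep (x : UnitAddCircle), rep (y : UnitAddCircle)) = H (x, y)
  rw [hn, hm, per_int (u := fun t => H (t, y + m)) (fun t => h1 t _) x n,
    per_int (u := fun t => H (x, t)) (fun t => h2 x t) y m]

lemma pr_quot : IsOpenQuotientMap pr := by
  have h : IsOpenQuotientMap ((↑) : ℝ → UnitAddCircle) := QuotientAddGroup.isOpenQuotientMap_mk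
  exact h.prodMap h

lemma pr_cont : Continuous pr := pr_quot.continuous

lemma tl_cont {β : Type*} [TopologicalSpace β] {H : ℝ × ℝ → β} (hc : Continuous H)
    (h1 : ∀ x y, H (x + 1, y) = H (x, y)) (h2 : ∀ x y, H (x, y + 1) = H (x, y)) :
    Continuous (tl H) := by
  rw [← pr_quot.continuous_comp_iff]
  exact hc.congr fun z => (tl_pr h1 h2 z).symm

lemma pr_surj : Function.Surjective pr := fun w => ⟨_, pr_rep w⟩

lemma pr_add_left (x y : ℝ) (n : ℤ) : pr (x + n, y) = pr (x, y) := by
  simp only [pr, Prod.mk.injEq, and_true]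
  exact coe_eq_iff.mpr ⟨n, rfl⟩

lemma pr_add_right (x y : ℝ) (n : ℤ) : pr (x, y + n) = pr (x, y) := by
  simp only [pr, Prod.mk.injEq, true_and]
  exact coe_eq_iff.mpr ⟨n, rfl⟩

/-- integral over several periods -/
lemma period_sum (u : ℝ → ℝ) (N : ℕ) (hu : ∀ x, u (x + N) = u x) (hc : Continuous u) (t : ℝ) :
    ∫ x in t..(t + N), u x = ∑ i ∈ Finset.range N, ∫ x in (0 : ℝ)..1, u (x + i) := by
  have hP : Function.Periodic u N := hu
  rw [hP.intervalIntegral_add_eq t 0, zero_add]
  have h1 := intervalIntegral.sum_integral_adjacent_intervals (f := u) (μ := volume)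
    (a := fun k : ℕ => (k : ℝ)) (n := N) (fun k _ => hc.intervalIntegrable _ _)
  simp only [Nat.cast_zero] at h1
  rw [← h1]
  refine Finset.sum_congr rfl fun i _ => ?_
  rw [intervalIntegral.integral_comp_add_right (fun x => u x) (i : ℝ)]
  push_cast
  rw [zero_add, add_comm (i : ℝ) 1]

/-- integrals over the torus as iterated integrals -/
lemma integral_T2 (φ : T2 → ℝ) (hφ : Continuous φ) :
    ∫ w, φ w = ∫ x in (0 : ℝ)..1, ∫ y in (0 : ℝ)..1, φ (pr (x, y)) := by
  have hint : Integrable φ (volume : Measure T2) := hφ.integrable_of_hasCompactSupport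
    (HasCompactSupport.of_compactSpace φ)
  have h0 : ∫ w, φ w = ∫ w, φ w ∂((volume : Measure UnitAddCircle).prod volume) := rfl
  rw [h0, integral_prod φ hint]
  rw [← UnitAddCircle.intervalIntegral_preimage 0]
  rw [zero_add]
  refine intervalIntegral.integral_congr fun x _ => ?_
  have := UnitAddCircle.intervalIntegral_preimage 0 (fun b => φ ((x : UnitAddCircle), b))
  rw [zero_add] at this
  exact this.symm

namespace Sk

variable (s : Sk)

/-- the skew product of the torus -/
noncomputable def f : T2 → T2 := tl fun z => pr (s.F z)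

lemma prF1 (x y : ℝ) : pr (s.F (x + 1, y)) = pr (s.F (x, y)) := by
  rw [F_add_one_left]
  exact pr_add_left _ _ s.d

lemma prF2 (x y : ℝ) : pr (s.F (x, y + 1)) = pr (s.F (x, y)) := by
  rw [F_add_one_right]
  exact pr_add_right _ _ s.m

lemma f_pr (z : ℝ × ℝ) : s.f (pr z) = pr (s.F z) := tl_pr s.prF1 s.prF2 z

lemma f_cont : Continuous s.f := tl_cont (pr_cont.comp s.F_cont) s.prF1 s.prF2

lemma g_add_one (x : ℝ) : s.g (x + 1) = s.g x + s.d := by
  have := congrArg Prod.fst (s.F_add_one_left x 0)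
  rw [F_fst, F_fst] at this
  exact this

lemma kappa_add_m (x y : ℝ) : s.κ (x, y + s.m) = s.κ (x, y) := by
  have h1 : HasDerivAt (fun t => s.k (x, t + s.m)) (s.κ (x, y + s.m)) y := by
    have := (s.hkκ x (y + s.m)).comp_add_const y s.m
    exact this
  have h2 : HasDerivAt (fun t => s.k (x, t + s.m)) (s.κ (x, y)) y := by
    have h3 : (fun t => s.k (x, t + s.m)) = fun t => s.k (x, t) + 1 := by
      funext t; exact s.hkm x t
    rw [h3]
    exact (s.hkκ x y).add_const 1
  exact h1.unique h2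

lemma kappa_add_d (x y : ℝ) : s.κ (x + s.d, y) = s.κ (x, y) := by
  have h1 := s.hkκ (x + s.d) y
  have h3 : (fun t => s.k (x + s.d, t)) = fun t => s.k (x, t) := by
    funext t; exact s.hkd x t
  rw [h3] at h1
  exact h1.unique (s.hkκ x y)

lemma p_add_d (x : ℝ) : s.p (x + s.d) = s.p x := by
  have h1 : HasDerivAt (fun t => s.G (t + s.d)) (s.p (x + s.d)) x :=
    (s.hGp (x + s.d)).comp_add_const x s.d
  have h3 : (fun t => s.G (t + s.d)) = fun t => s.G t + 1 := by
    funext t; exact s.hGd t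
  rw [h3] at h1
  exact h1.unique ((s.hGp x).add_const 1)

/-- change of variables in the base -/
lemma cv1 (u : ℝ → ℝ) (hu : Continuous u) (hp : ∀ x, u (x + s.d) = u x) :
    ∫ x in (0 : ℝ)..1, u (s.g x) = ∫ t in (0 : ℝ)..s.d, u t * s.p t := by
  have h1 : ∫ t in (s.g 0)..(s.g 0 + s.d), ((fun x => u (s.g x)) ∘ s.G) t * s.p t
      = ∫ x in (s.G (s.g 0))..(s.G (s.g 0 + s.d)), u (s.g x) :=
    intervalIntegral.integral_comp_mul_deriv (fun x _ => s.hGp x)
      s.p_cont.continuousOn (hu.comp s.g_cont)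
  rw [s.hGd, s.G_g, zero_add] at h1
  rw [← h1]
  simp only [comp_apply, s.g_G]
  have hP : Function.Periodic (fun t => u t * s.p t) s.d := fun t => by
    simp only [hp, s.p_add_d]
  rw [hP.intervalIntegral_add_eq (s.g 0) 0, zero_add]

/-- change of variables in the fibres -/
lemma cv2 (x : ℝ) (u : ℝ → ℝ) (hu : Continuous u) (hp : ∀ y, u (y + s.m) = u y) :
    ∫ y in (0 : ℝ)..1, u (s.h (x, y)) = ∫ t in (0 : ℝ)..s.m, u t * s.κ (s.g x, t) := by
  have hk0 : s.k (s.g x, s.h (x, 0)) = 0 := s.k_gh (x, 0)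
  have h1 : ∫ t in (s.h (x, 0))..(s.h (x, 0) + s.m),
      ((fun y => u (s.h (x, y))) ∘ fun t => s.k (s.g x, t)) t * s.κ (s.g x, t)
      = ∫ y in (s.k (s.g x, s.h (x, 0)))..(s.k (s.g x, s.h (x, 0) + s.m)), u (s.h (x, y)) :=
    intervalIntegral.integral_comp_mul_deriv (fun t _ => s.hkκ (s.g x) t)
      (s.kappa_cont.comp (by fun_prop)).continuousOn
      (hu.comp (s.h_cont.comp (by fun_prop)))
  rw [s.hkm, hk0, zero_add] at h1
  rw [← h1]
  have h2 : ∀ t, s.h (x, s.k (s.g x, t)) = t := by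
    intro t
    have h3 : s.Psi (s.g x, t) = (x, s.k (s.g x, t)) := by
      simp only [Psi, s.G_g]
    have h4 := s.F_Psi (s.g x, t)
    rw [h3] at h4
    exact congrArg Prod.snd h4
  simp only [comp_apply, h2]
  have hP : Function.Periodic (fun t => u t * s.κ (s.g x, t)) s.m := fun t => by
    simp only [hp, s.kappa_add_m]
  rw [hP.intervalIntegral_add_eq (s.h (x, 0)) 0, zero_add]

/-- change of variables -/
lemma cv (Θ : ℝ × ℝ → ℝ) (hΘ : Continuous Θ) (h1 : ∀ x y, Θ (x + s.d, y) = Θ (x, y))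
    (h2 : ∀ x y, Θ (x, y + s.m) = Θ (x, y)) :
    ∫ x in (0 : ℝ)..1, ∫ y in (0 : ℝ)..1, Θ (s.F (x, y))
      = ∫ x in (0 : ℝ)..s.d, (∫ t in (0 : ℝ)..s.m, Θ (x, t) * s.κ (x, t)) * s.p x := by
  have hc : Continuous fun x : ℝ => ∫ t in (0 : ℝ)..s.m, Θ (x, t) * s.κ (x, t) := by
    apply intervalIntegral.continuous_parametric_intervalIntegral_of_continuous'
    exact hΘ.mul s.kappa_cont
  rw [← s.cv1 (fun x => ∫ t in (0 : ℝ)..s.m, Θ (x, t) * s.κ (x, t)) hc
    (fun x => by simp only [h1, s.kappa_add_d])]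
  refine intervalIntegral.integral_congr fun x _ => ?_
  have := s.cv2 x (fun t => Θ (s.g x, t)) (hΘ.comp (by fun_prop)) (fun y => h2 _ y)
  simp only [F_eq] at this ⊢
  exact this

/-- sums over the branches -/
lemma cv_sum (Θ : ℝ × ℝ → ℝ) (hΘ : Continuous Θ) (h1 : ∀ x y, Θ (x + 1, y) = Θ (x, y))
    (h2 : ∀ x y, Θ (x, y + 1) = Θ (x, y)) :
    ∫ x in (0 : ℝ)..s.d, (∫ t in (0 : ℝ)..s.m, Θ (x, t) * s.κ (x, t)) * s.p x
      = ∫ x in (0 : ℝ)..1, ∫ y in (0 : ℝ)..1, Θ (x, y) := by
  have hc : Continuous fun x : ℝ => ∫ t in (0 : ℝ)..s.m, Θ (x, t) * s.κ (x, t) := by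
    apply intervalIntegral.continuous_parametric_intervalIntegral_of_continuous'
    exact hΘ.mul s.kappa_cont
  have e1 : ∀ (x y : ℝ) (n : ℕ), Θ (x + n, y) = Θ (x, y) := fun x y n => by
    have := per_int (u := fun t => Θ (t, y)) (fun t => h1 t y) x n
    simpa using this
  have e2 : ∀ (x y : ℝ) (n : ℕ), Θ (x, y + n) = Θ (x, y) := fun x y n => by
    have := per_int (u := fun t => Θ (x, t)) (fun t => h2 x t) y n
    simpa using this
  have h3 := period_sum (fun x => (∫ t in (0 : ℝ)..s.m, Θ (x, t) * s.κ (x, t)) * s.p x) s.d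
    (fun x => by simp only [e1, s.kappa_add_d, s.p_add_d]) (hc.mul s.p_cont) 0
  rw [zero_add] at h3
  rw [h3, ← intervalIntegral.integral_finsetSum]
  swap
  · intro i _
    exact ((hc.mul s.p_cont).comp (continuous_add_const (i : ℝ))).intervalIntegrable _ _
  refine intervalIntegral.integral_congr fun x _ => ?_
  have h4 : ∀ i : ℕ, ∫ t in (0 : ℝ)..s.m, Θ (x + i, t) * s.κ (x + i, t)
      = ∑ j ∈ Finset.range s.m, ∫ t in (0 : ℝ)..1, Θ (x, t) * s.κ (x + i, t + j) := by
    intro i
    have h5 := period_sum (fun t => Θ (x + i, t) * s.κ (x + i, t)) s.m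
      (fun t => by simp only [e2, s.kappa_add_m])
      ((hΘ.comp (by fun_prop)).mul (s.kappa_cont.comp (by fun_prop))) 0
    rw [zero_add] at h5
    rw [h5]
    refine Finset.sum_congr rfl fun j _ => ?_
    refine intervalIntegral.integral_congr fun t _ => ?_
    simp only [e1, e2]
  simp only [h4, Finset.sum_mul]
  simp_rw [← intervalIntegral.integral_mul_const]
  have hi : ∀ i j : ℕ, IntervalIntegrable
      (fun t => Θ (x, t) * s.κ (x + i, t + j) * s.p (x + i)) volume 0 1 := by
    intro i j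
    apply Continuous.intervalIntegrable
    exact ((hΘ.comp (by fun_prop)).mul (s.kappa_cont.comp (by fun_prop))).mul continuous_const
  have h6 : ∀ i : ℕ, ∑ j ∈ Finset.range s.m,
      ∫ t in (0 : ℝ)..1, Θ (x, t) * s.κ (x + i, t + j) * s.p (x + i)
      = ∫ t in (0 : ℝ)..1, ∑ j ∈ Finset.range s.m,
        Θ (x, t) * s.κ (x + i, t + j) * s.p (x + i) := by
    intro i
    rw [intervalIntegral.integral_finsetSum]
    intro j _
    exact hi i j
  simp_rw [h6]
  rw [← intervalIntegral.integral_finsetSum]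
  swap
  · intro i _
    have : (fun t => ∑ j ∈ Finset.range s.m, Θ (x, t) * s.κ (x + i, t + j) * s.p (x + i))
        = ∑ j ∈ Finset.range s.m, fun t => Θ (x, t) * s.κ (x + i, t + j) * s.p (x + i) := by
      funext t; simp
    rw [this]
    exact IntervalIntegrable.sum _ fun j _ => hi i j
  refine intervalIntegral.integral_congr fun t _ => ?_
  have h7 := s.hsum x t
  calc ∑ i ∈ Finset.range s.d, ∑ j ∈ Finset.range s.m,
        Θ (x, t) * s.κ (x + i, t + j) * s.p (x + i)
      = Θ (x, t) * ∑ i ∈ Finset.range s.d, ∑ j ∈ Finset.range s.m,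
        s.p (x + i) * s.κ (x + i, t + j) := by
        simp_rw [Finset.mul_sum]
        refine Finset.sum_congr rfl fun i _ => Finset.sum_congr rfl fun j _ => by ring
    _ = Θ (x, t) := by rw [h7, mul_one]

/-- the skew product preserves the area -/
theorem f_mp : MeasurePreserving s.f (volume : Measure T2) volume := by
  refine ⟨s.f_cont.measurable, ?_⟩
  have : IsProbabilityMeasure (Measure.map s.f (volume : Measure T2)) :=
    Measure.isProbabilityMeasure_map s.f_cont.measurable.aemeasurable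
  apply MeasureTheory.ext_of_forall_integral_eq_of_IsFiniteMeasure
  intro φ
  rw [integral_map s.f_cont.measurable.aemeasurable
    φ.continuous.measurable.aestronglyMeasurable]
  rw [integral_T2 (fun w => φ (s.f w)) (φ.continuous.comp s.f_cont), integral_T2 _ φ.continuous]
  simp only [f_pr]
  have h1 : ∀ x y, φ (pr (x + 1, y)) = φ (pr (x, y)) := fun x y => by
    have := pr_add_left x y 1
    push_cast at this
    rw [this]
  have h2 : ∀ x y, φ (pr (x, y + 1)) = φ (pr (x, y)) := fun x y => by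
    have := pr_add_right x y 1
    push_cast at this
    rw [this]
  have e1 : ∀ (x y : ℝ) (n : ℕ), φ (pr (x + n, y)) = φ (pr (x, y)) := fun x y n => by
    have := pr_add_left x y n
    push_cast at this
    rw [this]
  have e2 : ∀ (x y : ℝ) (n : ℕ), φ (pr (x, y + n)) = φ (pr (x, y)) := fun x y n => by
    have := pr_add_right x y n
    push_cast at this
    rw [this]
  rw [s.cv (fun z => φ (pr z)) (φ.continuous.comp pr_cont) (fun x y => e1 x y _)
    (fun x y => e2 x y _)]
  exact s.cv_sum (fun z => φ (pr z)) (φ.continuous.comp pr_cont) h1 h2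

end Sk

end Pool.Agent.H165R3
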