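import Pool.Agent.H165R3.Exps

/-!
# Exactness of the expanding base map and ergodicity of products
-/

set_option autoImplicit false

open Set Filter Topology MeasureTheory Function
open scoped ContDiff ENNReal

namespace Pool.Agent.H165R3

/-- exactness of a circle map: the tail sets are trivial -/
def Exact1 (u : UnitAddCircle → UnitAddCircle) : Prop :=
  ∀ A : Set UnitAddCircle, MeasurableSet A →
    (∀ n : ℕ, ∃ A' : Set UnitAddCircle, MeasurableSet A' ∧ A = u^[n] ⁻¹' A') →
    (volume A = 0 ∨ volume A = 1)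

lemma Exact1.ergodic {u : UnitAddCircle → UnitAddCircle} (hu : Exact1 u)
    (hmp : MeasurePreserving u volume volume) : Ergodic u volume := by
  refine ⟨hmp, ⟨fun A hA hinv => ?_⟩⟩
  have hit : ∀ n, u^[n] ⁻¹' A = A := by
    intro n
    induction n with
    | zero => rfl
    | succ n ih => rw [iterate_succ, preimage_comp, ih, hinv]
  rw [eventuallyConst_set]
  rcases hu A hA (fun n => ⟨A, hA, (hit n).symm⟩) with h | h
  · right; exact measure_eq_zero_iff_ae_notMem.1 h
  · left; exact (prob_compl_eq_zero_iff hA).mpr h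

/-- the product of an exact map and an ergodic map is ergodic -/
theorem prod_ergodic {u v : UnitAddCircle → UnitAddCircle} (hu : Exact1 u)
    (hv : Ergodic v (volume : Measure UnitAddCircle))
    (hmp : MeasurePreserving (Prod.map u v) (volume : Measure T2) volume) :
    Ergodic (Prod.map u v) (volume : Measure T2) := by
  refine ⟨hmp, ⟨fun B hB hinv => ?_⟩⟩
  have hit : ∀ n, (Prod.map u v)^[n] ⁻¹' B = B := by
    intro n
    induction n with
    | zero => rfl
    | succ n ih => rw [iterate_succ, preimage_comp, ih, hinv]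
  have hsec : ∀ y, MeasurableSet ((fun x => (x, y)) ⁻¹' B) := fun y =>
    hB.preimage measurable_prodMk_right
  have h01 : ∀ y, volume ((fun x => (x, y)) ⁻¹' B) = 0 ∨ volume ((fun x => (x, y)) ⁻¹' B) = 1 := by
    intro y
    refine hu _ (hsec y) fun n => ⟨(fun x => (x, v^[n] y)) ⁻¹' B, hsec _, ?_⟩
    ext x
    have h1 : x ∈ (fun x => (x, y)) ⁻¹' B ↔ (x, y) ∈ (Prod.map u v)^[n] ⁻¹' B := by rw [hit]; rfl
    rw [h1, mem_preimage, Prod.map_iterate]
    rfl
  have hmeas : Measurable fun y => volume ((fun x => (x, y)) ⁻¹' B) :=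
    measurable_measure_prodMk_right hB
  set W : Set UnitAddCircle := {y | volume ((fun x => (x, y)) ⁻¹' B) = 1} with hW
  have hWm : MeasurableSet W := hmeas (measurableSet_singleton 1)
  have hum : MeasurePreserving u volume volume := by
    have hme : Measurable u := by
      have h2 : u = fun x => (Prod.map u v (x, 0)).1 := rfl
      rw [h2]
      exact measurable_fst.comp (hmp.measurable.comp measurable_prodMk_right)
    refine ⟨hme, ?_⟩
    ext U hU
    rw [Measure.map_apply hme hU]
    have h1 := hmp.measure_preimage (hU.prod MeasurableSet.univ).nullMeasurableSet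
    have h2 : Prod.map u v ⁻¹' (U ×ˢ univ) = (u ⁻¹' U) ×ˢ univ := by
      ext w
      simp
    rw [h2] at h1
    have h3 : ∀ W : Set UnitAddCircle, (volume : Measure T2) (W ×ˢ univ) = volume W := by
      intro W
      have : (volume : Measure T2) = (volume : Measure UnitAddCircle).prod volume := rfl
      rw [this, Measure.prod_prod]
      simp
    rw [h3, h3] at h1
    exact h1
  have hWinv : v ⁻¹' W = W := by
    ext y
    simp only [hW, mem_preimage]
    have h1 : (fun x => (x, y)) ⁻¹' B = u ⁻¹' ((fun x => (x, v y)) ⁻¹' B) := by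
      conv_lhs => rw [← hinv]
      rfl
    show volume ((fun x => (x, v y)) ⁻¹' B) = 1 ↔ volume ((fun x => (x, y)) ⁻¹' B) = 1
    rw [h1, hum.measure_preimage (hsec _).nullMeasurableSet]
  have hvol : volume B = volume W := by
    have h4 : (volume : Measure T2) = (volume : Measure UnitAddCircle).prod volume := rfl
    rw [h4, Measure.prod_apply_symm hB]
    have h5 : ∀ y, volume ((fun x => (x, y)) ⁻¹' B) = W.indicator 1 y := by
      intro y
      by_cases hy : y ∈ W
      · rw [indicator_of_mem hy]; exact hy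
      · rw [indicator_of_notMem hy]
        exact (h01 y).resolve_right hy
    simp_rw [h5]
    rw [lintegral_indicator_one hWm]
  rw [eventuallyConst_set]
  have := hv.aeconst_set hWm hWinv
  rw [eventuallyConst_set] at this
  rcases this with h | h
  · left
    have h6 : volume W = 1 := (prob_compl_eq_zero_iff hWm).mp h
    rw [← hvol] at h6
    exact (prob_compl_eq_zero_iff hB).mpr h6
  · right
    have h6 : volume W = 0 := measure_eq_zero_iff_ae_notMem.2 h
    rw [← hvol] at h6
    exact measure_eq_zero_iff_ae_notMem.1 h6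

/-- bound for continuous periodic functions of one variable -/
lemma per1_bdd {u : ℝ → ℝ} (hu : Continuous u) {N : ℕ} (hN : 0 < N) (h1 : ∀ x, u (x + N) = u x) :
    ∃ x₀, ∀ x, u x ≤ u x₀ := by
  obtain ⟨x₀, -, hx₀⟩ := (isCompact_Icc (a := (0 : ℝ)) (b := N)).exists_isMaxOn
    ⟨0, by simp⟩ hu.continuousOn
  refine ⟨x₀, fun x => ?_⟩
  have hP : Function.Periodic u N := h1
  have hN' : (0 : ℝ) < N := by exact_mod_cast hN
  obtain ⟨y, hy, hxy⟩ := hP.exists_mem_Ico₀ hN' x
  rw [hxy]
  exact hx₀ (Ico_subset_Icc_self hy)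

namespace Sk

variable {s : Sk}

/-- derivative of the iterates of `G` -/
noncomputable def Pn (s : Sk) (n : ℕ) (t : ℝ) : ℝ := ∏ j ∈ Finset.range n, s.p (s.G^[j] t)

lemma Pn_pos (n : ℕ) (t : ℝ) : 0 < s.Pn n t := Finset.prod_pos fun _ _ => s.hp _

lemma G_iter_deriv (n : ℕ) (t : ℝ) : HasDerivAt (s.G^[n]) (s.Pn n t) t := by
  induction n with
  | zero => simpa [Pn] using hasDerivAt_id t
  | succ n ih =>
    rw [iterate_succ']
    have h1 := (s.hGp (s.G^[n] t)).comp t ih
    have h2 : s.Pn (n + 1) t = s.p (s.G^[n] t) * s.Pn n t := by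
      unfold Pn; rw [Finset.prod_range_succ, mul_comm]
    rw [h2]
    exact h1

lemma G_iter_strictMono (n : ℕ) : StrictMono (s.G^[n]) := s.G_strictMono.iterate n

lemma gG_iter (n : ℕ) (t : ℝ) : s.g^[n] (s.G^[n] t) = t := by
  have h : LeftInverse s.g s.G := s.g_G
  exact h.iterate n t

lemma Gg_iter (n : ℕ) (t : ℝ) : s.G^[n] (s.g^[n] t) = t := by
  have h : LeftInverse s.G s.g := s.G_g
  exact h.iterate n t

/-- hypotheses on the base -/
structure Exp (s : Sk) : Prop where
  d2 : 2 ≤ s.d
  sp : ∀ x, ∑ i ∈ Finset.range s.d, s.p (x + i) = 1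

lemma Exp.p_lt (he : s.Exp) (x : ℝ) : s.p x < 1 := by
  have h1 := he.sp x
  have h2 : ∑ i ∈ Finset.range 2, s.p (x + i) ≤ ∑ i ∈ Finset.range s.d, s.p (x + i) :=
    Finset.sum_le_sum_of_subset_of_nonneg (Finset.range_mono he.d2) fun _ _ _ => (s.hp _).le
  rw [Finset.sum_range_succ, Finset.sum_range_one, h1] at h2
  have := s.hp (x + (1 : ℕ))
  simp only [Nat.cast_zero, add_zero] at h2
  linarith

lemma Exp.theta (he : s.Exp) : ∃ θ : ℝ, 0 < θ ∧ θ < 1 ∧ ∀ x, s.p x ≤ θ := by
  obtain ⟨x₀, hx₀⟩ := per1_bdd s.p_cont s.hd s.p_add_d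
  exact ⟨s.p x₀, s.hp _, he.p_lt _, hx₀⟩

lemma p_contDiff : ContDiff ℝ ∞ s.p := by
  rw [p_eq]
  exact (contDiff_infty_iff_deriv.mp s.hG).2

/-- `log p` is Lipschitz -/
lemma logp_lip : ∃ M : ℝ, 0 ≤ M ∧ ∀ x y, |Real.log (s.p x) - Real.log (s.p y)| ≤ M * |x - y| := by
  have hd : ∀ x, HasDerivAt (fun x => Real.log (s.p x)) (deriv s.p x / s.p x) x := by
    intro x
    exact (p_contDiff.differentiable (by simp) x).hasDerivAt.log (s.hp x).ne'
  have hc : Continuous fun x => |deriv s.p x / s.p x| :=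
    ((p_contDiff.continuous_deriv (by simp)).div s.p_cont fun x => (s.hp x).ne').abs
  have hper : ∀ x, |deriv s.p (x + s.d) / s.p (x + s.d)| = |deriv s.p x / s.p x| := by
    intro x
    rw [s.p_add_d]
    have h1 : deriv s.p (x + s.d) = deriv s.p x := by
      have h2 : (fun t => s.p (t + s.d)) = s.p := by funext t; exact s.p_add_d t
      have h3 := deriv_comp_add_const s.p (s.d : ℝ) x
      rw [h2] at h3
      exact h3.symm
    rw [h1]
  obtain ⟨x₀, hx₀⟩ := per1_bdd hc s.hd hper
  refine ⟨|deriv s.p x₀ / s.p x₀|, abs_nonneg _, fun x y => ?_⟩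
  have := Convex.norm_image_sub_le_of_norm_hasDerivWithin_le (f := fun x => Real.log (s.p x))
    (f' := fun x => deriv s.p x / s.p x) (s := univ) (C := |deriv s.p x₀ / s.p x₀|)
    (fun z _ => (hd z).hasDerivWithinAt) (fun z _ => hx₀ z) convex_univ (mem_univ y) (mem_univ x)
  simpa using this

/-- contraction -/
lemma G_contr {θ : ℝ} (h0 : 0 < θ) (hθ : ∀ x, s.p x ≤ θ) (n : ℕ) (x y : ℝ) :
    |s.G^[n] x - s.G^[n] y| ≤ θ ^ n * |x - y| := by
  induction n with
  | zero => simp
  | succ n ih =>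
    rw [iterate_succ_apply', iterate_succ_apply']
    have h1 : ∀ u v, |s.G u - s.G v| ≤ θ * |u - v| := by
      intro u v
      have := Convex.norm_image_sub_le_of_norm_hasDerivWithin_le (f := s.G)
        (f' := s.p) (s := univ) (C := θ)
        (fun z _ => (s.hGp z).hasDerivWithinAt)
        (fun z _ => by rw [Real.norm_eq_abs, abs_of_pos (s.hp z)]; exact hθ z)
        convex_univ (mem_univ v) (mem_univ u)
      simpa using this
    refine (h1 _ _).trans ?_
    rw [pow_succ]
    nlinarith [abs_nonneg (x - y)]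

/-- bounded distortion -/
lemma Exp.distortion (he : s.Exp) : ∃ K : ℝ, 0 < K ∧ ∀ (n : ℕ) (t t' : ℝ), |t - t'| ≤ 1 →
    s.Pn n t ≤ K * s.Pn n t' := by
  obtain ⟨θ, h0, h1, hθ⟩ := he.theta
  obtain ⟨M, hM, hl⟩ := logp_lip (s := s)
  refine ⟨Real.exp (M * (1 - θ)⁻¹), Real.exp_pos _, fun n t t' htt => ?_⟩
  have h2 : Real.log (s.Pn n t) - Real.log (s.Pn n t') ≤ M * (1 - θ)⁻¹ := by
    unfold Pn
    rw [Real.log_prod fun _ _ => (s.hp _).ne', Real.log_prod fun _ _ => (s.hp _).ne',
      ← Finset.sum_sub_distrib]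
    have h3 : ∀ j ∈ Finset.range n, Real.log (s.p (s.G^[j] t)) - Real.log (s.p (s.G^[j] t'))
        ≤ M * θ ^ j := by
      intro j _
      refine (le_abs_self _).trans ((hl _ _).trans ?_)
      refine mul_le_mul_of_nonneg_left ((G_contr h0 hθ j t t').trans ?_) hM
      have := pow_pos h0 j
      nlinarith
    refine (Finset.sum_le_sum h3).trans ?_
    rw [← Finset.mul_sum]
    refine mul_le_mul_of_nonneg_left ?_ hM
    rw [← tsum_geometric_of_lt_one h0.le h1]
    exact (summable_geometric_of_lt_one h0.le h1).sum_le_tsum _ fun _ _ => (pow_pos h0 _).le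
  have h4 : s.Pn n t = Real.exp (Real.log (s.Pn n t)) := (Real.exp_log (Pn_pos n t)).symm
  have h5 : s.Pn n t' = Real.exp (Real.log (s.Pn n t')) := (Real.exp_log (Pn_pos n t')).symm
  rw [h4, h5, ← Real.exp_add]
  exact Real.exp_le_exp.mpr (by linarith)

lemma gA_iter_coe (n : ℕ) (x : ℝ) : s.gA^[n] (x : UnitAddCircle) = (s.g^[n] x : UnitAddCircle) := by
  induction n generalizing x with
  | zero => rfl
  | succ n ih => rw [iterate_succ_apply, iterate_succ_apply, gA_coe, ih]

/-- **exactness** of the base map -/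
theorem Exp.exact (he : s.Exp) : Exact1 s.gA := by
  intro A hA htail
  by_contra hcon
  push Not at hcon
  obtain ⟨hA0, hA1⟩ := hcon
  obtain ⟨K, hK, hdist⟩ := he.distortion
  obtain ⟨θ, h0, h1, hθ⟩ := he.theta
  set S : Set ℝ := ((↑) : ℝ → UnitAddCircle) ⁻¹' A with hS
  have hSm : MeasurableSet S := AddCircle.measurable_mk' hA
  have hAfin : volume A ≠ ⊤ := measure_ne_top _ _
  -- the key lower bound
  have key : ∀ (n : ℕ) (c : ℤ), ENNReal.ofReal ((s.G^[n] (c + 1) - s.G^[n] c) / K) * volume A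
      ≤ volume (S ∩ Icc (s.G^[n] c) (s.G^[n] (c + 1))) := by
    intro n c
    obtain ⟨A', hA', hAA'⟩ := htail n
    set S' : Set ℝ := ((↑) : ℝ → UnitAddCircle) ⁻¹' A' with hS'
    have hS'm : MeasurableSet S' := AddCircle.measurable_mk' hA'
    have hmemS : ∀ t, s.G^[n] t ∈ S ↔ t ∈ S' := by
      intro t
      rw [hS, mem_preimage, hAA', mem_preimage, gA_iter_coe, gG_iter]
      rfl
    have hvol : volume (S' ∩ Ioc (c : ℝ) (c + 1)) = volume A := by
      have h2 := (UnitAddCircle.measurePreserving_mk c).measure_preimage hA'.nullMeasurableSet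
      rw [Measure.restrict_apply (AddCircle.measurable_mk' hA')] at h2
      rw [h2, hAA', (gA_mp.iterate n).measure_preimage hA'.nullMeasurableSet]
    have himg : s.G^[n] '' (S' ∩ Ioc (c : ℝ) (c + 1))
        ⊆ S ∩ Icc (s.G^[n] c) (s.G^[n] (c + 1)) := by
      rintro _ ⟨t, ⟨ht1, ht2⟩, rfl⟩
      exact ⟨(hmemS t).mpr ht1, (G_iter_strictMono n).monotone ht2.1.le,
        (G_iter_strictMono n).monotone ht2.2⟩
    refine le_trans ?_ (measure_mono himg)
    have h3 := lintegral_image_eq_lintegral_abs_deriv_mul (s := S' ∩ Ioc (c : ℝ) (c + 1))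
      (hS'm.inter measurableSet_Ioc) (f := s.G^[n]) (f' := s.Pn n) (fun x _ => (G_iter_deriv n x).hasDerivWithinAt)
      ((G_iter_strictMono n).injective.injOn) (fun _ => 1)
    rw [setLIntegral_one] at h3
    rw [h3]
    have h4 : ∀ t ∈ S' ∩ Ioc (c : ℝ) (c + 1),
        ENNReal.ofReal ((s.G^[n] (c + 1) - s.G^[n] c) / K) ≤ ENNReal.ofReal |s.Pn n t| * 1 := by
      intro t ht
      rw [mul_one, abs_of_pos (Pn_pos n t)]
      apply ENNReal.ofReal_le_ofReal
      obtain ⟨ξ, hξ, hξ'⟩ := exists_hasDerivAt_eq_slope (s.G^[n]) (s.Pn n)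
        (show (c : ℝ) < c + 1 by linarith)
        (fun x _ => (G_iter_deriv n x).continuousAt.continuousWithinAt)
        (fun x _ => G_iter_deriv n x)
      rw [add_sub_cancel_left, div_one] at hξ'
      rw [← hξ', div_le_iff₀ hK, mul_comm]
      apply hdist
      rw [abs_le]
      constructor <;> linarith [hξ.1, hξ.2, ht.2.1, ht.2.2]
    calc ENNReal.ofReal ((s.G^[n] (c + 1) - s.G^[n] c) / K) * volume A
        = ∫⁻ _ in S' ∩ Ioc (c : ℝ) (c + 1),
            ENNReal.ofReal ((s.G^[n] (c + 1) - s.G^[n] c) / K) := by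
          rw [setLIntegral_const, hvol]
      _ ≤ _ := setLIntegral_mono' (hS'm.inter measurableSet_Ioc) h4
  -- density
  have hdens := IsUnifLocDoublingMeasure.ae_tendsto_measure_inter_div
    (μ := (volume : Measure ℝ)) Sᶜ 1
  have hSc : volume Sᶜ ≠ 0 := by
    intro h2
    apply hA1
    have h3 := (UnitAddCircle.measurePreserving_mk 0).measure_preimage hA.compl.nullMeasurableSet
    have h4 : volume Aᶜ = 0 := by
      rw [← h3, Measure.restrict_apply (AddCircle.measurable_mk' hA.compl)]
      exact measure_mono_null inter_subset_left h2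
    exact (prob_compl_eq_zero_iff hA).mp h4
  have hne : (ae ((volume : Measure ℝ).restrict Sᶜ)).NeBot := by
    rw [ae_neBot, Ne, Measure.restrict_eq_zero]
    exact hSc
  obtain ⟨x, hx⟩ := hdens.exists
  set c : ℕ → ℤ := fun n => ⌊s.g^[n] x⌋ with hc
  set w : ℕ → ℝ := fun n => (s.G^[n] (c n) + s.G^[n] (c n + 1)) / 2 with hw
  set δ : ℕ → ℝ := fun n => (s.G^[n] (c n + 1) - s.G^[n] (c n)) / 2 with hδ
  have hδpos : ∀ n, 0 < δ n := fun n => by
    have := G_iter_strictMono (s := s) n (show (c n : ℝ) < c n + 1 by linarith)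
    simp only [hδ]
    linarith
  have hball : ∀ n, Metric.closedBall (w n) (δ n) = Icc (s.G^[n] (c n)) (s.G^[n] (c n + 1)) := by
    intro n
    rw [Real.closedBall_eq_Icc]
    congr 1 <;> simp only [hw, hδ] <;> ring
  have hδlim : Tendsto δ atTop (𝓝[>] 0) := by
    rw [tendsto_nhdsWithin_iff]
    refine ⟨?_, Eventually.of_forall hδpos⟩
    have h2 : Tendsto (fun n : ℕ => θ ^ n / 2) atTop (𝓝 (0 / 2)) :=
      (tendsto_pow_atTop_nhds_zero_of_lt_one h0.le h1).div_const 2
    rw [zero_div] at h2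
    refine squeeze_zero (fun n => (hδpos n).le) (fun n => ?_) h2
    have h3 := G_contr h0 hθ n (c n + 1) (c n)
    rw [add_sub_cancel_left, abs_one, mul_one] at h3
    have h4 := le_abs_self (s.G^[n] (c n + 1) - s.G^[n] (c n))
    simp only [hδ]
    linarith
  have hmem : ∀ᶠ n in atTop, x ∈ Metric.closedBall (w n) (1 * δ n) := by
    refine Eventually.of_forall fun n => ?_
    rw [one_mul, hball]
    have h2 : s.G^[n] (s.g^[n] x) = x := Gg_iter n x
    constructor
    · conv_rhs => rw [← h2]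
      exact (G_iter_strictMono n).monotone (Int.floor_le _)
    · conv_lhs => rw [← h2]
      exact (G_iter_strictMono n).monotone (Int.lt_floor_add_one _).le
  have hlim := hx w δ hδlim hmem
  -- contradiction
  set ρ : ℝ≥0∞ := volume A / ENNReal.ofReal K with hρ
  have hρ0 : ρ ≠ 0 := by
    rw [hρ]
    exact (ENNReal.div_pos hA0 ENNReal.ofReal_ne_top).ne'
  have hup : ∀ n, volume (Sᶜ ∩ Metric.closedBall (w n) (δ n))
      / volume (Metric.closedBall (w n) (δ n)) ≤ 1 - ρ := by
    intro n
    have hvb : volume (Metric.closedBall (w n) (δ n)) = ENNReal.ofReal (2 * δ n) := by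
      rw [Real.volume_closedBall]
    have hvb0 : volume (Metric.closedBall (w n) (δ n)) ≠ 0 := by
      rw [hvb]
      simpa using hδpos n
    have hvbt : volume (Metric.closedBall (w n) (δ n)) ≠ ⊤ := by
      rw [hvb]; exact ENNReal.ofReal_ne_top
    have h2 := key n (c n)
    rw [← hball] at h2
    have h3 : ENNReal.ofReal ((s.G^[n] (c n + 1) - s.G^[n] (c n)) / K) * volume A
        = ρ * volume (Metric.closedBall (w n) (δ n)) := by
      rw [hvb, hρ, ENNReal.ofReal_div_of_pos hK]
      have : s.G^[n] (c n + 1) - s.G^[n] (c n) = 2 * δ n := by simp only [hδ]; ring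
      rw [this, ENNReal.div_eq_inv_mul, ENNReal.div_eq_inv_mul]
      ring
    rw [h3] at h2
    have h4 : volume (Sᶜ ∩ Metric.closedBall (w n) (δ n))
        + volume (S ∩ Metric.closedBall (w n) (δ n)) = volume (Metric.closedBall (w n) (δ n)) := by
      rw [add_comm, inter_comm S, inter_comm Sᶜ, ← Set.sdiff_eq]
      exact measure_inter_add_sdiff _ hSm
    have h5 : volume (Sᶜ ∩ Metric.closedBall (w n) (δ n))
        ≤ (1 - ρ) * volume (Metric.closedBall (w n) (δ n)) := by
      rw [ENNReal.sub_mul (fun _ _ => hvbt), one_mul]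
      apply ENNReal.le_sub_of_add_le_right
        (ne_top_of_le_ne_top hvbt (h2.trans (measure_mono inter_subset_right)))
      rw [← h4]
      gcongr
      rw [h4]
      exact h2
    rw [ENNReal.div_le_iff hvb0 hvbt]
    exact h5
  have hfin := le_of_tendsto' hlim hup
  have hlt : 1 - ρ < 1 := ENNReal.sub_lt_self ENNReal.one_ne_top one_ne_zero hρ0
  exact absurd hfin (not_le.mpr hlt)

end Sk

end Pool.Agent.H165R3
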