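import Mathlib

set_option autoImplicit false

open Set Filter Topology MeasureTheory

namespace Pool.Agent.H165R3

namespace BIRK

variable {B : Type*} [MeasurableSpace B]

/-- maximal partial sums -/
noncomputable def Mx (T : B → B) (φ : B → ℝ) : ℕ → B → ℝ
  | 0, _ => 0
  | n + 1, x => max 0 (φ x + Mx T φ n (T x))

lemma Mx_nonneg (T : B → B) (φ : B → ℝ) (n : ℕ) (x : B) : 0 ≤ Mx T φ n x := by
  cases n with
  | zero => simp [Mx]
  | succ n => simp [Mx]

lemma Mx_meas {T : B → B} (hT : Measurable T) {φ : B → ℝ} (hφ : Measurable φ) (n : ℕ) :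
    Measurable (Mx T φ n) := by
  induction n with
  | zero => simpa [Mx] using (measurable_const : Measurable fun _ : B => (0 : ℝ))
  | succ n ih =>
    have : Mx T φ (n + 1) = fun x => max 0 (φ x + Mx T φ n (T x)) := rfl
    rw [this]
    exact measurable_const.max (hφ.add (ih.comp hT))

lemma Mx_le {T : B → B} {φ : B → ℝ} {C : ℝ} (hb : ∀ x, |φ x| ≤ C) (n : ℕ) (x : B) :
    Mx T φ n x ≤ n * C := by
  induction n generalizing x with
  | zero => simp [Mx]
  | succ n ih =>
    have hC : 0 ≤ C := (abs_nonneg _).trans (hb x)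
    have h1 := ih (T x)
    have h2 := (le_abs_self _).trans (hb x)
    simp only [Mx]
    push_cast
    refine max_le (by positivity) ?_
    linarith

lemma Mx_mono (T : B → B) (φ : B → ℝ) (n : ℕ) (x : B) : Mx T φ n x ≤ Mx T φ (n + 1) x := by
  induction n generalizing x with
  | zero => exact Mx_nonneg T φ 1 x
  | succ n ih =>
    have h1 := ih (T x)
    show max 0 (φ x + Mx T φ n (T x)) ≤ max 0 (φ x + Mx T φ (n + 1) (T x))
    exact max_le_max le_rfl (by linarith)

lemma Mx_sum (T : B → B) (φ : B → ℝ) (n : ℕ) (x : B) :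
    ∑ k ∈ Finset.range n, φ (T^[k] x) ≤ Mx T φ n x := by
  induction n generalizing x with
  | zero => simp [Mx]
  | succ n ih =>
    rw [Finset.sum_range_succ']
    have h1 := ih (T x)
    simp only [Function.iterate_succ_apply, Function.iterate_zero, id_eq]
    show _ ≤ max 0 (φ x + Mx T φ n (T x))
    refine le_max_of_le_right ?_
    linarith

lemma aux {m : Measure B} [IsProbabilityMeasure m]
    {T : B → B} (hT : Ergodic T m) (φ : B → ℝ) (hφ : Measurable φ) (C : ℝ)
    (hb : ∀ x, |φ x| ≤ C) (hneg : ∫ x, φ x ∂m < 0) :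
    ∀ᵐ x ∂m, ∃ K : ℕ, ∀ n, Mx T φ n x ≤ K := by
  have hTm := hT.toMeasurePreserving
  set A : Set B := {x | ∀ K : ℕ, ∃ n, (K : ℝ) < Mx T φ n x} with hA
  have hAm : MeasurableSet A := by
    have : A = ⋂ K : ℕ, ⋃ n : ℕ, {x | (K : ℝ) < Mx T φ n x} := by
      ext x; simp [hA]
    rw [this]
    refine MeasurableSet.iInter fun K => MeasurableSet.iUnion fun n => ?_
    exact measurableSet_lt measurable_const (Mx_meas hTm.measurable hφ n)
  have hinv : T ⁻¹' A = A := by
    ext x
    have hC : 0 ≤ C := (abs_nonneg _).trans (hb x)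
    obtain ⟨c, hc⟩ := exists_nat_ge C
    have h1 := abs_le.mp (hb x)
    constructor
    · intro hx K
      obtain ⟨n, hn⟩ := hx (K + c)
      refine ⟨n + 1, ?_⟩
      show _ < max 0 (φ x + Mx T φ n (T x))
      refine lt_max_of_lt_right ?_
      push_cast at hn
      linarith
    · intro hx K
      obtain ⟨n, hn⟩ := hx (K + c)
      push_cast at hn
      cases n with
      | zero =>
        exfalso
        simp only [Mx] at hn
        have : (0 : ℝ) ≤ K := Nat.cast_nonneg K
        linarith
      | succ n =>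
        refine ⟨n, ?_⟩
        have h2 : (K : ℝ) + c < max 0 (φ x + Mx T φ n (T x)) := hn
        rcases lt_max_iff.mp h2 with h3 | h3
        · exfalso
          have : (0 : ℝ) ≤ K := Nat.cast_nonneg K
          linarith
        · linarith
  rcases hT.toPreErgodic.ae_empty_or_univ hAm hinv with h0 | h1
  · have h2 : ∀ᵐ x ∂m, x ∉ A := by
      filter_upwards [h0] with x hx
      intro hxA
      have : (x ∈ A) = (x ∈ (∅ : Set B)) := hx
      rw [this] at hxA
      exact hxA
    filter_upwards [h2] with x hx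
    simp only [hA, mem_setOf_eq, not_forall, not_exists, not_lt] at hx
    exact hx
  · exfalso
    have hmem : ∀ᵐ x ∂m, x ∈ A := by
      filter_upwards [h1] with x hx
      have : (x ∈ A) = (x ∈ (univ : Set B)) := hx
      rw [this]
      trivial
    have hMint : ∀ n, Integrable (Mx T φ n) m := by
      intro n
      refine Integrable.mono' (integrable_const (n * C))
        (Mx_meas hTm.measurable hφ n).aestronglyMeasurable ?_
      filter_upwards with x
      rw [Real.norm_eq_abs, abs_of_nonneg (Mx_nonneg T φ n x)]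
      exact Mx_le hb n x
    set F : ℕ → B → ℝ := fun n x => max (- Mx T φ n (T x)) (φ x) with hF
    have hFeq : ∀ n x, F n x = Mx T φ (n + 1) x - Mx T φ n (T x) := by
      intro n x
      simp only [hF, Mx]
      rw [← max_sub_sub_right]
      congr 1 <;> ring
    have hFint : ∀ n, 0 ≤ ∫ x, F n x ∂m := by
      intro n
      have h2 : ∫ x, Mx T φ n (T x) ∂m = ∫ x, Mx T φ n x ∂m := by
        have h3 := integral_map (μ := m) hTm.measurable.aemeasurable
          (f := Mx T φ n) (Mx_meas hTm.measurable hφ n).aestronglyMeasurable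
        rw [hTm.map_eq] at h3
        exact h3.symm
      have h3 : Integrable (fun x => Mx T φ n (T x)) m :=
        hTm.integrable_comp_of_integrable (hMint n)
      simp only [hFeq]
      rw [integral_sub (hMint (n + 1)) h3, h2, ← integral_sub (hMint (n + 1)) (hMint n)]
      refine integral_nonneg fun x => ?_
      have := Mx_mono T φ n x
      simp only [Pi.zero_apply]
      linarith
    have hlim : Tendsto (fun n => ∫ x, F n x ∂m) atTop (𝓝 (∫ x, φ x ∂m)) := by
      refine tendsto_integral_of_dominated_convergence (fun _ => C) ?_ (integrable_const C) ?_ ?_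
      · intro n
        exact (((Mx_meas hTm.measurable hφ n).comp hTm.measurable).neg.max hφ).aestronglyMeasurable
      · intro n
        filter_upwards with x
        have h2 := Mx_nonneg T φ n (T x)
        have h3 := abs_le.mp (hb x)
        rw [Real.norm_eq_abs, abs_le]
        constructor
        · exact h3.1.trans (le_max_right _ _)
        · exact max_le (by linarith [(abs_nonneg _).trans (hb x)]) h3.2
      · filter_upwards [hmem] with x hx
        rw [← hinv] at hx
        obtain ⟨c, hc⟩ := exists_nat_ge C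
        obtain ⟨N, hN⟩ := hx c
        have hmono : Monotone fun n => Mx T φ n (T x) :=
          monotone_nat_of_le_succ fun n => Mx_mono T φ n (T x)
        refine tendsto_const_nhds.congr' ?_
        filter_upwards [eventually_ge_atTop N] with n hn
        have h4 := hmono hn
        simp only at h4
        have h3 := abs_le.mp (hb x)
        simp only [hF]
        rw [max_eq_right]
        linarith
    have := ge_of_tendsto' hlim hFint
    linarith

lemma upper {m : Measure B} [IsProbabilityMeasure m]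
    {T : B → B} (hT : Ergodic T m) (φ : B → ℝ) (hφ : Measurable φ) (hb : ∃ C, ∀ x, |φ x| ≤ C)
    (ε : ℝ) (hε : 0 < ε) :
    ∀ᵐ x ∂m, ∀ᶠ n : ℕ in atTop,
      (n : ℝ)⁻¹ * ∑ k ∈ Finset.range n, φ (T^[k] x) ≤ (∫ x, φ x ∂m) + ε := by
  obtain ⟨C, hC⟩ := hb
  set I := ∫ x, φ x ∂m with hI
  have hint : Integrable φ m := by
    refine Integrable.mono' (integrable_const C) hφ.aestronglyMeasurable ?_
    filter_upwards with x
    exact hC x
  have h1 : ∫ x, (φ x - (I + ε / 2)) ∂m < 0 := by
    rw [integral_sub hint (integrable_const _)]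
    simp only [integral_const, probReal_univ, smul_eq_mul, one_mul]
    rw [← hI]
    linarith
  have h2 := aux hT (fun x => φ x - (I + ε / 2)) (hφ.sub measurable_const) (C + |I + ε / 2|)
    (fun x => (abs_sub _ _).trans (add_le_add (hC x) le_rfl)) h1
  filter_upwards [h2] with x hx
  obtain ⟨K, hK⟩ := hx
  obtain ⟨N, hN⟩ := exists_nat_gt ((K : ℝ) / (ε / 2))
  filter_upwards [eventually_ge_atTop (N + 1)] with n hn
  have h3 := (Mx_sum T (fun x => φ x - (I + ε / 2)) n x).trans (hK n)
  rw [Finset.sum_sub_distrib] at h3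
  simp only [Finset.sum_const, Finset.card_range, nsmul_eq_mul] at h3
  have hn0 : (0 : ℝ) < n := by
    have : 0 < n := by omega
    exact_mod_cast this
  have h4 : (K : ℝ) ≤ n * (ε / 2) := by
    rw [div_lt_iff₀ (by positivity)] at hN
    have : (N : ℝ) ≤ n := by
      have : N ≤ n := by omega
      exact_mod_cast this
    nlinarith
  rw [inv_mul_le_iff₀ hn0]
  nlinarith

end BIRK

open BIRK in
/-- The pointwise ergodic theorem for bounded functions and ergodic maps. -/
theorem birkhoff {B : Type*} [MeasurableSpace B] {m : Measure B} [IsProbabilityMeasure m]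
    {T : B → B} (hT : Ergodic T m) (φ : B → ℝ) (hφ : Measurable φ) (hb : ∃ C, ∀ x, |φ x| ≤ C) :
    ∀ᵐ x ∂m, Tendsto (fun n : ℕ => (n : ℝ)⁻¹ * ∑ k ∈ Finset.range n, φ (T^[k] x)) atTop
      (𝓝 (∫ x, φ x ∂m)) := by
  have h1 : ∀ j : ℕ, ∀ᵐ x ∂m, ∀ᶠ n : ℕ in atTop,
      (n : ℝ)⁻¹ * ∑ k ∈ Finset.range n, φ (T^[k] x) ≤ (∫ x, φ x ∂m) + 1 / ((j : ℝ) + 1) :=
    fun j => upper hT φ hφ hb _ (by positivity)
  have h2 : ∀ j : ℕ, ∀ᵐ x ∂m, ∀ᶠ n : ℕ in atTop,
      (n : ℝ)⁻¹ * ∑ k ∈ Finset.range n, (- φ (T^[k] x)) ≤ (∫ x, - φ x ∂m) + 1 / ((j : ℝ) + 1) :=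
    fun j => upper hT (fun x => - φ x) hφ.neg (by simpa using hb) _ (by positivity)
  rw [← ae_all_iff] at h1 h2
  filter_upwards [h1, h2] with x hx1 hx2
  rw [Metric.tendsto_atTop']
  intro ε hε
  obtain ⟨j, hj⟩ := exists_nat_one_div_lt hε
  obtain ⟨N1, hN1⟩ := eventually_atTop.mp (hx1 j)
  obtain ⟨N2, hN2⟩ := eventually_atTop.mp (hx2 j)
  refine ⟨max N1 N2, fun n hn => ?_⟩
  have h3 := hN1 n (le_trans (le_max_left _ _) hn.le)
  have h4 := hN2 n (le_trans (le_max_right _ _) hn.le)
  rw [integral_neg, Finset.sum_neg_distrib, mul_neg] at h4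
  rw [Real.dist_eq, abs_lt]
  constructor <;> linarith



end Pool.Agent.H165R3
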