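import Pool.Agent.H165R3.Base

/-!
# Smooth floor functions and the two families of skew products
-/

set_option autoImplicit false

open Set Filter Topology MeasureTheory Function
open scoped ContDiff ENNReal

namespace Pool.Agent.H165R3

/-- a smooth version of the floor function -/
noncomputable def chi (η t : ℝ) : ℝ := ⌊t⌋ + Real.smoothTransition (Int.fract t / η)

lemma chi_add_one (η t : ℝ) : chi η (t + 1) = chi η t + 1 := by
  unfold chi
  rw [Int.floor_add_one, Int.fract_add_one]
  push_cast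
  ring

lemma chi_local {η : ℝ} (h0 : 0 < η) (n : ℤ) {t : ℝ} (ht : t ∈ Ioo ((n : ℝ) - 1 + η) (n + 1)) :
    chi η t = n + Real.smoothTransition ((t - n) / η) := by
  unfold chi
  rcases lt_or_ge t n with h | h
  · have h1 : ⌊t⌋ = n - 1 := by
      rw [Int.floor_eq_iff]
      push_cast
      constructor <;> linarith [ht.1]
    have h2 : Int.fract t = t - n + 1 := by
      rw [Int.fract, h1]; push_cast; ring
    rw [h1, h2, Real.smoothTransition.one_of_one_le, Real.smoothTransition.zero_of_nonpos]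
    · push_cast; ring
    · exact (div_neg_of_neg_of_pos (by linarith) h0).le
    · rw [le_div_iff₀ h0]; linarith [ht.1]
  · have h1 : ⌊t⌋ = n := by
      rw [Int.floor_eq_iff]
      exact ⟨h, ht.2⟩
    rw [h1, Int.fract, h1]

lemma chi_contDiff {η : ℝ} (h0 : 0 < η) (h1 : η < 1) : ContDiff ℝ ∞ (chi η) := by
  rw [contDiff_iff_contDiffAt]
  intro t
  have hmem : t ∈ Ioo ((⌊t⌋ : ℝ) - 1 + η) (⌊t⌋ + 1) :=
    ⟨by linarith [Int.floor_le t], Int.lt_floor_add_one t⟩
  have h2 : chi η =ᶠ[𝓝 t] fun x => (⌊t⌋ : ℝ) + Real.smoothTransition ((x - ⌊t⌋) / η) := by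
    filter_upwards [isOpen_Ioo.mem_nhds hmem] with x hx
    exact chi_local h0 ⌊t⌋ hx
  refine ContDiffAt.congr_of_eventuallyEq ?_ h2
  have h3 : ContDiff ℝ ∞ Real.smoothTransition := Real.smoothTransition.contDiff
  apply ContDiff.contDiffAt
  exact contDiff_const.add (h3.comp ((contDiff_id.sub contDiff_const).div_const η))

lemma chi_cont {η : ℝ} (h0 : 0 < η) (h1 : η < 1) : Continuous (chi η) :=
  (chi_contDiff h0 h1).continuous

lemma chi_mono {η : ℝ} (h0 : 0 < η) : Monotone (chi η) := by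
  intro x y hxy
  unfold chi
  rcases (Int.floor_mono hxy).lt_or_eq with h | h
  · have h2 : (⌊x⌋ : ℝ) + 1 ≤ ⌊y⌋ := by exact_mod_cast h
    have h3 := Real.smoothTransition.le_one (Int.fract x / η)
    have h4 := Real.smoothTransition.nonneg (Int.fract y / η)
    linarith
  · have h2 : Int.fract x ≤ Int.fract y := by
      simp only [Int.fract, h]; linarith
    have h3 : Real.smoothTransition (Int.fract x / η) ≤ Real.smoothTransition (Int.fract y / η) :=
      Real.smoothTransition.monotone (by gcongr)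
    rw [h]
    linarith

lemma chi_plateau {η : ℝ} (h0 : 0 < η) (n : ℤ) {t : ℝ} (ht : t ∈ Icc ((n : ℝ) + η) (n + 1)) :
    chi η t = n + 1 := by
  unfold chi
  rcases ht.2.lt_or_eq with h | h
  · have h1 : ⌊t⌋ = n := by
      rw [Int.floor_eq_iff]
      exact ⟨by linarith [ht.1], h⟩
    rw [h1, Int.fract, h1, Real.smoothTransition.one_of_one_le]
    rw [le_div_iff₀ h0]; linarith [ht.1]
  · rw [h]
    have h1 : ⌊(n : ℝ) + 1⌋ = n + 1 := by
      rw [Int.floor_add_one, Int.floor_intCast]
    rw [h1, Int.fract, h1]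
    simp

/-- indicator of the transition window -/
noncomputable def win (η t : ℝ) : ℝ := if Int.fract t < η then 1 else 0

lemma win_add_one (η t : ℝ) : win η (t + 1) = win η t := by
  unfold win
  rw [Int.fract_add_one]

lemma win_meas (η : ℝ) : Measurable (win η) :=
  Measurable.ite (measurableSet_lt measurable_fract measurable_const) measurable_const
    measurable_const

lemma win_nonneg (η t : ℝ) : 0 ≤ win η t := by unfold win; split_ifs <;> norm_num
lemma win_le (η t : ℝ) : win η t ≤ 1 := by unfold win; split_ifs <;> norm_num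

lemma bdd_ii {u : ℝ → ℝ} (hu : Measurable u) (h0 : ∀ t, |u t| ≤ 1) (a b : ℝ) :
    IntervalIntegrable u volume a b := by
  refine (intervalIntegrable_const (c := (1 : ℝ))).mono_fun hu.aestronglyMeasurable ?_
  filter_upwards with t
  simpa using h0 t

lemma win_abs (η t : ℝ) : |win η t| ≤ 1 := by
  rw [abs_of_nonneg (win_nonneg η t)]; exact win_le η t

lemma win_ii (η a b : ℝ) : IntervalIntegrable (win η) volume a b :=
  bdd_ii (win_meas η) (win_abs η) a b

lemma win_int {η : ℝ} (h0 : 0 < η) (h1 : η < 1) (a : ℝ) : ∫ t in a..(a + 1), win η t = η := by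
  have hP : Function.Periodic (win η) 1 := win_add_one η
  rw [hP.intervalIntegral_add_eq a 0, zero_add]
  rw [intervalIntegral.integral_of_le zero_le_one, ← integral_Ico_eq_integral_Ioc]
  have h2 : ∫ t in Ico (0 : ℝ) 1, win η t = ∫ t in Ico (0 : ℝ) 1, (Ico (0 : ℝ) η).indicator 1 t := by
    refine setIntegral_congr_fun measurableSet_Ico fun t ht => ?_
    have h3 : Int.fract t = t := Int.fract_eq_self.mpr ht
    simp only [win, h3, indicator, mem_Ico, ht.1, true_and, Pi.one_apply]
  rw [h2, setIntegral_indicator measurableSet_Ico]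
  have h4 : Ico (0 : ℝ) 1 ∩ Ico 0 η = Ico 0 η := by
    rw [Ico_inter_Ico]
    simp [h1.le]
  rw [h4]
  simp [h0.le]

lemma negMulLog_le_one {x : ℝ} (hx : x ∈ Icc (0 : ℝ) 1) : Real.negMulLog x ≤ 1 := by
  unfold Real.negMulLog
  rcases hx.1.lt_or_eq with h | h
  · have := Real.one_sub_inv_le_log_of_pos h
    have h2 : x * (1 - x⁻¹) ≤ x * Real.log x := mul_le_mul_of_nonneg_left this h.le
    have h3 : x * (1 - x⁻¹) = x - 1 := by field_simp
    nlinarith
  · rw [← h]; simp

lemma negMulLog_nonneg' {x : ℝ} (hx : x ∈ Icc (0 : ℝ) 1) : 0 ≤ Real.negMulLog x :=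
  Real.negMulLog_nonneg hx.1 hx.2

lemma chi_diff_mem {η : ℝ} (h0 : 0 < η) {a b : ℝ} (hab : b ≤ a) (hba : a ≤ b + 1) :
    chi η a - chi η b ∈ Icc (0 : ℝ) 1 := by
  constructor
  · linarith [chi_mono h0 hab]
  · have := chi_mono h0 hba
    rw [chi_add_one] at this
    linarith

/-- outside the windows the entropy of the difference vanishes -/
lemma negMulLog_chi {η : ℝ} (h0 : 0 < η) {a b : ℝ} (hab : b ≤ a) (hba : a ≤ b + 1) :
    Real.negMulLog (chi η a - chi η b) ≤ win η a + win η b := by
  have hm := chi_diff_mem h0 hab hba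
  by_cases ha : Int.fract a < η
  · have : win η a = 1 := by unfold win; rw [if_pos ha]
    rw [this]
    linarith [negMulLog_le_one hm, win_nonneg η b]
  · by_cases hb : Int.fract b < η
    · have : win η b = 1 := by unfold win; rw [if_pos hb]
      rw [this]
      linarith [negMulLog_le_one hm, win_nonneg η a]
    · push Not at ha hb
      have ea : chi η a = ⌊a⌋ + 1 := by
        unfold chi
        rw [Real.smoothTransition.one_of_one_le]
        rw [le_div_iff₀ h0]; linarith
      have eb : chi η b = ⌊b⌋ + 1 := by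
        unfold chi
        rw [Real.smoothTransition.one_of_one_le]
        rw [le_div_iff₀ h0]; linarith
      have e1 : chi η a - chi η b = ((⌊a⌋ - ⌊b⌋ : ℤ) : ℝ) := by
        rw [ea, eb]; push_cast; ring
      rw [e1] at hm ⊢
      have h2 : (0 : ℤ) ≤ ⌊a⌋ - ⌊b⌋ := by exact_mod_cast hm.1
      have h3 : ⌊a⌋ - ⌊b⌋ ≤ (1 : ℤ) := by exact_mod_cast hm.2
      have h4 : ⌊a⌋ - ⌊b⌋ = 0 ∨ ⌊a⌋ - ⌊b⌋ = 1 := by omega
      have h5 : Real.negMulLog ((⌊a⌋ - ⌊b⌋ : ℤ) : ℝ) = 0 := by
        rcases h4 with h | h <;> rw [h] <;> simp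
      rw [h5]
      linarith [win_nonneg η a, win_nonneg η b]

/-- data for the construction: a lift of the arcs -/
structure Sg where
  d : ℕ
  hd : 5 ≤ d
  σ : ℝ → ℝ
  hσ : ContDiff ℝ ∞ σ
  hσd : ∀ x, σ (x + d) = σ x + 1
  δ : ℝ
  hδ : 0 < δ
  hlow : ∀ x, σ x + δ ≤ σ (x + 1)

namespace Sg

variable (r : Sg)

/-- the density of the branches -/
noncomputable def p (x : ℝ) : ℝ := r.σ (x + 1) - r.σ x
/-- the inverse of the base map -/
noncomputable def G (x : ℝ) : ℝ := ∫ t in (0 : ℝ)..x, r.p t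

lemma p_pos (x : ℝ) : 0 < r.p x := by
  unfold p; linarith [r.hlow x, r.hδ]

lemma p_contDiff : ContDiff ℝ ∞ r.p :=
  (r.hσ.comp (contDiff_id.add contDiff_const)).sub r.hσ

lemma p_cont : Continuous r.p := r.p_contDiff.continuous

lemma G_deriv (x : ℝ) : HasDerivAt r.G (r.p x) x :=
  intervalIntegral.integral_hasDerivAt_right (r.p_cont.intervalIntegrable _ _)
    (r.p_cont.stronglyMeasurableAtFilter _ _) r.p_cont.continuousAt

lemma G_contDiff : ContDiff ℝ ∞ r.G := by
  rw [contDiff_infty_iff_deriv]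
  refine ⟨fun x => (r.G_deriv x).differentiableAt, ?_⟩
  have : deriv r.G = r.p := by funext x; exact (r.G_deriv x).deriv
  rw [this]
  exact r.p_contDiff

lemma d_pos : 0 < r.d := by have := r.hd; omega

lemma p_sum (x : ℝ) : ∑ i ∈ Finset.range r.d, r.p (x + i) = 1 := by
  unfold p
  have h : ∀ i ∈ Finset.range r.d, r.σ (x + i + 1) - r.σ (x + i)
      = (fun i : ℕ => r.σ (x + i)) (i + 1) - (fun i : ℕ => r.σ (x + i)) i := by
    intro i _
    simp only
    push_cast
    rw [add_assoc]
  rw [Finset.sum_congr rfl h, Finset.sum_range_sub (fun i : ℕ => r.σ (x + i))]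
  simp only [Nat.cast_zero, add_zero, r.hσd]
  ring

lemma p_per (x : ℝ) : r.p (x + r.d) = r.p x := by
  unfold p
  rw [add_right_comm, r.hσd, r.hσd]
  ring

lemma G_add_d (x : ℝ) : r.G (x + r.d) = r.G x + 1 := by
  have h1 : r.G (x + r.d) - r.G x = ∫ t in x..(x + r.d), r.p t := by
    unfold G
    rw [intervalIntegral.integral_interval_sub_left] <;> exact r.p_cont.intervalIntegrable _ _
  have h2 := period_sum r.p r.d r.p_per r.p_cont x
  rw [← intervalIntegral.integral_finsetSum] at h2
  swap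
  · intro i _
    exact (r.p_cont.comp (continuous_add_const (i : ℝ))).intervalIntegrable _ _
  simp only [r.p_sum] at h2
  rw [h2] at h1
  simp at h1
  linarith

end Sg

end Pool.Agent.H165R3
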