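import Pool.Agent.H165R3.Fam

/-!
# Entropy formulas for the exponents, and the intermediate value arguments
-/

set_option autoImplicit false

open Set Filter Topology MeasureTheory Function
open scoped ContDiff ENNReal

namespace Pool.Agent.H165R3

namespace Sk

variable (s : Sk)

lemma kappa_int (x : ℝ) : ∫ t in (0 : ℝ)..s.m, s.κ (x, t) = 1 := by
  rw [intervalIntegral.integral_eq_sub_of_hasDerivAt (fun t _ => s.hkκ x t)]
  · have := s.hkm x 0
    rw [zero_add] at this
    rw [this]; ring
  · exact (s.kappa_cont.comp (by fun_prop)).intervalIntegrable _ _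

lemma L2_eq : s.L2 = ∫ x in (0 : ℝ)..s.d, Real.negMulLog (s.p x) := by
  have h1 := s.cv (fun z => Real.log (1 / s.p z.1))
    ((continuous_const.div (s.p_cont.comp continuous_fst) fun z => (s.hp _).ne').log
      fun z => (one_div_pos.mpr (s.hp _)).ne')
    (fun x y => by simp only [s.p_add_d]) (fun x y => rfl)
  have h2 : s.L2 = ∫ x in (0 : ℝ)..1, ∫ y in (0 : ℝ)..1, Real.log (1 / s.p (s.F (x, y)).1) := rfl
  rw [h2, h1]
  refine intervalIntegral.integral_congr fun x _ => ?_
  simp only
  rw [intervalIntegral.integral_const_mul, s.kappa_int, one_div, Real.log_inv, Real.negMulLog]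
  ring

lemma L1_eq : s.L1 = ∫ x in (0 : ℝ)..s.d, (∫ t in (0 : ℝ)..s.m, Real.negMulLog (s.κ (x, t)))
    * s.p x := by
  have h1 := s.cv (fun z => Real.log (1 / s.κ z))
    ((continuous_const.div s.kappa_cont fun z => (s.hκ _).ne').log
      fun z => (one_div_pos.mpr (s.hκ _)).ne')
    (fun x y => by simp only [s.kappa_add_d]) (fun x y => by simp only [s.kappa_add_m])
  have h2 : s.L1 = ∫ x in (0 : ℝ)..1, ∫ y in (0 : ℝ)..1, Real.log (1 / s.κ (s.F (x, y))) := rfl
  rw [h2, h1]
  refine intervalIntegral.integral_congr fun x _ => ?_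
  congr 1
  refine intervalIntegral.integral_congr fun t _ => ?_
  rw [one_div, Real.log_inv, Real.negMulLog]
  ring

lemma L12_eq : s.L1 + s.L2 = ∫ x in (0 : ℝ)..s.d, ∫ t in (0 : ℝ)..s.m,
    Real.negMulLog (s.p x * s.κ (x, t)) := by
  rw [L1_eq, L2_eq]
  have hc1 : Continuous fun x => (∫ t in (0 : ℝ)..s.m, Real.negMulLog (s.κ (x, t))) * s.p x := by
    refine Continuous.mul ?_ s.p_cont
    apply intervalIntegral.continuous_parametric_intervalIntegral_of_continuous'
    exact Real.continuous_negMulLog.comp s.kappa_cont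
  have hc2 : Continuous fun x => Real.negMulLog (s.p x) := Real.continuous_negMulLog.comp s.p_cont
  rw [← intervalIntegral.integral_add (hc1.intervalIntegrable _ _) (hc2.intervalIntegrable _ _)]
  refine intervalIntegral.integral_congr fun x _ => ?_
  have e1 : ∀ t, Real.negMulLog (s.p x * s.κ (x, t))
      = Real.negMulLog (s.κ (x, t)) * s.p x + Real.negMulLog (s.p x) * s.κ (x, t) := by
    intro t
    rw [Real.negMulLog_mul]
    ring
  simp only [e1]
  have hck : Continuous fun t => s.κ (x, t) := s.kappa_cont.comp (by fun_prop)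
  rw [intervalIntegral.integral_add, intervalIntegral.integral_mul_const,
    intervalIntegral.integral_const_mul, s.kappa_int, mul_one]
  · exact ((Real.continuous_negMulLog.comp hck).mul continuous_const).intervalIntegrable _ _
  · exact (continuous_const.mul hck).intervalIntegrable _ _

lemma Exp.ergodic_gA {s : Sk} (he : s.Exp) : Ergodic s.gA (volume : Measure UnitAddCircle) :=
  he.exact.ergodic gA_mp

end Sk

/-- the lifted arcs for the base -/
noncomputable def mkSg (d : ℕ) (hd : 5 ≤ d) (η u : ℝ) (h0 : 0 < η) (h1 : η < 1) (hu0 : 0 ≤ u)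
    (hu1 : u < 1) : Sg where
  d := d
  hd := hd
  σ := fun x => (1 - u) * (x / d) + u * chi η (x / d)
  hσ := (contDiff_const.mul (contDiff_id.div_const _)).add
    (contDiff_const.mul ((chi_contDiff h0 h1).comp (contDiff_id.div_const _)))
  hσd := fun x => by
    have hd' : (d : ℝ) ≠ 0 := by
      have : d ≠ 0 := by omega
      exact_mod_cast this
    rw [add_div, div_self hd', chi_add_one]
    ring
  δ := (1 - u) / d
  hδ := by
    have hd' : (0 : ℝ) < d := by
      have : 0 < d := by omega
      exact_mod_cast this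
    have : 0 < 1 - u := by linarith
    positivity
  hlow := fun x => by
    have hd' : (0 : ℝ) < d := by
      have : 0 < d := by omega
      exact_mod_cast this
    have e1 : chi η (x / d) ≤ chi η ((x + 1) / d) := chi_mono h0 (by gcongr; linarith)
    have e2 : (1 - u) * ((x + 1) / d) = (1 - u) * (x / d) + (1 - u) / d := by ring
    rw [e2]
    nlinarith

/-- every positive number is the entropy of a base map -/
theorem exists_base (L : ℝ) (hL : 0 < L) :
    ∃ r : Sg, ∫ x in (0 : ℝ)..r.d, Real.negMulLog (r.p x) = L := by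
  obtain ⟨d, hd5, hdL⟩ : ∃ d : ℕ, 5 ≤ d ∧ L ≤ Real.log d := by
    obtain ⟨n, hn⟩ := exists_nat_ge (Real.exp L)
    refine ⟨n + 5, by omega, ?_⟩
    rw [Real.le_log_iff_exp_le]
    · push_cast; linarith
    · push_cast; positivity
  have hd0 : (0 : ℝ) < d := by
    have : 0 < d := by omega
    exact_mod_cast this
  set η : ℝ := min (1 / 2) (L / (4 * d)) with hη
  have h0 : 0 < η := lt_min (by norm_num) (by positivity)
  have h1 : η < 1 := (min_le_left _ _).trans_lt (by norm_num)
  set τ : ℝ → ℝ := fun x => chi η ((x + 1) / d) - chi η (x / d) with hτ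
  have hτc : Continuous τ := by
    have := chi_cont h0 h1
    fun_prop
  set E : ℝ → ℝ := fun u => ∫ x in (0 : ℝ)..d, Real.negMulLog ((1 - u) / d + u * τ x) with hE
  have hEc : Continuous E := by
    apply intervalIntegral.continuous_parametric_intervalIntegral_of_continuous'
    apply Real.continuous_negMulLog.comp
    fun_prop
  have hE0 : E 0 = Real.log d := by
    simp only [hE, sub_zero, zero_mul, add_zero, intervalIntegral.integral_const, smul_eq_mul]
    rw [Real.negMulLog, one_div, Real.log_inv]
    field_simp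
  have hd1 : (1 : ℝ) ≤ d := by
    have : 1 ≤ d := by omega
    exact_mod_cast this
  have hE1 : E 1 ≤ L / 2 := by
    have e1 : ∀ x, Real.negMulLog ((1 - 1) / d + 1 * τ x) ≤ win η ((x + 1) / d) + win η (x / d) := by
      intro x
      rw [sub_self, zero_div, zero_add, one_mul]
      apply negMulLog_chi h0
      · gcongr; linarith
      · rw [add_div]
        have : 1 / (d : ℝ) ≤ 1 := by rw [div_le_one hd0]; exact hd1
        linarith
    have i1 : IntervalIntegrable (fun x => win η ((x + 1) / d)) volume 0 d :=
      bdd_ii ((win_meas η).comp (by fun_prop)) (fun t => win_abs η _) _ _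
    have i2 : IntervalIntegrable (fun x => win η (x / d)) volume 0 d :=
      bdd_ii ((win_meas η).comp (by fun_prop)) (fun t => win_abs η _) _ _
    have e2 : E 1 ≤ ∫ x in (0 : ℝ)..d, (win η ((x + 1) / d) + win η (x / d)) := by
      refine intervalIntegral.integral_mono_on hd0.le ?_ (i1.add i2) (fun x _ => e1 x)
      apply Continuous.intervalIntegrable
      apply Real.continuous_negMulLog.comp
      fun_prop
    rw [intervalIntegral.integral_add i1 i2] at e2
    have e3 : ∫ x in (0 : ℝ)..d, win η (x / d) = d * η := by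
      rw [intervalIntegral.integral_comp_div (fun x => win η x) hd0.ne', zero_div,
        div_self hd0.ne', smul_eq_mul]
      have := win_int h0 h1 0
      rw [zero_add] at this
      rw [this]
    have e4 : ∫ x in (0 : ℝ)..d, win η ((x + 1) / d) = d * η := by
      have e5 : ∀ x : ℝ, win η ((x + 1) / d) = win η (x / d + 1 / d) := by
        intro x; rw [add_div]
      simp only [e5]
      rw [intervalIntegral.integral_comp_div_add (fun x => win η x) hd0.ne', zero_div,
        div_self hd0.ne', smul_eq_mul]
      have := win_int h0 h1 (1 / d)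
      rw [zero_add, add_comm 1 (1 / (d : ℝ)), this]
    rw [e3, e4] at e2
    have e6 : η ≤ L / (4 * d) := min_le_right _ _
    have e7 : d * η ≤ L / 4 := by
      have : (d : ℝ) * (L / (4 * d)) = L / 4 := by field_simp
      rw [← this]
      gcongr
    linarith
  have hivt : L ∈ E '' Icc 0 1 := by
    have := intermediate_value_Icc' (zero_le_one (α := ℝ)) hEc.continuousOn
    apply this
    rw [hE0]
    exact ⟨by linarith, hdL⟩
  obtain ⟨u, hu, huL⟩ := hivt
  have hu1 : u < 1 := by
    rcases hu.2.lt_or_eq with h | h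
    · exact h
    · rw [h] at huL
      linarith
  refine ⟨mkSg d hd5 η u h0 h1 hu.1 hu1, ?_⟩
  rw [← huL]
  refine intervalIntegral.integral_congr fun x _ => ?_
  simp only [Sg.p, mkSg, hτ]
  congr 1
  ring

/-- every smaller positive number is the total entropy of a skew product -/
theorem exists_skew (r : Sg) (S : ℝ) (hS0 : 0 < S)
    (hSL : S < ∫ x in (0 : ℝ)..r.d, Real.negMulLog (r.p x)) :
    ∃ s : Sk, s.Fix ∧ s.Exp ∧ s.L2 = (∫ x in (0 : ℝ)..r.d, Real.negMulLog (r.p x)) ∧
      s.L1 + s.L2 = S := by
  have hd0 : (0 : ℝ) < r.d := by exact_mod_cast r.d_pos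
  set η : ℝ := min (1 / 2) (min (r.δ / 2) (S / (4 * r.d))) with hη
  have h0 : 0 < η := lt_min (by norm_num) (lt_min (by have := r.hδ; positivity) (by positivity))
  have h1 : η < 1 := (min_le_left _ _).trans_lt (by norm_num)
  have hηδ : η < r.δ := ((min_le_right _ _).trans (min_le_left _ _)).trans_lt (by
    linarith [r.hδ])
  have hD := r.D1_cont h0 h1
  have hp := r.p_cont
  set E : ℝ → ℝ := fun u => ∫ x in (0 : ℝ)..r.d, ∫ t in (0 : ℝ)..1,
    Real.negMulLog ((1 - u) * r.p x + u * r.D1 η (x, t)) with hE
  have hinner : Continuous (fun z : ℝ × ℝ => ∫ t in (0 : ℝ)..1,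
      Real.negMulLog ((1 - z.1) * r.p z.2 + z.1 * r.D1 η (z.2, t))) := by
    apply intervalIntegral.continuous_parametric_intervalIntegral_of_continuous'
    apply Real.continuous_negMulLog.comp
    fun_prop
  have hEc : Continuous E := by
    apply intervalIntegral.continuous_parametric_intervalIntegral_of_continuous'
    exact hinner
  have hE0 : E 0 = ∫ x in (0 : ℝ)..r.d, Real.negMulLog (r.p x) := by
    simp [hE]
  have hE1 : E 1 ≤ S / 2 := by
    have e1 : ∀ x, ∫ t in (0 : ℝ)..1, Real.negMulLog ((1 - 1) * r.p x + 1 * r.D1 η (x, t))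
        ≤ 2 * η := by
      intro x
      have i : ∀ a : ℝ, IntervalIntegrable (fun t => win η (a - t)) volume 0 1 := fun a =>
        bdd_ii ((win_meas η).comp (by fun_prop)) (fun t => win_abs η _) _ _
      have j : ∀ a : ℝ, ∫ t in (0 : ℝ)..1, win η (a - t) = η := by
        intro a
        rw [intervalIntegral.integral_comp_sub_left (fun x => win η x) a, sub_zero]
        have := win_int h0 h1 (a - 1)
        rw [sub_add_cancel] at this
        exact this
      have e2 : ∀ t, Real.negMulLog ((1 - 1) * r.p x + 1 * r.D1 η (x, t))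
          ≤ win η (r.σ (x + 1) - t) + win η (r.σ x - t) := by
        intro t
        rw [sub_self, zero_mul, zero_add, one_mul]
        unfold Sg.D1
        have e3 := r.p_pos x
        have e4 := r.p_le_one x
        unfold Sg.p at e3 e4
        exact negMulLog_chi h0 (by simp only; linarith) (by simp only; linarith)
      have e5 : ∫ t in (0 : ℝ)..1, Real.negMulLog ((1 - 1) * r.p x + 1 * r.D1 η (x, t))
          ≤ ∫ t in (0 : ℝ)..1, (win η (r.σ (x + 1) - t) + win η (r.σ x - t)) := by
        refine intervalIntegral.integral_mono_on zero_le_one ?_ ((i _).add (i _))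
          (fun t _ => e2 t)
        apply Continuous.intervalIntegrable
        apply Real.continuous_negMulLog.comp
        fun_prop
      rw [intervalIntegral.integral_add (i _) (i _), j, j] at e5
      linarith
    have hc1 : Continuous fun x => ∫ t in (0 : ℝ)..1,
        Real.negMulLog ((1 - 1) * r.p x + 1 * r.D1 η (x, t)) :=
      hinner.comp (continuous_const.prodMk continuous_id)
    have e6 : E 1 ≤ ∫ x in (0 : ℝ)..r.d, 2 * η :=
      intervalIntegral.integral_mono_on hd0.le (hc1.intervalIntegrable _ _)
        (continuous_const.intervalIntegrable _ _) (fun x _ => e1 x)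
    rw [intervalIntegral.integral_const, smul_eq_mul, sub_zero] at e6
    have e7 : η ≤ S / (4 * r.d) := (min_le_right _ _).trans (min_le_right _ _)
    have e8 : (r.d : ℝ) * (2 * η) ≤ S / 2 := by
      have : (r.d : ℝ) * (2 * (S / (4 * r.d))) = S / 2 := by field_simp; ring
      rw [← this]
      gcongr
    linarith
  have hivt : S ∈ E '' Icc 0 1 := by
    have := intermediate_value_Icc' (zero_le_one (α := ℝ)) hEc.continuousOn
    apply this
    rw [hE0]
    exact ⟨by linarith, hSL.le⟩
  obtain ⟨u, hu, huS⟩ := hivt
  have hu1 : u < 1 := by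
    rcases hu.2.lt_or_eq with h | h
    · exact h
    · rw [h] at huS
      linarith
  have hu0 : 0 < u := by
    rcases hu.1.lt_or_eq with h | h
    · exact h
    · rw [← h, hE0] at huS
      linarith
  refine ⟨r.skew h0 h1 u hu0.le hu1, r.skew_fix h0 h1 hηδ u hu0 hu1,
    r.skew_exp h0 h1 u hu0.le hu1, Sk.L2_eq _, ?_⟩
  rw [Sk.L12_eq, ← huS]
  show ∫ x in (0 : ℝ)..r.d, ∫ t in (0 : ℝ)..((1 : ℕ) : ℝ),
    Real.negMulLog (r.p x * ((1 - u) + u * (r.D1 η (x, t) / r.p x))) = E u
  simp only [hE, Nat.cast_one]
  refine intervalIntegral.integral_congr fun x _ => ?_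
  refine intervalIntegral.integral_congr fun t _ => ?_
  congr 1
  have := (r.p_pos x).ne'
  field_simp

end Pool.Agent.H165R3
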