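import Pool.Agent.H165R3.Sync

/-!
# Ergodicity of synchronising skew products
-/

set_option autoImplicit false

open Set Filter Topology MeasureTheory Function
open scoped ContDiff ENNReal

namespace Pool.Agent.H165R3

/-- measure of the fibre section -/
noncomputable def lam (B : Set T2) (a : UnitAddCircle) : ℝ := (volume (Prod.mk a ⁻¹' B)).toReal

lemma lam_mem (B : Set T2) (a : UnitAddCircle) : lam B a ∈ Icc (0 : ℝ) 1 :=
  ⟨ENNReal.toReal_nonneg, ENNReal.toReal_le_of_le_ofReal zero_le_one (by simpa using prob_le_one)⟩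

lemma lam_meas {B : Set T2} (hB : MeasurableSet B) : Measurable (lam B) :=
  (measurable_measure_prodMk_left hB).ennreal_toReal

lemma lam_int {B : Set T2} (hB : MeasurableSet B) : Integrable (lam B) volume := by
  refine Integrable.mono' (integrable_const (1 : ℝ)) (lam_meas hB).aestronglyMeasurable ?_
  filter_upwards with a
  rw [Real.norm_eq_abs, abs_of_nonneg (lam_mem B a).1]
  exact (lam_mem B a).2

lemma qlam_int {B : Set T2} (hB : MeasurableSet B) : Integrable (fun a => q (lam B a)) volume := by
  refine Integrable.mono' (integrable_const (1 / 4 : ℝ))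
    (q_cont.measurable.comp (lam_meas hB)).aestronglyMeasurable ?_
  filter_upwards with a
  rw [Real.norm_eq_abs, abs_of_nonneg (q_nonneg (lam_mem B a))]
  exact q_le

lemma integral_lam {B : Set T2} (hB : MeasurableSet B) :
    ∫ a, lam B a = (volume B).toReal := by
  have h1 : volume B = ∫⁻ a, volume (Prod.mk a ⁻¹' B) := by
    have : (volume : Measure T2) = (volume : Measure UnitAddCircle).prod volume := rfl
    rw [this, Measure.prod_apply hB]
  unfold lam
  rw [integral_toReal (measurable_measure_prodMk_left hB).aemeasurable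
    (Eventually.of_forall fun a => measure_lt_top _ _), h1]

lemma lam_union {A B : Set T2} (hB : MeasurableSet B) (hd : Disjoint A B) (a : UnitAddCircle) :
    lam (A ∪ B) a = lam A a + lam B a := by
  unfold lam
  rw [preimage_union, measure_union (hd.preimage _) (hB.preimage measurable_prodMk_left),
    ENNReal.toReal_add (measure_ne_top _ _) (measure_ne_top _ _)]

lemma lam_compl {B : Set T2} (hB : MeasurableSet B) (a : UnitAddCircle) :
    lam Bᶜ a = 1 - lam B a := by
  unfold lam
  rw [preimage_compl, prob_compl_eq_one_sub (hB.preimage measurable_prodMk_left),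
    ENNReal.toReal_sub_of_le prob_le_one (by simp)]
  simp

lemma rep_emb : MeasurableEmbedding rep :=
  (MeasurableEmbedding.subtype_coe measurableSet_Ioc).comp
    (AddCircle.measurableEquivIoc (1 : ℝ) 0).measurableEmbedding

/-- the generating sets of the fibre -/
def DD : Set (Set UnitAddCircle) := preimage rep '' range Iic

lemma DD_gen : MeasurableSpace.generateFrom DD = (inferInstance : MeasurableSpace UnitAddCircle) := by
  have h1 := rep_emb.comap_eq
  rw [show (inferInstance : MeasurableSpace UnitAddCircle) = MeasurableSpace.comap rep inferInstance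
    from h1.symm]
  rw [BorelSpace.measurable_eq (α := ℝ), borel_eq_generateFrom_Iic,
    MeasurableSpace.comap_generateFrom]
  rfl

lemma DD_pi : IsPiSystem DD := by
  rintro _ ⟨_, ⟨x, rfl⟩, rfl⟩ _ ⟨_, ⟨y, rfl⟩, rfl⟩ _
  exact ⟨Iic (min x y), ⟨_, rfl⟩, by rw [← preimage_inter, Iic_inter_Iic]⟩

lemma T2_gen : (inferInstance : MeasurableSpace T2) = MeasurableSpace.generateFrom
    (image2 (· ×ˢ ·) {U : Set UnitAddCircle | MeasurableSet U} DD) := by
  symm
  apply generateFrom_eq_prod MeasurableSpace.generateFrom_measurableSet DD_gen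
    isCountablySpanning_measurableSet
  refine ⟨fun n => rep ⁻¹' Iic (n : ℝ), fun n => ⟨_, ⟨_, rfl⟩, rfl⟩, ?_⟩
  rw [← preimage_iUnion]
  apply eq_univ_of_forall
  intro a
  simp only [mem_preimage, mem_iUnion, mem_Iic]
  exact exists_nat_ge _

namespace Sk

variable {s : Sk}

variable (s) in
/-- the base map on the circle -/
noncomputable def gA (a : UnitAddCircle) : UnitAddCircle := (s.f (a, 0)).1

lemma gA_coe (x : ℝ) : s.gA (x : UnitAddCircle) = (s.g x : UnitAddCircle) := by
  have h1 : s.f (pr (x, 0)) = pr (s.F (x, 0)) := s.f_pr (x, 0)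
  have h2 : pr (x, 0) = ((x : UnitAddCircle), (0 : UnitAddCircle)) := by simp [pr]
  rw [h2] at h1
  unfold gA
  rw [h1]
  simp [pr, F_fst]

lemma f_fst (w : T2) : (s.f w).1 = s.gA w.1 := by
  obtain ⟨z, rfl⟩ := pr_surj w
  rw [f_pr]
  show ((s.F z).1 : UnitAddCircle) = s.gA (z.1 : UnitAddCircle)
  rw [gA_coe, F_fst]

lemma f_iter_fst (n : ℕ) (w : T2) : (s.f^[n] w).1 = s.gA^[n] w.1 := by
  induction n generalizing w with
  | zero => rfl
  | succ n ih => rw [iterate_succ_apply, iterate_succ_apply, ih, f_fst]

lemma gA_cont : Continuous s.gA := by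
  unfold gA
  exact continuous_fst.comp (s.f_cont.comp (by fun_prop))

lemma f_iter_pr (n : ℕ) (z : ℝ × ℝ) : s.f^[n] (pr z) = pr (s.F^[n] z) := by
  induction n generalizing z with
  | zero => rfl
  | succ n ih => rw [iterate_succ_apply, iterate_succ_apply, f_pr, ih]

lemma gA_mp : MeasurePreserving s.gA (volume : Measure UnitAddCircle) volume := by
  refine ⟨gA_cont.measurable, ?_⟩
  ext U hU
  rw [Measure.map_apply gA_cont.measurable hU]
  have h1 := s.f_mp.measure_preimage (hU.prod MeasurableSet.univ).nullMeasurableSet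
  have h2 : s.f ⁻¹' (U ×ˢ univ) = (s.gA ⁻¹' U) ×ˢ univ := by
    ext w
    simp [f_fst]
  rw [h2] at h1
  have h3 : ∀ W : Set UnitAddCircle, (volume : Measure T2) (W ×ˢ univ) = volume W := by
    intro W
    have : (volume : Measure T2) = (volume : Measure UnitAddCircle).prod volume := rfl
    rw [this, Measure.prod_prod]
    simp
  rw [h3, h3] at h1
  exact h1

variable (s) in
/-- the mean of `q` of the fibre measures of the `n`-th preimage -/
noncomputable def Dn (B : Set T2) (n : ℕ) : ℝ := ∫ a, q (lam (s.f^[n] ⁻¹' B) a)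

lemma meas_pre {B : Set T2} (hB : MeasurableSet B) (n : ℕ) : MeasurableSet (s.f^[n] ⁻¹' B) :=
  hB.preimage (s.f_cont.iterate n).measurable

lemma Dn_nonneg (B : Set T2) (n : ℕ) : 0 ≤ s.Dn B n :=
  integral_nonneg fun a => q_nonneg (lam_mem _ a)

lemma Dn_compl {B : Set T2} (hB : MeasurableSet B) (n : ℕ) : s.Dn Bᶜ n = s.Dn B n := by
  unfold Dn
  congr 1
  funext a
  rw [preimage_compl, lam_compl (meas_pre hB n)]
  unfold q
  ring

lemma Dn_union {A B : Set T2} (hA : MeasurableSet A) (hB : MeasurableSet B) (hd : Disjoint A B)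
    (n : ℕ) : s.Dn (A ∪ B) n ≤ s.Dn A n + s.Dn B n := by
  unfold Dn
  rw [← integral_add (qlam_int (meas_pre hA n)) (qlam_int (meas_pre hB n))]
  refine integral_mono (qlam_int (meas_pre (hA.union hB) n))
    ((qlam_int (meas_pre hA n)).add (qlam_int (meas_pre hB n))) fun a => ?_
  have h1 := lam_union (meas_pre (s := s) hB n) (hd.preimage (s.f^[n])) a
  simp only [preimage_union]
  rw [h1]
  have h2 := lam_mem (s.f^[n] ⁻¹' A) a
  have h3 := lam_mem (s.f^[n] ⁻¹' B) a
  unfold q
  nlinarith [mul_nonneg h2.1 h3.1]

lemma Dn_le {B : Set T2} (hB : MeasurableSet B) (n : ℕ) : s.Dn B n ≤ (volume B).toReal := by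
  have h1 : (volume B).toReal = (volume (s.f^[n] ⁻¹' B)).toReal := by
    rw [(s.f_mp.iterate n).measure_preimage hB.nullMeasurableSet]
  rw [h1, ← integral_lam (meas_pre hB n)]
  unfold Dn
  refine integral_mono (qlam_int (meas_pre hB n)) (lam_int (meas_pre hB n)) fun a => ?_
  have h2 := lam_mem (s.f^[n] ⁻¹' B) a
  unfold q
  nlinarith [mul_nonneg h2.1 h2.1]

lemma Dn_empty (n : ℕ) : s.Dn ∅ n = 0 := by
  unfold Dn lam
  simp [q]

/-- rectangles -/
lemma Fix.Dn_rect (hs : s.Fix) {U : Set UnitAddCircle} (hU : MeasurableSet U) {β : ℝ}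
    (hβ : β ∈ Icc (0 : ℝ) 1) (n : ℕ) : s.Dn (U ×ˢ (rep ⁻¹' Iic β)) n ≤ s.an β n := by
  have hm : MeasurableSet (U ×ˢ (rep ⁻¹' Iic β)) := hU.prod (rep_meas measurableSet_Iic)
  have h0 : s.an β n = ∫ a : UnitAddCircle, q (s.Hn n (rep a) β) := by
    unfold an
    rw [← UnitAddCircle.integral_preimage 0, zero_add, intervalIntegral.integral_of_le zero_le_one]
    refine setIntegral_congr_fun measurableSet_Ioc fun x hx => ?_
    simp only [rep_coe hx]
  rw [h0]
  unfold Dn
  have hmeas : Measurable fun a : UnitAddCircle => q (s.Hn n (rep a) β) :=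
    (q_cont.comp (Hn_cont n β)).measurable.comp rep_meas
  refine integral_mono (qlam_int (meas_pre hm n)) ?_ fun a => ?_
  · refine Integrable.mono' (integrable_const (1 / 4 : ℝ)) hmeas.aestronglyMeasurable ?_
    filter_upwards with a
    rw [Real.norm_eq_abs, abs_of_nonneg (q_nonneg (hs.Hn_mem n _ hβ))]
    exact q_le
  · by_cases ha : s.gA^[n] a ∈ U
    · apply le_of_eq
      show q (lam (s.f^[n] ⁻¹' (U ×ˢ (rep ⁻¹' Iic β))) a) = q (s.Hn n (rep a) β)
      congr 1
      unfold lam
      have h1 : Prod.mk a ⁻¹' (s.f^[n] ⁻¹' (U ×ˢ (rep ⁻¹' Iic β)))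
          = {b | rep (s.f^[n] (a, b)).2 ≤ β} := by
        ext b
        simp only [mem_preimage, mem_prod, f_iter_fst, ha, true_and, mem_Iic, mem_ofPred_eq]
      rw [h1]
      have h2 : MeasurableSet {b | rep (s.f^[n] (a, b)).2 ≤ β} := by
        rw [← h1]
        exact (meas_pre hm n).preimage measurable_prodMk_left
      have h3 := (UnitAddCircle.measurePreserving_mk 0).measure_preimage h2.nullMeasurableSet
      rw [← h3, Measure.restrict_apply (AddCircle.measurable_mk' h2), zero_add]
      have h4 : ((↑) : ℝ → UnitAddCircle) ⁻¹' {b | rep (s.f^[n] (a, b)).2 ≤ β} ∩ Ioc 0 1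
          = Ioc 0 (s.Hn n (rep a) β) := by
        ext y
        simp only [mem_inter_iff, mem_preimage, mem_ofPred_eq]
        have h5 : ((a, (y : UnitAddCircle)) : T2) = pr (rep a, y) := by
          simp [pr, coe_rep]
        rw [h5, f_iter_pr]
        constructor
        · rintro ⟨h6, h7⟩
          refine ⟨h7.1, ?_⟩
          rw [← iter_le_iff]
          have h8 : (s.F^[n] (rep a, y)).2 ∈ Ioc (0 : ℝ) 1 := by
            constructor
            · rw [← not_le, iter_le_iff, hs.Hn_zero]
              exact not_le.mpr h7.1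
            · rw [iter_le_iff, hs.Hn_one]
              exact h7.2
          simp only [pr] at h6
          rwa [rep_coe h8] at h6
        · intro h6
          have h7 : y ∈ Ioc (0 : ℝ) 1 := ⟨h6.1, h6.2.trans (hs.Hn_mem n _ hβ).2⟩
          refine ⟨?_, h7⟩
          have h8 : (s.F^[n] (rep a, y)).2 ∈ Ioc (0 : ℝ) 1 := by
            constructor
            · rw [← not_le, iter_le_iff, hs.Hn_zero]
              exact not_le.mpr h7.1
            · rw [iter_le_iff, hs.Hn_one]
              exact h7.2
          simp only [pr]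
          rw [rep_coe h8, iter_le_iff]
          exact h6.2
      rw [h4, Real.volume_Ioc, sub_zero, ENNReal.toReal_ofReal (hs.Hn_mem n _ hβ).1]
    · have h1 : Prod.mk a ⁻¹' (s.f^[n] ⁻¹' (U ×ˢ (rep ⁻¹' Iic β))) = ∅ := by
        ext b
        simp only [mem_preimage, mem_prod, f_iter_fst, ha, false_and, mem_empty_iff_false]
      show q (lam (s.f^[n] ⁻¹' (U ×ˢ (rep ⁻¹' Iic β))) a) ≤ q (s.Hn n (rep a) β)
      unfold lam
      rw [h1]
      simp only [measure_empty, ENNReal.toReal_zero]
      have : q 0 = 0 := by simp [q]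
      rw [this]
      exact q_nonneg (hs.Hn_mem n _ hβ)

/-- all fibre measures synchronise -/
theorem Fix.Dn_tendsto (hs : s.Fix) {B : Set T2} (hB : MeasurableSet B) :
    Tendsto (s.Dn B) atTop (𝓝 0) := by
  induction B, hB using MeasurableSpace.induction_on_inter
    (h_eq := T2_gen) (h_inter := MeasurableSpace.isPiSystem_measurableSet.prod DD_pi) with
  | empty =>
    refine tendsto_const_nhds.congr fun n => (Dn_empty n).symm
  | basic t ht =>
    obtain ⟨U, hU, _, ⟨_, ⟨β, rfl⟩, rfl⟩, rfl⟩ := ht
    have h1 : rep ⁻¹' Iic β = rep ⁻¹' Iic (max 0 (min β 1)) := by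
      ext a
      have := rep_mem a
      simp only [mem_preimage, mem_Iic, le_max_iff, le_min_iff]
      constructor
      · intro h
        exact Or.inr ⟨h, this.2⟩
      · rintro (h | h)
        · exact absurd this.1 (not_lt.mpr h)
        · exact h.1
    simp only [h1]
    have hβ : max 0 (min β 1) ∈ Icc (0 : ℝ) 1 :=
      ⟨le_max_left _ _, max_le zero_le_one (min_le_right _ _)⟩
    exact squeeze_zero (fun n => Dn_nonneg _ n) (fun n => hs.Dn_rect hU hβ n) (hs.an_tendsto hβ)
  | compl t ht ih =>
    exact ih.congr fun n => (Dn_compl ht n).symm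
  | iUnion f hd hf ih =>
    have hacc : ∀ J, MeasurableSet (accumulate f J) := fun J => by
      rw [accumulate_def]
      exact MeasurableSet.biUnion (to_countable _) fun i _ => hf i
    have h1 : ∀ J, Tendsto (s.Dn (accumulate f J)) atTop (𝓝 0) := by
      intro J
      induction J with
      | zero =>
        have : accumulate f 0 = f 0 := by simp
        rw [this]
        exact ih 0
      | succ J ihJ =>
        have h2 : accumulate f (J + 1) = accumulate f J ∪ f (J + 1) := by
          rw [accumulate_succ]
        have h3 : Disjoint (accumulate f J) (f (J + 1)) := by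
          rw [accumulate_def, disjoint_iUnion₂_left]
          intro i hi
          exact hd (by omega)
        rw [h2]
        have h4 := ihJ.add (ih (J + 1))
        rw [add_zero] at h4
        exact squeeze_zero (fun n => Dn_nonneg _ n) (fun n => Dn_union (hacc J) (hf _) h3 n) h4
    rw [Metric.tendsto_atTop]
    intro ε hε
    have h5 : Tendsto (fun J => (volume ((⋃ i, f i) \ accumulate f J)).toReal) atTop (𝓝 0) := by
      have h6 : Tendsto (fun J => volume (accumulate f J)) atTop (𝓝 (volume (⋃ i, f i))) :=
        tendsto_measure_iUnion_accumulate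
      have h7 : ∀ J, (volume ((⋃ i, f i) \ accumulate f J)).toReal
          = (volume (⋃ i, f i)).toReal - (volume (accumulate f J)).toReal := by
        intro J
        have hsub : accumulate f J ⊆ ⋃ i, f i := accumulate_subset_iUnion J
        rw [measure_sdiff hsub (hacc J).nullMeasurableSet (measure_ne_top _ _),
          ENNReal.toReal_sub_of_le (measure_mono hsub) (measure_ne_top _ _)]
      have h8 := (ENNReal.tendsto_toReal (measure_ne_top volume (⋃ i, f i))).comp h6
      have h9 := (tendsto_const_nhds (x := (volume (⋃ i, f i)).toReal)).sub h8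
      rw [sub_self] at h9
      exact h9.congr fun J => (h7 J).symm
    obtain ⟨J, hJ⟩ := (h5.eventually (gt_mem_nhds (half_pos hε))).exists
    obtain ⟨N, hN⟩ := eventually_atTop.mp ((h1 J).eventually (gt_mem_nhds (half_pos hε)))
    refine ⟨N, fun n hn => ?_⟩
    rw [Real.dist_eq, sub_zero, abs_of_nonneg (Dn_nonneg _ n)]
    have h10 : (⋃ i, f i) = accumulate f J ∪ ((⋃ i, f i) \ accumulate f J) :=
      (union_sdiff_cancel (accumulate_subset_iUnion J)).symm
    have hm : MeasurableSet ((⋃ i, f i) \ accumulate f J) :=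
      (MeasurableSet.iUnion hf).diff (hacc J)
    have h11 := Dn_union (s := s) (hacc J) hm disjoint_sdiff_right n
    rw [← h10] at h11
    have h12 := Dn_le (s := s) hm n
    have h13 := hN n hn
    linarith

/-- **Ergodicity** of a synchronising skew product over an ergodic base. -/
theorem Fix.ergodic (hs : s.Fix) (hg : Ergodic s.gA (volume : Measure UnitAddCircle)) :
    Ergodic s.f (volume : Measure T2) := by
  refine ⟨s.f_mp, ⟨fun B hB hinv => ?_⟩⟩
  have hit : ∀ n, s.f^[n] ⁻¹' B = B := by
    intro n
    induction n with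
    | zero => rfl
    | succ n ih => rw [iterate_succ, preimage_comp, ih, hinv]
  have h1 : ∫ a, q (lam B a) = 0 := by
    have h2 := hs.Dn_tendsto hB
    have h3 : s.Dn B = fun _ => ∫ a, q (lam B a) := by
      funext n
      unfold Dn
      rw [hit]
    rw [h3] at h2
    exact tendsto_nhds_unique tendsto_const_nhds h2
  have h2 : ∀ᵐ a, q (lam B a) = 0 := by
    rw [integral_eq_zero_iff_of_nonneg (fun a => q_nonneg (lam_mem B a)) (qlam_int hB)] at h1
    exact h1
  set W : Set UnitAddCircle := {a | lam B a = 1} with hW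
  have hWm : MeasurableSet W := (lam_meas hB) (measurableSet_singleton 1)
  have h3 : ∀ᵐ a, volume (Prod.mk a ⁻¹' B) = W.indicator 1 a := by
    filter_upwards [h2] with a ha
    by_cases haW : a ∈ W
    · rw [indicator_of_mem haW]
      have h4 : lam B a = 1 := haW
      unfold lam at h4
      rw [ENNReal.toReal_eq_one_iff] at h4
      exact h4
    · rw [indicator_of_notMem haW]
      have h4 : lam B a ≠ 1 := haW
      unfold q at ha
      have h5 : lam B a = 0 := by
        rcases mul_eq_zero.mp ha with h | h
        · exact h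
        · exact absurd (by linarith) h4
      unfold lam at h5
      rw [ENNReal.toReal_eq_zero_iff] at h5
      exact h5.resolve_right (measure_ne_top _ _)
  -- the marginal measure
  set ν : Measure UnitAddCircle := Measure.map Prod.fst ((volume : Measure T2).restrict B) with hν
  have hνap : ∀ U, MeasurableSet U → ν U = volume (W ∩ U) := by
    intro U hU
    rw [hν, Measure.map_apply measurable_fst hU, Measure.restrict_apply (measurable_fst hU)]
    have h4 : (volume : Measure T2) = (volume : Measure UnitAddCircle).prod volume := rfl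
    rw [h4, Measure.prod_apply ((measurable_fst hU).inter hB)]
    have h5 : ∀ᵐ a, volume (Prod.mk a ⁻¹' (Prod.fst ⁻¹' U ∩ B)) = (W ∩ U).indicator 1 a := by
      filter_upwards [h3] with a ha
      by_cases haU : a ∈ U
      · have h6 : Prod.mk a ⁻¹' (Prod.fst ⁻¹' U ∩ B) = Prod.mk a ⁻¹' B := by
          ext b; simp [haU]
        rw [h6, ha]
        by_cases haW : a ∈ W <;> simp [haW, haU]
      · have h6 : Prod.mk a ⁻¹' (Prod.fst ⁻¹' U ∩ B) = ∅ := by
          ext b; simp [haU]
        rw [h6]
        simp [haU]
    rw [lintegral_congr_ae h5, lintegral_indicator_one (hWm.inter hU)]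
  have hνfin : IsFiniteMeasure ν := by
    rw [hν]
    exact Measure.isFiniteMeasure_map _ _
  have hac : ν ≪ volume := by
    refine Measure.AbsolutelyContinuous.mk fun U hU h0 => ?_
    rw [hνap U hU]
    exact measure_mono_null inter_subset_right h0
  have hνmp : MeasurePreserving s.gA ν ν := by
    refine ⟨gA_cont.measurable, ?_⟩
    ext U hU
    rw [Measure.map_apply gA_cont.measurable hU, hν,
      Measure.map_apply measurable_fst (gA_cont.measurable hU), Measure.map_apply measurable_fst hU,
      Measure.restrict_apply (measurable_fst (gA_cont.measurable hU)),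
      Measure.restrict_apply (measurable_fst hU)]
    have h4 : Prod.fst ⁻¹' (s.gA ⁻¹' U) ∩ B = s.f ⁻¹' (Prod.fst ⁻¹' U ∩ B) := by
      rw [preimage_inter, hinv]
      ext w
      simp [f_fst]
    rw [h4]
    exact s.f_mp.measure_preimage ((measurable_fst hU).inter hB).nullMeasurableSet
  obtain ⟨c, hc⟩ := hg.eq_smul_of_absolutelyContinuous hνmp hac
  have h6 : volume W = c := by
    have h7 := hνap univ MeasurableSet.univ
    rw [hc] at h7
    simp at h7
    exact h7.symm
  have h7 : volume W = c * volume W := by
    have h8 := hνap W hWm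
    rw [hc] at h8
    simp at h8
    exact h8.symm
  rw [← h6] at h7
  have h8 : volume B = volume W := by
    have h9 := hνap univ MeasurableSet.univ
    rw [inter_univ] at h9
    rw [← h9, hν, Measure.map_apply measurable_fst MeasurableSet.univ]
    simp
  have h10 : volume W = 0 ∨ volume W = 1 := by
    by_cases h0 : volume W = 0
    · exact Or.inl h0
    · right
      have h11 : volume W * 1 = volume W * volume W := by rw [mul_one]; exact h7
      exact ((ENNReal.mul_right_inj h0 (measure_ne_top _ _)).mp h11).symm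
  rw [eventuallyConst_set]
  rcases h10 with h | h
  · right
    rw [← h8] at h
    exact measure_eq_zero_iff_ae_notMem.1 h
  · left
    rw [← h8] at h
    exact (prob_compl_eq_zero_iff hB).mpr h

end Sk

end Pool.Agent.H165R3
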