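import Pool.Agent.H165R3.Erg
import Pool.Agent.H165R3.Birk

/-!
# Lyapunov exponents of the skew products
-/

set_option autoImplicit false

open Set Filter Topology MeasureTheory Function
open scoped ContDiff ENNReal

namespace Pool.Agent.H165R3

lemma mk_qmp : Measure.QuasiMeasurePreserving ((↑) : ℝ → UnitAddCircle) volume volume := by
  refine ⟨AddCircle.measurable_mk', ?_⟩
  refine Measure.AbsolutelyContinuous.mk fun U hU h0 => ?_
  rw [Measure.map_apply AddCircle.measurable_mk' hU]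
  have h1 : ((↑) : ℝ → UnitAddCircle) ⁻¹' U
      ⊆ ⋃ n : ℤ, (((↑) : ℝ → UnitAddCircle) ⁻¹' U ∩ Ioc (n : ℝ) (n + 1)) := by
    intro x hx
    rw [mem_iUnion]
    refine ⟨⌈x⌉ - 1, hx, ?_, ?_⟩
    · push_cast
      linarith [Int.ceil_lt_add_one x]
    · push_cast
      linarith [Int.le_ceil x]
  refine measure_mono_null h1 (measure_iUnion_null fun n => ?_)
  have h2 := (UnitAddCircle.measurePreserving_mk n).measure_preimage hU.nullMeasurableSet
  rw [Measure.restrict_apply (AddCircle.measurable_mk' hU), h0] at h2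
  exact h2

lemma pr_qmp : Measure.QuasiMeasurePreserving pr (volume : Measure (ℝ × ℝ)) (volume : Measure T2) := by
  have : Measure.QuasiMeasurePreserving (Prod.map ((↑) : ℝ → UnitAddCircle) ((↑) : ℝ → UnitAddCircle))
      ((volume : Measure ℝ).prod volume) ((volume : Measure UnitAddCircle).prod volume) :=
    MeasureTheory.QuasiMeasurePreserving.prodMap mk_qmp mk_qmp
  exact this

/-- bounds from convergence of averages -/
lemma avg_bound {S : ℕ → ℝ} {L : ℝ} (h : Tendsto (fun n : ℕ => (n : ℝ)⁻¹ * S n) atTop (𝓝 L))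
    {ε : ℝ} (hε : 0 < ε) : ∃ K : ℝ, 0 ≤ K ∧ ∀ n : ℕ, |S n - n * L| ≤ n * ε + K := by
  rw [Metric.tendsto_atTop] at h
  obtain ⟨N, hN⟩ := h ε hε
  refine ⟨∑ n ∈ Finset.range (N + 1), |S n - n * L|, Finset.sum_nonneg fun _ _ => abs_nonneg _,
    fun n => ?_⟩
  by_cases hn : n < N + 1
  · have h1 : |S n - n * L| ≤ ∑ n ∈ Finset.range (N + 1), |S n - n * L| :=
      Finset.single_le_sum (f := fun n => |S n - n * L|) (fun _ _ => abs_nonneg _)
        (Finset.mem_range.mpr hn)
    have : 0 ≤ (n : ℝ) * ε := by positivity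
    linarith
  · have hn' : N ≤ n := by omega
    have hpos : (0 : ℝ) < n := by
      have : 0 < n := by omega
      exact_mod_cast this
    have h1 := hN n hn'
    rw [Real.dist_eq] at h1
    have h2 : S n - n * L = n * ((n : ℝ)⁻¹ * S n - L) := by
      field_simp
    rw [h2, abs_mul, abs_of_pos hpos]
    have h3 : 0 ≤ ∑ n ∈ Finset.range (N + 1), |S n - n * L| :=
      Finset.sum_nonneg fun _ _ => abs_nonneg _
    nlinarith

lemma seq_limit {SA SB cc Nn : ℕ → ℝ} {L1 L2 C : ℝ} (hC : 0 ≤ C)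
    (hA : Tendsto (fun n : ℕ => (n : ℝ)⁻¹ * SA n) atTop (𝓝 L2))
    (hB : Tendsto (fun n : ℕ => (n : ℝ)⁻¹ * SB n) atTop (𝓝 L1))
    (hcc : ∀ n, |cc n| ≤ Real.exp (SB n) * ∑ k ∈ Finset.range n, C * Real.exp (SA k - SB (k + 1)))
    (hlt : (∀ n, cc n = 0) ∨ L1 < L2)
    (hlowA : ∀ n, Real.exp (SA n) ≤ Nn n) (hlowB : ∀ n, Real.exp (SB n) ≤ Nn n)
    (hup : ∀ n, Nn n ≤ Real.exp (SA n) + |cc n| + Real.exp (SB n)) :
    Tendsto (fun n : ℕ => (1 / (n : ℝ)) * Real.log (Nn n)) atTop (𝓝 (max L1 L2)) := by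
  have hpos : ∀ n, 0 < Nn n := fun n => (Real.exp_pos _).trans_le (hlowA n)
  have hup2 : ∀ ε : ℝ, 0 < ε → ∃ K : ℝ, ∀ n : ℕ, Real.log (Nn n) ≤ n * (max L1 L2 + 4 * ε) + K := by
    intro ε hε
    obtain ⟨KA, hKA, bA⟩ := avg_bound hA hε
    obtain ⟨KB, hKB, bB⟩ := avg_bound hB hε
    have hA' : ∀ n : ℕ, Real.exp (SA n) ≤ Real.exp (n * (max L1 L2 + 3 * ε) + KA) := by
      intro n
      apply Real.exp_le_exp.mpr
      have h1 := (abs_le.mp (bA n)).2
      have h2 : (n : ℝ) * L2 ≤ n * max L1 L2 :=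
        mul_le_mul_of_nonneg_left (le_max_right _ _) (Nat.cast_nonneg n)
      have h3 : 0 ≤ (n : ℝ) * ε := by positivity
      nlinarith
    have hB' : ∀ n : ℕ, Real.exp (SB n) ≤ Real.exp (n * (max L1 L2 + 3 * ε) + KB) := by
      intro n
      apply Real.exp_le_exp.mpr
      have h1 := (abs_le.mp (bB n)).2
      have h2 : (n : ℝ) * L1 ≤ n * max L1 L2 :=
        mul_le_mul_of_nonneg_left (le_max_left _ _) (Nat.cast_nonneg n)
      have h3 : 0 ≤ (n : ℝ) * ε := by positivity
      nlinarith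
    have hcb : ∃ K : ℝ, ∀ n : ℕ, |cc n| ≤ C * n * Real.exp (n * (max L1 L2 + 3 * ε) + K) := by
      rcases hlt with h0 | hlt
      · refine ⟨0, fun n => ?_⟩
        rw [h0 n, abs_zero]
        positivity
      · refine ⟨KA + KB + KB + ε + |L1|, fun n => ?_⟩
        refine (hcc n).trans ?_
        have h1 : ∀ k ∈ Finset.range n, C * Real.exp (SA k - SB (k + 1))
            ≤ C * Real.exp (n * (L2 - L1 + 2 * ε) + (KA + KB + ε + |L1|)) := by
          intro k hk
          refine mul_le_mul_of_nonneg_left (Real.exp_le_exp.mpr ?_) hC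
          have h2 := (abs_le.mp (bA k)).2
          have h3 := (abs_le.mp (bB (k + 1))).1
          push_cast at h3
          have h4 : (k : ℝ) * (L2 - L1 + 2 * ε) ≤ n * (L2 - L1 + 2 * ε) := by
            apply mul_le_mul_of_nonneg_right _ (by linarith)
            exact_mod_cast (Finset.mem_range.mp hk).le
          have h5 := neg_abs_le L1
          nlinarith
        have h2 : ∑ k ∈ Finset.range n, C * Real.exp (SA k - SB (k + 1))
            ≤ n * (C * Real.exp (n * (L2 - L1 + 2 * ε) + (KA + KB + ε + |L1|))) := by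
          refine (Finset.sum_le_sum h1).trans ?_
          rw [Finset.sum_const, Finset.card_range, nsmul_eq_mul]
        have h3 : Real.exp (SB n) ≤ Real.exp (n * (L1 + ε) + KB) := by
          apply Real.exp_le_exp.mpr
          have := (abs_le.mp (bB n)).2
          linarith
        calc Real.exp (SB n) * ∑ k ∈ Finset.range n, C * Real.exp (SA k - SB (k + 1))
            ≤ Real.exp (n * (L1 + ε) + KB)
              * (n * (C * Real.exp (n * (L2 - L1 + 2 * ε) + (KA + KB + ε + |L1|)))) :=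
              mul_le_mul h3 h2 (Finset.sum_nonneg fun _ _ => by positivity) (Real.exp_pos _).le
          _ = C * n * (Real.exp (n * (L1 + ε) + KB)
              * Real.exp (n * (L2 - L1 + 2 * ε) + (KA + KB + ε + |L1|))) := by ring
          _ = C * n * Real.exp (n * (L2 + 3 * ε) + (KA + KB + KB + ε + |L1|)) := by
              rw [← Real.exp_add]
              congr 2
              ring
          _ ≤ C * n * Real.exp (n * (max L1 L2 + 3 * ε) + (KA + KB + KB + ε + |L1|)) := by
              refine mul_le_mul_of_nonneg_left (Real.exp_le_exp.mpr ?_) (by positivity)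
              have : (n : ℝ) * L2 ≤ n * max L1 L2 :=
                mul_le_mul_of_nonneg_left (le_max_right _ _) (Nat.cast_nonneg n)
              nlinarith
    obtain ⟨Kc, hKc⟩ := hcb
    set K := max KA (max KB Kc) with hK
    refine ⟨K + Real.log (2 + C / ε), fun n => ?_⟩
    have e1 : Real.exp (SA n) ≤ Real.exp (n * (max L1 L2 + 3 * ε) + K) :=
      (hA' n).trans (Real.exp_le_exp.mpr (by linarith [le_max_left KA (max KB Kc)]))
    have e2 : Real.exp (SB n) ≤ Real.exp (n * (max L1 L2 + 3 * ε) + K) :=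
      (hB' n).trans (Real.exp_le_exp.mpr (by
        linarith [(le_max_left KB Kc).trans (le_max_right KA (max KB Kc))]))
    have e3 : |cc n| ≤ C * n * Real.exp (n * (max L1 L2 + 3 * ε) + K) :=
      (hKc n).trans (mul_le_mul_of_nonneg_left (Real.exp_le_exp.mpr (by
        linarith [(le_max_right KB Kc).trans (le_max_right KA (max KB Kc))])) (by positivity))
    have e4 : Nn n ≤ (2 + C / ε) * Real.exp (n * ε) * Real.exp (n * (max L1 L2 + 3 * ε) + K) := by
      have h5 : 2 + C * n ≤ (2 + C / ε) * Real.exp (n * ε) := by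
        have h6 := Real.add_one_le_exp (n * ε)
        have h7 : (2 + C / ε) * (n * ε + 1) ≤ (2 + C / ε) * Real.exp (n * ε) :=
          mul_le_mul_of_nonneg_left h6 (by positivity)
        have h8 : (2 + C / ε) * (n * ε + 1) = 2 + C * n + (2 * (n * ε) + C / ε) := by
          field_simp
          ring
        have h9 : 0 ≤ 2 * (n * ε) + C / ε := by positivity
        linarith
      calc Nn n ≤ Real.exp (SA n) + |cc n| + Real.exp (SB n) := hup n
        _ ≤ (2 + C * n) * Real.exp (n * (max L1 L2 + 3 * ε) + K) := by nlinarith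
        _ ≤ _ := mul_le_mul_of_nonneg_right h5 (Real.exp_pos _).le
    have e5 := Real.log_le_log (hpos n) e4
    rw [Real.log_mul (by positivity) (by positivity), Real.log_mul (by positivity) (by positivity),
      Real.log_exp, Real.log_exp] at e5
    nlinarith
  rw [Metric.tendsto_atTop]
  intro ε hε
  obtain ⟨K, hK⟩ := hup2 (ε / 8) (by positivity)
  have h1 : ∀ᶠ n : ℕ in atTop, max L1 L2 - ε < (1 / (n : ℝ)) * Real.log (Nn n) := by
    have hA2 := hA.eventually (lt_mem_nhds (show L2 - ε < L2 by linarith))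
    have hB2 := hB.eventually (lt_mem_nhds (show L1 - ε < L1 by linarith))
    filter_upwards [hA2, hB2, eventually_gt_atTop 0] with n h1 h2 hn
    have hn' : (0 : ℝ) < n := by exact_mod_cast hn
    have h3 : SA n ≤ Real.log (Nn n) := by
      rw [Real.le_log_iff_exp_le (hpos n)]; exact hlowA n
    have h4 : SB n ≤ Real.log (Nn n) := by
      rw [Real.le_log_iff_exp_le (hpos n)]; exact hlowB n
    have h5 : (n : ℝ)⁻¹ * SA n ≤ 1 / n * Real.log (Nn n) := by
      rw [one_div]; exact mul_le_mul_of_nonneg_left h3 (by positivity)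
    have h6 : (n : ℝ)⁻¹ * SB n ≤ 1 / n * Real.log (Nn n) := by
      rw [one_div]; exact mul_le_mul_of_nonneg_left h4 (by positivity)
    rcases max_cases L1 L2 with ⟨h, -⟩ | ⟨h, -⟩ <;> rw [h] <;> linarith
  have h2 : ∀ᶠ n : ℕ in atTop, (1 / (n : ℝ)) * Real.log (Nn n) < max L1 L2 + ε := by
    obtain ⟨M, hM⟩ := exists_nat_gt (2 * |K| / ε)
    filter_upwards [eventually_gt_atTop M] with n hn
    have hn' : (M : ℝ) < n := by exact_mod_cast hn
    have hn0 : (0 : ℝ) < n := lt_of_le_of_lt (Nat.cast_nonneg M) hn'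
    have h3 := hK n
    rw [one_div, inv_mul_lt_iff₀ hn0]
    have h4 : 2 * |K| < n * ε := by
      rw [div_lt_iff₀ hε] at hM
      nlinarith
    have h5 := le_abs_self K
    nlinarith
  obtain ⟨N, hN⟩ := eventually_atTop.mp (h1.and h2)
  refine ⟨N, fun n hn => ?_⟩
  rw [Real.dist_eq, abs_lt]
  have := hN n hn
  constructor <;> linarith [this.1, this.2]

namespace Sk

variable (s : Sk)

/-- product of the first diagonal entries -/
noncomputable def aN (n : ℕ) (z : ℝ × ℝ) : ℝ := ∏ k ∈ Finset.range n, s.a (s.F^[k] z)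
/-- product of the second diagonal entries -/
noncomputable def bN (n : ℕ) (z : ℝ × ℝ) : ℝ := ∏ k ∈ Finset.range n, s.b (s.F^[k] z)
/-- off-diagonal entry of the iterates -/
noncomputable def cN : ℕ → ℝ × ℝ → ℝ
  | 0, _ => 0
  | n + 1, z => s.c (s.F^[n] z) * s.aN n z + s.b (s.F^[n] z) * cN n z

lemma F_iter_fderiv (n : ℕ) (z : ℝ × ℝ) :
    HasFDerivAt (s.F^[n]) (tri (s.aN n z) (s.cN n z) (s.bN n z)) z := by
  induction n with
  | zero =>
    have h : tri (s.aN 0 z) (s.cN 0 z) (s.bN 0 z) = ContinuousLinearMap.id ℝ (ℝ × ℝ) := by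
      apply ContinuousLinearMap.ext
      intro w
      simp [aN, bN, cN]
    rw [h]
    exact hasFDerivAt_id z
  | succ n ih =>
    rw [iterate_succ']
    have h1 := (s.F_hasFDerivAt (s.F^[n] z)).comp z ih
    rw [tri_comp] at h1
    have h2 : s.aN (n + 1) z = s.a (s.F^[n] z) * s.aN n z := by
      unfold aN; rw [Finset.prod_range_succ, mul_comm]
    have h3 : s.bN (n + 1) z = s.b (s.F^[n] z) * s.bN n z := by
      unfold bN; rw [Finset.prod_range_succ, mul_comm]
    have h4 : s.cN (n + 1) z = s.c (s.F^[n] z) * s.aN n z + s.b (s.F^[n] z) * s.cN n z := rfl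
    rw [h2, h3, h4]
    exact h1

lemma aN_exp (n : ℕ) (z : ℝ × ℝ) :
    s.aN n z = Real.exp (∑ k ∈ Finset.range n, Real.log (s.a (s.F^[k] z))) := by
  unfold aN
  rw [Real.exp_sum]
  exact Finset.prod_congr rfl fun k _ => (Real.exp_log (s.a_pos _)).symm

lemma bN_exp (n : ℕ) (z : ℝ × ℝ) :
    s.bN n z = Real.exp (∑ k ∈ Finset.range n, Real.log (s.b (s.F^[k] z))) := by
  unfold bN
  rw [Real.exp_sum]
  exact Finset.prod_congr rfl fun k _ => (Real.exp_log (s.b_pos _)).symm

lemma a_per1 (x y : ℝ) : s.a (x + 1, y) = s.a (x, y) := by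
  unfold a
  rw [F_add_one_left]
  simp only [s.p_add_d]

lemma a_per2 (x y : ℝ) : s.a (x, y + 1) = s.a (x, y) := by
  unfold a
  rw [F_add_one_right]

lemma b_per1 (x y : ℝ) : s.b (x + 1, y) = s.b (x, y) := by
  unfold b
  rw [F_add_one_left, s.kappa_add_d]

lemma b_per2 (x y : ℝ) : s.b (x, y + 1) = s.b (x, y) := by
  unfold b
  rw [F_add_one_right, s.kappa_add_m]

lemma kx_add_d (x y : ℝ) : s.kx (x + s.d, y) = s.kx (x, y) := by
  unfold kx
  have h : s.k = fun z => s.k (z + ((s.d : ℝ), (0 : ℝ))) := by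
    funext ⟨u, v⟩
    simp [s.hkd]
  conv_rhs => rw [h]
  rw [fderiv_comp_add_right]
  simp

lemma kx_add_m (x y : ℝ) : s.kx (x, y + s.m) = s.kx (x, y) := by
  unfold kx
  have h : (fun z => s.k z + 1) = fun z => s.k (z + ((0 : ℝ), (s.m : ℝ))) := by
    funext ⟨u, v⟩
    simp [s.hkm]
  have h2 : fderiv ℝ (fun z => s.k z + 1) (x, y) = fderiv ℝ s.k (x, y) := by
    rw [fderiv_add_const]
  rw [← h2, h, fderiv_comp_add_right]
  simp

lemma c_per1 (x y : ℝ) : s.c (x + 1, y) = s.c (x, y) := by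
  unfold c
  rw [F_add_one_left, s.kappa_add_d, s.kx_add_d]
  simp only [s.p_add_d]

lemma c_per2 (x y : ℝ) : s.c (x, y + 1) = s.c (x, y) := by
  unfold c
  rw [F_add_one_right, s.kappa_add_m, s.kx_add_m]

/-- a continuous doubly periodic function is bounded -/
lemma per_bdd {u : ℝ × ℝ → ℝ} (hu : Continuous u) (h1 : ∀ x y, u (x + 1, y) = u (x, y))
    (h2 : ∀ x y, u (x, y + 1) = u (x, y)) : ∃ C, 0 ≤ C ∧ ∀ z, |u z| ≤ C := by
  have h3 := tl_cont hu h1 h2
  obtain ⟨C, hC⟩ := (isCompact_range h3).isBounded.exists_norm_le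
  refine ⟨|C|, abs_nonneg _, fun z => ?_⟩
  have h4 := hC (tl u (pr z)) ⟨_, rfl⟩
  rw [tl_pr h1 h2] at h4
  exact h4.trans (le_abs_self C)

lemma cN_bound {C : ℝ} (hC : ∀ z, |s.c z| ≤ C) (n : ℕ) (z : ℝ × ℝ) :
    |s.cN n z| ≤ s.bN n z * ∑ k ∈ Finset.range n, C * (s.aN k z / s.bN (k + 1) z) := by
  have hbN : ∀ n z, 0 < s.bN n z := fun n z => Finset.prod_pos fun _ _ => s.b_pos _
  have haN : ∀ n z, 0 < s.aN n z := fun n z => Finset.prod_pos fun _ _ => s.a_pos _
  induction n with
  | zero => simp [cN]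
  | succ n ih =>
    have h3 : s.bN (n + 1) z = s.b (s.F^[n] z) * s.bN n z := by
      unfold bN; rw [Finset.prod_range_succ, mul_comm]
    have h4 : s.cN (n + 1) z = s.c (s.F^[n] z) * s.aN n z + s.b (s.F^[n] z) * s.cN n z := rfl
    rw [h4, Finset.sum_range_succ, mul_add]
    have h5 : s.bN (n + 1) z * (C * (s.aN n z / s.bN (n + 1) z)) = C * s.aN n z := by
      have := (hbN (n + 1) z).ne'
      field_simp
    rw [h5, h3]
    refine (abs_add_le _ _).trans ?_
    rw [abs_mul, abs_mul, abs_of_pos (s.b_pos _), abs_of_pos (haN n z)]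
    have h6 : |s.c (s.F^[n] z)| * s.aN n z ≤ C * s.aN n z :=
      mul_le_mul_of_nonneg_right (hC _) (haN n z).le
    have h7 := mul_le_mul_of_nonneg_left ih (s.b_pos (s.F^[n] z)).le
    linarith

lemma tri_norm_ge_a (a c b : ℝ) : |a| ≤ ‖tri a c b‖ := by
  have h := (tri a c b).le_opNorm (1, 0)
  have h1 : ‖((1 : ℝ), (0 : ℝ))‖ = 1 := by simp [Prod.norm_def]
  rw [h1, mul_one] at h
  refine le_trans ?_ h
  simp [Prod.norm_def]

lemma tri_norm_ge_b (a c b : ℝ) : |b| ≤ ‖tri a c b‖ := by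
  have h := (tri a c b).le_opNorm (0, 1)
  have h1 : ‖((0 : ℝ), (1 : ℝ))‖ = 1 := by simp [Prod.norm_def]
  rw [h1, mul_one] at h
  refine le_trans ?_ h
  simp [Prod.norm_def]

lemma tri_norm_le (a c b : ℝ) : ‖tri a c b‖ ≤ |a| + |c| + |b| := by
  refine ContinuousLinearMap.opNorm_le_bound _ (by positivity) fun z => ?_
  rw [tri_apply, Prod.norm_def]
  have h1 : |z.1| ≤ ‖z‖ := by rw [Prod.norm_def]; exact le_max_left _ _
  have h2 : |z.2| ≤ ‖z‖ := by rw [Prod.norm_def]; exact le_max_right _ _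
  simp only [Real.norm_eq_abs]
  apply max_le
  · rw [abs_mul]
    nlinarith [abs_nonneg a, abs_nonneg c, abs_nonneg b, norm_nonneg z]
  · refine (abs_add_le _ _).trans ?_
    rw [abs_mul, abs_mul]
    nlinarith [abs_nonneg a, abs_nonneg c, abs_nonneg b, norm_nonneg z]

/-- the base exponent -/
noncomputable def L2 : ℝ := ∫ x in (0 : ℝ)..1, ∫ y in (0 : ℝ)..1, Real.log (s.a (x, y))
/-- the fibre exponent -/
noncomputable def L1 : ℝ := ∫ x in (0 : ℝ)..1, ∫ y in (0 : ℝ)..1, Real.log (s.b (x, y))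

lemma birk_plane {s : Sk} (he : Ergodic s.f (volume : Measure T2)) {u : ℝ × ℝ → ℝ}
    (hu : Continuous u) (h1 : ∀ x y, u (x + 1, y) = u (x, y))
    (h2 : ∀ x y, u (x, y + 1) = u (x, y)) :
    ∀ᵐ z ∂(volume : Measure (ℝ × ℝ)), Tendsto (fun n : ℕ => (n : ℝ)⁻¹ *
      ∑ k ∈ Finset.range n, u (s.F^[k] z)) atTop
      (𝓝 (∫ x in (0 : ℝ)..1, ∫ y in (0 : ℝ)..1, u (x, y))) := by
  have hc := tl_cont hu h1 h2
  obtain ⟨C, -, hC⟩ := per_bdd hu h1 h2
  have h3 := birkhoff he (tl u) hc.measurable ⟨C, fun w => hC _⟩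
  rw [integral_T2 _ hc] at h3
  have h4 := pr_qmp.ae h3
  filter_upwards [h4] with z hz
  simp only [f_iter_pr, tl_pr h1 h2] at hz
  exact hz

/-- **Lyapunov exponents** -/
theorem exps {s : Sk} (he : Ergodic s.f (volume : Measure T2))
    (hlt : (∀ z, s.c z = 0) ∨ s.L1 < s.L2) :
    ∀ᵐ z ∂(volume : Measure (ℝ × ℝ)),
      Tendsto (fun n : ℕ => (1 / (n : ℝ)) * Real.log ‖tri (s.aN n z) (s.cN n z) (s.bN n z)‖)
        atTop (𝓝 (max s.L1 s.L2)) ∧
      Tendsto (fun n : ℕ => (1 / (n : ℝ)) * Real.log |s.aN n z * s.bN n z|)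
        atTop (𝓝 (s.L1 + s.L2)) := by
  have hA := birk_plane he (u := fun z => Real.log (s.a z))
    (s.a_cont.log fun z => (s.a_pos z).ne') (fun x y => by rw [s.a_per1])
    (fun x y => by rw [s.a_per2])
  have hB := birk_plane he (u := fun z => Real.log (s.b z))
    (s.b_cont.log fun z => (s.b_pos z).ne') (fun x y => by rw [s.b_per1])
    (fun x y => by rw [s.b_per2])
  obtain ⟨C, hC0, hC⟩ := per_bdd s.c_cont s.c_per1 s.c_per2
  filter_upwards [hA, hB] with z hzA hzB
  constructor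
  · refine seq_limit (SA := fun n => ∑ k ∈ Finset.range n, Real.log (s.a (s.F^[k] z)))
      (SB := fun n => ∑ k ∈ Finset.range n, Real.log (s.b (s.F^[k] z)))
      (cc := fun n => s.cN n z) hC0 hzA hzB ?_ ?_ ?_ ?_ ?_
    · intro n
      have h := s.cN_bound hC n z
      rw [bN_exp] at h
      refine h.trans (le_of_eq ?_)
      congr 1
      refine Finset.sum_congr rfl fun k _ => ?_
      rw [aN_exp, bN_exp, ← Real.exp_sub]
    · rcases hlt with h | h
      · left
        intro n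
        induction n with
        | zero => rfl
        | succ n ih =>
          simp only [cN, h, zero_mul, zero_add]
          rw [ih, mul_zero]
      · exact Or.inr h
    · intro n
      rw [← aN_exp]
      exact (le_abs_self _).trans (tri_norm_ge_a _ _ _)
    · intro n
      rw [← bN_exp]
      exact (le_abs_self _).trans (tri_norm_ge_b _ _ _)
    · intro n
      rw [← aN_exp, ← bN_exp]
      have h1 : 0 < s.aN n z := Finset.prod_pos fun _ _ => s.a_pos _
      have h2 : 0 < s.bN n z := Finset.prod_pos fun _ _ => s.b_pos _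
      have h3 := tri_norm_le (s.aN n z) (s.cN n z) (s.bN n z)
      rw [abs_of_pos h1, abs_of_pos h2] at h3
      exact h3
  · have h1 := hzB.add hzA
    refine h1.congr fun n => ?_
    rw [aN_exp, bN_exp, ← Real.exp_add, abs_of_pos (Real.exp_pos _), Real.log_exp, one_div]
    ring

end Sk

end Pool.Agent.H165R3
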