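import Pool.Agent.H165R3.Chi

/-!
# The family of synchronising skew products
-/

set_option autoImplicit false

open Set Filter Topology MeasureTheory Function
open scoped ContDiff ENNReal

namespace Pool.Agent.H165R3

namespace Sg

variable (r : Sg)

lemma σ_mono_nat (x : ℝ) (i j : ℕ) (hij : i ≤ j) :
    r.σ (x + i) + (j - i : ℕ) * r.δ ≤ r.σ (x + j) := by
  induction j, hij using Nat.le_induction with
  | base => simp
  | succ j hij ih =>
    have h1 := r.hlow (x + j)
    have h2 : (j + 1 - i : ℕ) = (j - i : ℕ) + 1 := by omega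
    rw [h2]
    push_cast
    rw [← add_assoc]
    linarith

lemma p_le_one (x : ℝ) : r.p x ≤ 1 := by
  have h1 := r.σ_mono_nat x 1 r.d (by have := r.hd; omega)
  have h2 := r.hσd x
  unfold p
  push_cast at h1
  have h3 : 0 ≤ ((r.d - 1 : ℕ) : ℝ) * r.δ := by have := r.hδ; positivity
  rw [h2] at h1
  linarith

/-- the sharp density -/
noncomputable def D1 (η : ℝ) (z : ℝ × ℝ) : ℝ :=
  chi η (r.σ (z.1 + 1) - z.2) - chi η (r.σ z.1 - z.2)

/-- primitive of `chi` -/
noncomputable def X (η u : ℝ) : ℝ := ∫ t in (0 : ℝ)..u, chi η t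

variable {η : ℝ} (h0 : 0 < η) (h1 : η < 1)

include h0 h1

omit r in
lemma X_deriv (u : ℝ) : HasDerivAt (X η) (chi η u) u :=
  intervalIntegral.integral_hasDerivAt_right ((chi_cont h0 h1).intervalIntegrable _ _)
    ((chi_cont h0 h1).stronglyMeasurableAtFilter _ _) (chi_cont h0 h1).continuousAt

omit r in
lemma X_contDiff : ContDiff ℝ ∞ (X η) := by
  rw [contDiff_infty_iff_deriv]
  refine ⟨fun x => (X_deriv h0 h1 x).differentiableAt, ?_⟩
  have : deriv (X η) = chi η := by funext x; exact (X_deriv h0 h1 x).deriv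
  rw [this]
  exact chi_contDiff h0 h1

omit r in
lemma X_add_one (u : ℝ) : X η (u + 1) = X η u + u + X η 1 := by
  have hd : ∀ u, HasDerivAt (fun u => X η (u + 1) - X η u - u) 0 u := by
    intro u
    have e1 := (X_deriv h0 h1 (u + 1)).comp_add_const u 1
    have e2 := (e1.sub (X_deriv h0 h1 u)).sub (hasDerivAt_id u)
    rw [chi_add_one] at e2
    have e3 : chi η u + 1 - chi η u - 1 = 0 := by ring
    rw [e3] at e2
    exact e2
  have h4 := is_const_of_deriv_eq_zero (fun y => (hd y).differentiableAt) (fun y => (hd y).deriv)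
    u 0
  have hX0 : X η 0 = 0 := by simp [X]
  simp only [zero_add, hX0, sub_zero] at h4
  linarith

omit h1 in
lemma D1_mem (z : ℝ × ℝ) : r.D1 η z ∈ Icc (0 : ℝ) 1 := by
  have e1 := r.p_pos z.1
  have e2 := r.p_le_one z.1
  unfold p at e1 e2
  exact chi_diff_mem h0 (by linarith) (by linarith)

lemma D1_cont : Continuous (r.D1 η) := by
  unfold D1
  have e := chi_cont h0 h1
  have e2 := r.hσ.continuous
  fun_prop

omit h0 h1 in
lemma D1_sum (x y : ℝ) : ∑ i ∈ Finset.range r.d, r.D1 η (x + i, y) = 1 := by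
  unfold D1
  have h : ∀ i ∈ Finset.range r.d, chi η (r.σ (x + i + 1) - y) - chi η (r.σ (x + i) - y)
      = (fun i : ℕ => chi η (r.σ (x + i) - y)) (i + 1)
        - (fun i : ℕ => chi η (r.σ (x + i) - y)) i := by
    intro i _
    simp only
    push_cast
    rw [add_assoc]
  rw [Finset.sum_congr rfl h, Finset.sum_range_sub (fun i : ℕ => chi η (r.σ (x + i) - y))]
  simp only [Nat.cast_zero, add_zero, r.hσd]
  rw [show r.σ x + 1 - y = (r.σ x - y) + 1 by ring, chi_add_one]
  ring

omit h0 h1 in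
/-- the fibre maps (inverse branches) -/
noncomputable def k1 (η : ℝ) (z : ℝ × ℝ) : ℝ :=
  (X η (r.σ (z.1 + 1)) - X η (r.σ (z.1 + 1) - z.2) - X η (r.σ z.1) + X η (r.σ z.1 - z.2)) / r.p z.1

lemma k1_contDiff : ContDiff ℝ ∞ (r.k1 η) := by
  have e := X_contDiff h0 h1
  have e2 : ContDiff ℝ ∞ fun z : ℝ × ℝ => r.σ (z.1 + 1) :=
    r.hσ.comp (contDiff_fst.add contDiff_const)
  have e3 : ContDiff ℝ ∞ fun z : ℝ × ℝ => r.σ z.1 := r.hσ.comp contDiff_fst
  have e4 : ContDiff ℝ ∞ fun z : ℝ × ℝ => r.p z.1 := r.p_contDiff.comp contDiff_fst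
  unfold k1
  exact ((((e.comp e2).sub (e.comp (e2.sub contDiff_snd))).sub (e.comp e3)).add
    (e.comp (e3.sub contDiff_snd))).div e4 fun z => (r.p_pos _).ne'

lemma k1_deriv (x y : ℝ) : HasDerivAt (fun t => r.k1 η (x, t)) (r.D1 η (x, y) / r.p x) y := by
  unfold k1 D1
  simp only
  apply HasDerivAt.div_const
  have e : ∀ a : ℝ, HasDerivAt (fun t => X η (a - t)) (-chi η (a - y)) y := by
    intro a
    have := (X_deriv h0 h1 (a - y)).comp y ((hasDerivAt_id y).const_sub a)
    rw [mul_neg, mul_one] at this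
    exact this
  have e2 := (((hasDerivAt_const y (X η (r.σ (x + 1)))).sub (e (r.σ (x + 1)))).sub
    (hasDerivAt_const y (X η (r.σ x)))).add (e (r.σ x))
  convert! e2 using 1
  ring

omit h0 h1 in
lemma k1_zero (x : ℝ) : r.k1 η (x, 0) = 0 := by
  unfold k1
  simp

lemma k1_add_d (x y : ℝ) : r.k1 η (x + r.d, y) = r.k1 η (x, y) := by
  unfold k1
  simp only [r.p_per]
  rw [show x + (r.d : ℝ) + 1 = x + 1 + r.d by ring, r.hσd, r.hσd]
  rw [show r.σ (x + 1) + 1 - y = r.σ (x + 1) - y + 1 by ring,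
    show r.σ x + 1 - y = r.σ x - y + 1 by ring]
  rw [X_add_one h0 h1, X_add_one h0 h1, X_add_one h0 h1, X_add_one h0 h1]
  congr 1
  ring

lemma k1_add_one (x y : ℝ) : r.k1 η (x, y + 1) = r.k1 η (x, y) + 1 := by
  unfold k1
  have hp := (r.p_pos x).ne'
  have e1 := X_add_one h0 h1 (r.σ (x + 1) - (y + 1))
  have e2 := X_add_one h0 h1 (r.σ x - (y + 1))
  rw [show r.σ (x + 1) - (y + 1) + 1 = r.σ (x + 1) - y by ring] at e1
  rw [show r.σ x - (y + 1) + 1 = r.σ x - y by ring] at e2
  rw [e1, e2]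
  have e3 : r.p x = r.σ (x + 1) - r.σ x := rfl
  rw [div_add_one hp, e3]
  congr 1
  ring

lemma k1_one (x : ℝ) : r.k1 η (x, 1) = 1 := by
  have := r.k1_add_one h0 h1 x 0
  rw [r.k1_zero, zero_add] at this
  simpa using this

lemma k1_sub (x a b : ℝ) : r.k1 η (x, b) - r.k1 η (x, a) = ∫ t in a..b, r.D1 η (x, t) / r.p x := by
  symm
  apply intervalIntegral.integral_eq_sub_of_hasDerivAt (fun t _ => r.k1_deriv h0 h1 x t)
  apply Continuous.intervalIntegrable
  exact ((r.D1_cont h0 h1).comp (by fun_prop)).div_const _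

/-- non-degeneracy of the sharp branches -/
lemma k1_nd (hη : η < r.δ) (x : ℝ) {y : ℝ} (hy : y ∈ Ioo (0 : ℝ) 1) :
    ∃ i ∈ Finset.range r.d, r.k1 η (x + i, y) ≠ y := by
  -- reduction to natural numbers
  have hred : (∃ i : ℕ, r.k1 η (x + i, y) ≠ y) → ∃ i ∈ Finset.range r.d, r.k1 η (x + i, y) ≠ y := by
    rintro ⟨i, hi⟩
    refine ⟨i % r.d, Finset.mem_range.mpr (Nat.mod_lt _ r.d_pos), ?_⟩
    have e1 : ∀ (j : ℕ) (x : ℝ), r.k1 η (x + (r.d * j : ℕ), y) = r.k1 η (x, y) := by
      intro j x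
      induction j with
      | zero => simp
      | succ j ih =>
        push_cast at ih ⊢
        rw [mul_add, mul_one, ← add_assoc, r.k1_add_d h0 h1, ih]
    have e2 : (i : ℝ) = (i % r.d : ℕ) + (r.d * (i / r.d) : ℕ) := by
      exact_mod_cast (Nat.mod_add_div i r.d).symm
    rw [e2, ← add_assoc, e1] at hi
    exact hi
  apply hred
  set N : ℤ := ⌊r.σ x⌋ + 1 with hN
  have hex : ∃ i : ℕ, (N : ℝ) + η ≤ r.σ (x + i) := by
    obtain ⟨i, hi⟩ := exists_nat_gt ((N + η - r.σ x) / r.δ)
    refine ⟨i, ?_⟩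
    have e1 := r.σ_mono_nat x 0 i (Nat.zero_le i)
    rw [div_lt_iff₀ r.hδ] at hi
    simp only [Nat.cast_zero, add_zero, Nat.sub_zero] at e1
    linarith
  classical
  set i0 := Nat.find hex with hi0
  have hi0' : (N : ℝ) + η ≤ r.σ (x + i0) := Nat.find_spec hex
  have hi0pos : 0 < i0 := by
    by_contra hcon
    have : i0 = 0 := by omega
    rw [this] at hi0'
    simp only [Nat.cast_zero, add_zero] at hi0'
    have := Int.lt_floor_add_one (r.σ x)
    rw [hN] at hi0'
    push_cast at hi0'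
    linarith
  have hprev : r.σ (x + (i0 - 1 : ℕ)) < N + η := by
    have := Nat.find_min hex (m := i0 - 1) (by omega)
    push Not at this
    exact this
  have hDzero : ∀ (i : ℕ) (n : ℤ) (t : ℝ), r.σ (x + i) - t ∈ Icc ((n : ℝ) + η) (n + 1) →
      r.σ (x + (i + 1 : ℕ)) - t ∈ Icc ((n : ℝ) + η) (n + 1) → r.D1 η (x + i, t) = 0 := by
    intro i n t ht1 ht2
    unfold D1
    simp only
    push_cast at ht2
    rw [← add_assoc] at ht2
    rw [chi_plateau h0 n ht1, chi_plateau h0 n ht2]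
    ring
  by_cases hc : r.σ (x + (i0 + 1 : ℕ)) - N ≤ y
  · refine ⟨i0, ?_⟩
    have e1 : r.k1 η (x + i0, 1) - r.k1 η (x + i0, y) = 0 := by
      rw [r.k1_sub h0 h1]
      have : ∀ t ∈ uIcc y 1, r.D1 η (x + i0, t) / r.p (x + i0) = 0 := by
        intro t ht
        rw [uIcc_of_le hy.2.le] at ht
        have e2 := r.σ_mono_nat x i0 (i0 + 1) (by omega)
        have e3 : ((i0 + 1 - i0 : ℕ) : ℝ) = 1 := by
          rw [Nat.add_sub_cancel_left]; simp
        rw [e3] at e2
        rw [hDzero i0 (N - 1) t, zero_div]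
        · push_cast
          constructor
          · linarith [ht.2]
          · linarith [ht.1, r.hδ]
        · constructor
          · push_cast at e2 ⊢
            linarith [ht.2, r.hδ]
          · push_cast at hc ⊢
            linarith [ht.1]
      rw [intervalIntegral.integral_congr this]
      simp
    rw [r.k1_one h0 h1] at e1
    have := hy.2
    intro hcon
    linarith
  · push Not at hc
    refine ⟨i0 + 2, ?_⟩
    have e1 : r.k1 η (x + (i0 + 2 : ℕ), y) - r.k1 η (x + (i0 + 2 : ℕ), 0) = 0 := by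
      rw [r.k1_sub h0 h1]
      have : ∀ t ∈ uIcc 0 y, r.D1 η (x + (i0 + 2 : ℕ), t) / r.p (x + (i0 + 2 : ℕ)) = 0 := by
        intro t ht
        rw [uIcc_of_le hy.1.le] at ht
        have e2 := r.σ_mono_nat x (i0 + 1) (i0 + 2) (by omega)
        have e3 : ((i0 + 2 - (i0 + 1) : ℕ) : ℝ) = 1 := by
          rw [show i0 + 2 - (i0 + 1) = 1 by omega]; simp
        rw [e3] at e2
        have e4 := r.σ_mono_nat x (i0 + 2) (i0 + 3) (by omega)
        have e5 : ((i0 + 3 - (i0 + 2) : ℕ) : ℝ) = 1 := by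
          rw [show i0 + 3 - (i0 + 2) = 1 by omega]; simp
        rw [e5] at e4
        have hd := r.hd
        have e6 := r.σ_mono_nat x (i0 + 3) (i0 - 1 + r.d) (by omega)
        have e7 : (1 : ℝ) ≤ ((i0 - 1 + r.d - (i0 + 3) : ℕ) : ℝ) := by
          have : 1 ≤ i0 - 1 + r.d - (i0 + 3) := by omega
          exact_mod_cast this
        have e8 : r.σ (x + (i0 - 1 + r.d : ℕ)) = r.σ (x + (i0 - 1 : ℕ)) + 1 := by
          push_cast
          rw [← add_assoc, r.hσd]
        rw [e8] at e6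
        have e9 : r.δ ≤ ((i0 - 1 + r.d - (i0 + 3) : ℕ) : ℝ) * r.δ := by
          nlinarith [r.hδ]
        rw [hDzero (i0 + 2) N t, zero_div]
        · constructor
          · linarith [ht.2]
          · linarith [ht.1, r.hδ]
        · rw [show i0 + 2 + 1 = i0 + 3 by ring]
          constructor
          · linarith [ht.2, r.hδ]
          · linarith [ht.1]
      rw [intervalIntegral.integral_congr this]
      simp
    rw [r.k1_zero] at e1
    have := hy.1
    intro hcon
    linarith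

/-- the synchronising skew product with parameter `s` -/
noncomputable def skew (s : ℝ) (hs0 : 0 ≤ s) (hs1 : s < 1) : Sk where
  d := r.d
  m := 1
  hd := r.d_pos
  hm := one_pos
  G := r.G
  p := r.p
  k := fun z => (1 - s) * z.2 + s * r.k1 η z
  κ := fun z => (1 - s) + s * (r.D1 η z / r.p z.1)
  hG := r.G_contDiff
  hGp := r.G_deriv
  hp := r.p_pos
  hGd := r.G_add_d
  hk := (contDiff_const.mul contDiff_snd).add (contDiff_const.mul (r.k1_contDiff h0 h1))
  hkκ := fun x y => by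
    have e1 := ((hasDerivAt_id y).const_mul (1 - s)).add ((r.k1_deriv h0 h1 x y).const_mul s)
    rw [mul_one] at e1
    exact e1
  hκ := fun z => by
    have e1 := (r.D1_mem h0 z).1
    have e2 := r.p_pos z.1
    have e3 : 0 ≤ s * (r.D1 η z / r.p z.1) := by positivity
    linarith
  hkd := fun x y => by simp only [r.k1_add_d h0 h1]
  hkm := fun x y => by
    simp only [Nat.cast_one, r.k1_add_one h0 h1]
    ring
  hsum := fun x y => by
    simp only [Finset.sum_range_one, Nat.cast_zero, add_zero]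
    have e1 : ∀ i ∈ Finset.range r.d, r.p (x + i) * ((1 - s) + s * (r.D1 η (x + i, y) / r.p (x + i)))
        = (1 - s) * r.p (x + i) + s * r.D1 η (x + i, y) := by
      intro i _
      have := (r.p_pos (x + i)).ne'
      field_simp
    rw [Finset.sum_congr rfl e1, Finset.sum_add_distrib, ← Finset.mul_sum, ← Finset.mul_sum,
      r.p_sum, r.D1_sum]
    ring

lemma skew_fix (hη : η < r.δ) (s : ℝ) (hs0 : 0 < s) (hs1 : s < 1) :
    (r.skew h0 h1 s hs0.le hs1).Fix where
  m1 := rfl
  k0 := fun x => by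
    show (1 - s) * (0 : ℝ) + s * r.k1 η (x, 0) = 0
    rw [r.k1_zero]; ring
  nd := fun x y hy => by
    obtain ⟨i, hi, hne⟩ := r.k1_nd h0 h1 hη x hy
    refine ⟨i, hi, fun hcon => hne ?_⟩
    have e1 : (1 - s) * y + s * r.k1 η (x + i, y) = y := hcon
    have e2 : s * (r.k1 η (x + i, y) - y) = 0 := by linarith
    rcases mul_eq_zero.mp e2 with h | h
    · exact absurd h hs0.ne'
    · linarith

lemma skew_exp (s : ℝ) (hs0 : 0 ≤ s) (hs1 : s < 1) : (r.skew h0 h1 s hs0 hs1).Exp where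
  d2 := by show 2 ≤ r.d; have := r.hd; omega
  sp := r.p_sum

end Sg

end Pool.Agent.H165R3
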