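import Pool.Agent.H165R3.Nuh
import Pool.Agent.H165R3.Ent

/-!
# The family with a neutral invariant circle
-/

set_option autoImplicit false

open Set Filter Topology MeasureTheory Function
open scoped ContDiff ENNReal Real

namespace Pool.Agent.H165R3

/-- the sum over the four branches vanishes -/
lemma cos4 (x : ℝ) : Real.cos (π * (x + 0) / 2) + Real.cos (π * (x + 1) / 2)
    + Real.cos (π * (x + 2) / 2) + Real.cos (π * (x + 3) / 2) = 0 := by
  have h0 : π * (x + 0) / 2 = π * x / 2 := by ring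
  have h1 : π * (x + 1) / 2 = π * x / 2 + π / 2 := by ring
  have h2 : π * (x + 2) / 2 = π * x / 2 + π := by ring
  have h3 : π * (x + 3) / 2 = (π * x / 2 + π / 2) + π := by ring
  rw [h0, h1, h2, h3, Real.cos_add_pi, Real.cos_add_pi]
  ring

lemma kap_pos (x y : ℝ) : 1 / 3 < 1 + π / 5 * Real.cos (π * x / 2) * Real.sin (2 * π * y) := by
  have h1 := Real.pi_lt_d2
  have h2 := Real.pi_pos
  have h3 : |Real.cos (π * x / 2) * Real.sin (2 * π * y)| ≤ 1 := by
    rw [abs_mul]
    have := Real.abs_cos_le_one (π * x / 2)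
    have := Real.abs_sin_le_one (2 * π * y)
    nlinarith [abs_nonneg (Real.cos (π * x / 2)), abs_nonneg (Real.sin (2 * π * y))]
  have h4 := (abs_le.mp h3).1
  nlinarith

/-- the family -/
noncomputable def nS (e : ℝ) : Sk where
  d := 4
  m := 1
  hd := by norm_num
  hm := by norm_num
  G x := x / 4
  p _ := 1 / 4
  k z := z.2 + 1 / 10 * Real.cos (π * z.1 / 2) * (e - Real.cos (2 * π * z.2))
  κ z := 1 + π / 5 * Real.cos (π * z.1 / 2) * Real.sin (2 * π * z.2)
  hG := by fun_prop
  hGp x := by simpa using (hasDerivAt_id x).div_const 4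
  hp _ := by norm_num
  hGd x := by push_cast; ring
  hk := by fun_prop
  hkκ x y := by
    have h1 : HasDerivAt (fun t : ℝ => Real.cos (2 * π * t)) (-Real.sin (2 * π * y) * (2 * π)) y := by
      have h := ((hasDerivAt_id y).const_mul (2 * π))
      simp only [id_eq, mul_one] at h
      exact h.cos
    have h2 := (hasDerivAt_id y).add ((h1.const_sub e).const_mul (1 / 10 * Real.cos (π * x / 2)))
    refine HasDerivAt.congr_deriv (f := fun t => (x, t).2 + 1 / 10 * Real.cos (π * (x, t).1 / 2) *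
      (e - Real.cos (2 * π * (x, t).2))) h2 ?_
    simp only
    ring
  hκ z := by have := kap_pos z.1 z.2; linarith
  hkd x y := by
    simp only
    have : π * (x + (4 : ℕ)) / 2 = π * x / 2 + 2 * π := by push_cast; ring
    rw [this, Real.cos_add_two_pi]
  hkm x y := by
    simp only
    have : 2 * π * (y + (1 : ℕ)) = 2 * π * y + 2 * π := by push_cast; ring
    rw [this, Real.cos_add_two_pi]
    push_cast
    ring
  hsum x y := by
    simp only [Finset.sum_range_succ, Finset.sum_range_zero, Nat.cast_zero, Nat.cast_one,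
      Nat.cast_ofNat, add_zero, zero_add]
    have := cos4 x
    rw [add_zero] at this
    linear_combination (π / 20 * Real.sin (2 * π * y)) * this

variable (e : ℝ)

lemma nS_k (z : ℝ × ℝ) : (nS e).k z = z.2 + 1 / 10 * Real.cos (π * z.1 / 2) *
    (e - Real.cos (2 * π * z.2)) := rfl
lemma nS_κ (z : ℝ × ℝ) : (nS e).κ z = 1 + π / 5 * Real.cos (π * z.1 / 2) *
    Real.sin (2 * π * z.2) := rfl
lemma nS_p (x : ℝ) : (nS e).p x = 1 / 4 := rfl
lemma nS_G (x : ℝ) : (nS e).G x = x / 4 := rfl
lemma nS_d : (nS e).d = 4 := rfl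
lemma nS_m : (nS e).m = 1 := rfl

lemma nS_g (x : ℝ) : (nS e).g x = 4 * x := by
  have h := (nS e).G_g x
  rw [nS_G] at h
  linarith

lemma nS_F (z : ℝ × ℝ) : (nS e).F z = (4 * z.1, (nS e).h z) := by rw [Sk.F_eq, nS_g]

lemma nS_a (z : ℝ × ℝ) : (nS e).a z = 4 := by unfold Sk.a; rw [nS_p]; norm_num

lemma nS_kx (z : ℝ × ℝ) : (nS e).kx z = -(π / 20) * Real.sin (π * z.1 / 2) *
    (e - Real.cos (2 * π * z.2)) := by
  obtain ⟨x, y⟩ := z
  have h1 : HasFDerivAt (nS e).k (fderiv ℝ (nS e).k (x, y)) (x, y) :=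
    ((nS e).hk.differentiable (by simp) _).hasFDerivAt
  have h2 : HasDerivAt (fun t : ℝ => (t, y)) ((1 : ℝ), (0 : ℝ)) x :=
    (hasDerivAt_id x).prodMk (hasDerivAt_const x y)
  have h3 := h1.comp_hasDerivAt x h2
  have h4 : HasDerivAt (fun t : ℝ => Real.cos (π * t / 2)) (-Real.sin (π * x / 2) * (π / 2)) x := by
    have h := ((hasDerivAt_id x).const_mul π).div_const 2
    simp only [id_eq, mul_one] at h
    exact h.cos
  have h5 : HasDerivAt (fun t : ℝ => (nS e).k (t, y)) (-(π / 20) * Real.sin (π * x / 2) *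
    (e - Real.cos (2 * π * y))) x := by
    have h6 := ((h4.const_mul (1 / 10)).mul_const (e - Real.cos (2 * π * y))).const_add y
    refine HasDerivAt.congr_deriv (f := fun t => y + 1 / 10 * Real.cos (π * t / 2) *
      (e - Real.cos (2 * π * y))) h6 ?_
    ring
  exact h3.unique h5

/-- two consecutive branches do not vanish together -/
lemma cos_ne (x : ℝ) : Real.cos (π * (x + (0 : ℕ)) / 2) ≠ 0 ∨ Real.cos (π * (x + (1 : ℕ)) / 2) ≠ 0 := by
  by_contra hcon
  push Not at hcon
  obtain ⟨h0, h1⟩ := hcon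
  have e0 : π * (x + (0 : ℕ)) / 2 = π * x / 2 := by push_cast; ring
  have e1 : π * (x + (1 : ℕ)) / 2 = π * x / 2 + π / 2 := by push_cast; ring
  rw [e0] at h0
  rw [e1, Real.cos_add_pi_div_two] at h1
  have := Real.sin_sq_add_cos_sq (π * x / 2)
  rw [h0] at this
  have h2 : Real.sin (π * x / 2) = 0 := by linarith
  rw [h2] at this
  norm_num at this

lemma nS_fix : (nS 1).Fix where
  m1 := rfl
  k0 x := by rw [nS_k]; simp
  nd x y hy := by
    have h1 : 1 - Real.cos (2 * π * y) ≠ 0 := by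
      intro h
      have h2 : Real.cos (2 * π * y) = 1 := by linarith
      rw [Real.cos_eq_one_iff] at h2
      obtain ⟨n, hn⟩ := h2
      have h3 : (n : ℝ) = y := by
        have := Real.pi_pos
        have h4 : (n : ℝ) * (2 * π) = y * (2 * π) := by linarith
        exact mul_right_cancel₀ (by positivity) h4
      rw [← h3] at hy
      have h4 : (0 : ℤ) < n := by exact_mod_cast hy.1
      have h5 : n < (1 : ℤ) := by exact_mod_cast hy.2
      omega
    rcases cos_ne x with h | h
    · refine ⟨0, by rw [nS_d]; simp, ?_⟩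
      rw [nS_k]
      intro h2
      apply mul_ne_zero (mul_ne_zero (by norm_num : (1 / 10 : ℝ) ≠ 0) h) h1
      simp only at h2
      linarith
    · refine ⟨1, by rw [nS_d]; simp, ?_⟩
      rw [nS_k]
      intro h2
      apply mul_ne_zero (mul_ne_zero (by norm_num : (1 / 10 : ℝ) ≠ 0) h) h1
      simp only at h2
      linarith

lemma nS_exp : (nS e).Exp where
  d2 := by rw [nS_d]; norm_num
  sp x := by simp [nS_d, nS_p]

theorem nS_ergodic : Ergodic (nS 1).f (volume : Measure T2) :=
  nS_fix.ergodic (nS_exp 1).ergodic_gA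

/-- strict negativity of the conditional fibre exponent -/
lemma nS_J_neg (z : ℝ × ℝ) (hz : Real.sin (2 * π * z.2) ≠ 0) : (nS e).J z < 0 := by
  have hle : ∀ i ∈ Finset.range (nS e).d, Real.negMulLog ((nS e).κ (z.1 + i, z.2)) * (nS e).p (z.1 + i)
      ≤ (1 - (nS e).κ (z.1 + i, z.2)) * (nS e).p (z.1 + i) := by
    intro i _
    refine mul_le_mul_of_nonneg_right ?_ ((nS e).hp _).le
    exact Real.negMulLog_le_one_sub_self ((nS e).hκ _).le
  have hlt : ∃ i ∈ Finset.range (nS e).d,
      Real.negMulLog ((nS e).κ (z.1 + i, z.2)) * (nS e).p (z.1 + i)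
      < (1 - (nS e).κ (z.1 + i, z.2)) * (nS e).p (z.1 + i) := by
    have key : ∀ i : ℕ, Real.cos (π * (z.1 + i) / 2) ≠ 0 →
      Real.negMulLog ((nS e).κ (z.1 + i, z.2)) * (nS e).p (z.1 + i)
      < (1 - (nS e).κ (z.1 + i, z.2)) * (nS e).p (z.1 + i) := by
      intro i hi
      refine mul_lt_mul_of_pos_right ?_ ((nS e).hp _)
      set t := (nS e).κ (z.1 + i, z.2) with ht
      have h0 : 0 < t := (nS e).hκ _
      have h1 : t⁻¹ ≠ 1 := by
        intro h
        rw [inv_eq_one] at h
        rw [nS_κ] at ht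
        simp only at ht
        have : π / 5 * Real.cos (π * (z.1 + i) / 2) * Real.sin (2 * π * z.2) = 0 := by linarith
        exact mul_ne_zero (mul_ne_zero (by positivity) hi) hz this
      have h2 := Real.log_lt_sub_one_of_pos (inv_pos.mpr h0) h1
      rw [Real.log_inv] at h2
      unfold Real.negMulLog
      have h3 := mul_lt_mul_of_pos_left h2 h0
      rw [mul_sub, mul_inv_cancel₀ h0.ne'] at h3
      linarith
    rcases cos_ne z.1 with h | h
    · exact ⟨0, by rw [nS_d]; simp, key 0 h⟩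
    · exact ⟨1, by rw [nS_d]; simp, key 1 h⟩
  have h1 := Finset.sum_lt_sum hle hlt
  have h2 : ∑ i ∈ Finset.range (nS e).d, (1 - (nS e).κ (z.1 + i, z.2)) * (nS e).p (z.1 + i) = 0 := by
    have h3 := (nS e).hsum z.1 z.2
    simp only [nS_m, Finset.range_one, Finset.sum_singleton, Nat.cast_zero, add_zero] at h3
    have h4 := (nS_exp e).sp z.1
    have h5 : ∀ i : ℕ, (1 - (nS e).κ (z.1 + i, z.2)) * (nS e).p (z.1 + i)
      = (nS e).p (z.1 + i) - (nS e).p (z.1 + i) * (nS e).κ (z.1 + i, z.2) := fun i => by ring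
    simp only [h5]
    rw [Finset.sum_sub_distrib, h3, h4, sub_self]
  rw [h2] at h1
  exact h1

end Pool.Agent.H165R3
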