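import Pool.Agent.H165R3.Fam2

/-!
# Closeness of the family, non-ergodicity, transitivity
-/

set_option autoImplicit false

open Set Filter Topology MeasureTheory Function
open scoped ContDiff ENNReal Real

namespace Pool.Agent.H165R3

variable (e : ℝ)

lemma k_expand (e x : ℝ) {u v : ℝ} (huv : u ≤ v) :
    1 / 3 * (v - u) ≤ (nS e).k (x, v) - (nS e).k (x, u) := by
  refine mul_sub_le_image_sub_of_le_deriv (f := fun t => (nS e).k (x, t))
    (fun t => ((nS e).hkκ x t).differentiableAt) (fun t => ?_) huv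
  rw [((nS e).hkκ x t).deriv, nS_κ]
  exact (kap_pos x t).le

lemma h_diff (z : ℝ × ℝ) : |(nS e).h z - (nS 1).h z| ≤ |e - 1| := by
  set u := (nS e).h z with hu
  set v := (nS 1).h z with hv
  have h1 : (nS e).k (4 * z.1, u) = z.2 := by
    have := (nS e).k_gh z
    rwa [nS_g] at this
  have h2 : (nS 1).k (4 * z.1, v) = z.2 := by
    have := (nS 1).k_gh z
    rwa [nS_g] at this
  have h3 : (nS 1).k (4 * z.1, u) = (nS e).k (4 * z.1, u)
      - 1 / 10 * Real.cos (π * (4 * z.1) / 2) * (e - 1) := by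
    rw [nS_k, nS_k]
    simp only
    ring
  have h4 : |1 / 10 * Real.cos (π * (4 * z.1) / 2) * (e - 1)| ≤ 1 / 10 * |e - 1| := by
    rw [abs_mul, abs_mul]
    have := Real.abs_cos_le_one (π * (4 * z.1) / 2)
    have e1 : |(1 / 10 : ℝ)| = 1 / 10 := by norm_num
    rw [e1]
    nlinarith [abs_nonneg (e - 1)]
  have h5 := abs_le.mp h4
  have h6 := abs_nonneg (e - 1)
  rw [abs_le]
  rcases le_total u v with huv | huv
  · have := k_expand 1 (4 * z.1) huv
    rw [h2, h3, h1] at this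
    constructor <;> linarith [h5.1, h5.2]
  · have := k_expand 1 (4 * z.1) huv
    rw [h2, h3, h1] at this
    constructor <;> linarith [h5.1, h5.2]

lemma pi_mul : π * π ≤ 10 := by
  have h1 := Real.pi_lt_d2
  have h2 := Real.pi_pos
  nlinarith

lemma nS_F_close (z : ℝ × ℝ) : ‖(nS e).F z - (nS 1).F z‖ ≤ |e - 1| := by
  rw [nS_F, nS_F, Prod.mk_sub_mk, sub_self, Prod.norm_def]
  simp only [norm_zero, Real.norm_eq_abs]
  exact max_le (abs_nonneg _) (h_diff e z)

lemma nS_dF_close (z : ℝ × ℝ) :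
    ‖fderiv ℝ (nS e).F z - fderiv ℝ (nS 1).F z‖ ≤ 300 * |e - 1| := by
  rw [((nS e).F_hasFDerivAt z).fderiv, ((nS 1).F_hasFDerivAt z).fderiv]
  have h0 : tri ((nS e).a z) ((nS e).c z) ((nS e).b z) - tri ((nS 1).a z) ((nS 1).c z) ((nS 1).b z)
      = tri 0 ((nS e).c z - (nS 1).c z) ((nS e).b z - (nS 1).b z) := by
    apply ContinuousLinearMap.ext
    intro v
    rw [nS_a, nS_a]
    simp only [_root_.sub_apply, tri_apply]
    ext <;> simp <;> ring
  rw [h0]
  refine (Sk.tri_norm_le _ _ _).trans ?_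
  rw [abs_zero, zero_add]
  have hπ1 := Real.pi_lt_d2
  have hπ0 := Real.pi_pos
  set D := |(nS e).h z - (nS 1).h z| with hD
  have hDe : D ≤ |e - 1| := h_diff e z
  have hD0 : 0 ≤ D := abs_nonneg _
  set X := 4 * z.1 with hX
  set u := (nS e).h z with hu
  set v := (nS 1).h z with hv
  set κ1 := 1 + π / 5 * Real.cos (π * X / 2) * Real.sin (2 * π * u) with hκ1
  set κ2 := 1 + π / 5 * Real.cos (π * X / 2) * Real.sin (2 * π * v) with hκ2
  set k1 := -(π / 20) * Real.sin (π * X / 2) * (e - Real.cos (2 * π * u)) with hk1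
  set k2 := -(π / 20) * Real.sin (π * X / 2) * (1 - Real.cos (2 * π * v)) with hk2
  have hb1 : (nS e).b z = 1 / κ1 := by
    unfold Sk.b
    rw [nS_F, nS_κ]
  have hb2 : (nS 1).b z = 1 / κ2 := by
    unfold Sk.b
    rw [nS_F, nS_κ]
  have hc1 : (nS e).c z = -4 * (k1 * (1 / κ1)) := by
    unfold Sk.c
    rw [nS_F, nS_κ, nS_kx, nS_p, ← hk1, ← hκ1]
    field_simp
  have hc2 : (nS 1).c z = -4 * (k2 * (1 / κ2)) := by
    unfold Sk.c
    rw [nS_F, nS_κ, nS_kx, nS_p, ← hk2, ← hκ2]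
    field_simp
  have p1 : 1 / 3 < κ1 := kap_pos X u
  have p2 : 1 / 3 < κ2 := kap_pos X v
  have q1 : |1 / κ1| ≤ 3 := by
    rw [abs_of_pos (by positivity), div_le_iff₀ (by linarith)]
    linarith
  have q2 : |1 / κ2| ≤ 3 := by
    rw [abs_of_pos (by positivity), div_le_iff₀ (by linarith)]
    linarith
  have hs := Real.abs_sin_sub_sin_le (2 * π * u) (2 * π * v)
  have hc := Real.abs_cos_sub_cos_le (2 * π * u) (2 * π * v)
  have hw : |2 * π * u - 2 * π * v| = 2 * π * D := by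
    rw [← mul_sub, abs_mul, abs_of_pos (by positivity)]
  rw [hw] at hs hc
  have hcos := Real.abs_cos_le_one (π * X / 2)
  have hsin := Real.abs_sin_le_one (π * X / 2)
  have dκ : |κ1 - κ2| ≤ 4 * D := by
    have h1 : κ1 - κ2 = π / 5 * (Real.cos (π * X / 2) * (Real.sin (2 * π * u) - Real.sin (2 * π * v))) := by
      rw [hκ1, hκ2]; ring
    rw [h1, abs_mul, abs_mul, abs_of_pos (by positivity : 0 < π / 5)]
    have h2 : |Real.cos (π * X / 2)| * |Real.sin (2 * π * u) - Real.sin (2 * π * v)| ≤ 1 * (2 * π * D) :=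
      mul_le_mul hcos hs (abs_nonneg _) zero_le_one
    have h3 : π / 5 * (1 * (2 * π * D)) ≤ 4 * D := by
      calc π / 5 * (1 * (2 * π * D)) = 2 / 5 * D * (π * π) := by ring
        _ ≤ 2 / 5 * D * 10 := mul_le_mul_of_nonneg_left pi_mul (by positivity)
        _ = 4 * D := by ring
    exact (mul_le_mul_of_nonneg_left h2 (by positivity)).trans h3
  have db : |1 / κ1 - 1 / κ2| ≤ 36 * D := by
    have h1 : 1 / κ1 - 1 / κ2 = -((κ1 - κ2) * ((1 / κ1) * (1 / κ2))) := by
      have : κ1 ≠ 0 := by linarith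
      have : κ2 ≠ 0 := by linarith
      field_simp
      ring
    rw [h1, abs_neg, abs_mul, abs_mul]
    have h2 : |1 / κ1| * |1 / κ2| ≤ 3 * 3 := mul_le_mul q1 q2 (abs_nonneg _) (by norm_num)
    have h3 := mul_le_mul dκ h2 (by positivity) (by positivity)
    linarith
  have dk : |k1 - k2| ≤ 2 * |e - 1| := by
    have h1 : k1 - k2 = -(π / 20 * (Real.sin (π * X / 2) *
      ((e - 1) - (Real.cos (2 * π * u) - Real.cos (2 * π * v))))) := by
      rw [hk1, hk2]; ring
    rw [h1, abs_neg, abs_mul, abs_mul, abs_of_pos (by positivity : 0 < π / 20)]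
    have h2 : |(e - 1) - (Real.cos (2 * π * u) - Real.cos (2 * π * v))| ≤ |e - 1| + 2 * π * |e - 1| := by
      refine (abs_sub _ _).trans (add_le_add le_rfl (hc.trans ?_))
      exact mul_le_mul_of_nonneg_left hDe (by positivity)
    have h3 : |Real.sin (π * X / 2)| * |(e - 1) - (Real.cos (2 * π * u) - Real.cos (2 * π * v))|
        ≤ 1 * (|e - 1| + 2 * π * |e - 1|) :=
      mul_le_mul hsin h2 (abs_nonneg _) zero_le_one
    have h4 : π / 20 * (1 * (|e - 1| + 2 * π * |e - 1|)) ≤ 2 * |e - 1| := by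
      calc π / 20 * (1 * (|e - 1| + 2 * π * |e - 1|))
          = |e - 1| * (π / 20 + (π * π) / 10) := by ring
        _ ≤ |e - 1| * 2 := mul_le_mul_of_nonneg_left (by linarith [pi_mul]) (abs_nonneg _)
        _ = 2 * |e - 1| := by ring
    exact (mul_le_mul_of_nonneg_left h3 (by positivity)).trans h4
  have bk : |k2| ≤ 1 := by
    rw [hk2, abs_mul, abs_mul, abs_neg, abs_of_pos (by positivity : 0 < π / 20)]
    have h2 : |1 - Real.cos (2 * π * v)| ≤ 2 := by
      have := Real.neg_one_le_cos (2 * π * v)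
      have := Real.cos_le_one (2 * π * v)
      rw [abs_le]; constructor <;> linarith
    have h3 := mul_le_mul hsin h2 (abs_nonneg _) zero_le_one
    have h4 := mul_le_mul_of_nonneg_left h3 (by positivity : 0 ≤ π / 20)
    rw [mul_assoc]
    linarith
  have hc3 : (nS e).c z - (nS 1).c z = -4 * ((k1 - k2) * (1 / κ1) + k2 * (1 / κ1 - 1 / κ2)) := by
    rw [hc1, hc2]; ring
  rw [hc3, hb1, hb2, abs_mul]
  have h4 : |(-4 : ℝ)| = 4 := by norm_num
  rw [h4]
  have h5 : |(k1 - k2) * (1 / κ1) + k2 * (1 / κ1 - 1 / κ2)| ≤ 2 * |e - 1| * 3 + 1 * (36 * D) := by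
    refine (abs_add_le _ _).trans ?_
    rw [abs_mul, abs_mul]
    exact add_le_add (mul_le_mul dk q1 (abs_nonneg _) (by positivity))
      (mul_le_mul bk db (abs_nonneg _) zero_le_one)
  linarith

/-- an ergodic map of full support has a dense forward orbit -/
lemma dense_orbit {f : T2 → T2} (hf : Continuous f) (he : Ergodic f (volume : Measure T2)) :
    ∃ w, Dense (range fun n : ℕ => f^[n] w) := by
  have hbasis := TopologicalSpace.isBasis_countableBasis T2
  have hcount := TopologicalSpace.countable_countableBasis T2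
  have h1 : ∀ U ∈ TopologicalSpace.countableBasis T2, ∀ᵐ w ∂(volume : Measure T2),
      ∃ n : ℕ, f^[n] w ∈ U := by
    intro U hU
    have hUo : IsOpen U := hbasis.isOpen hU
    have hUne : U.Nonempty := TopologicalSpace.nonempty_of_mem_countableBasis hU
    set W : Set T2 := ⋃ n : ℕ, f^[n] ⁻¹' U with hW
    have hWm : MeasurableSet W :=
      MeasurableSet.iUnion fun n => (hf.iterate n).measurable hUo.measurableSet
    have hsub : f ⁻¹' W ⊆ W := by
      intro w hw
      rw [mem_preimage, hW, mem_iUnion] at hw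
      obtain ⟨n, hn⟩ := hw
      rw [hW, mem_iUnion]
      exact ⟨n + 1, by rw [mem_preimage, iterate_succ_apply]; exact hn⟩
    have h2 := he.ae_empty_or_univ_of_preimage_ae_le hWm.nullMeasurableSet
      (Eventually.of_forall hsub)
    rcases h2 with h2 | h2
    · exfalso
      have h3 : volume W = 0 := by rw [measure_congr h2, measure_empty]
      have h4 : U ⊆ W := fun w hw => mem_iUnion.mpr ⟨0, hw⟩
      exact (hUo.measure_pos volume hUne).ne' (measure_mono_null h4 h3)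
    · have h3 := eventuallyEq_univ.mp h2
      filter_upwards [h3] with w hw
      exact mem_iUnion.mp hw
  have h2 : ∀ᵐ w ∂(volume : Measure T2), ∀ U ∈ TopologicalSpace.countableBasis T2,
      ∃ n : ℕ, f^[n] w ∈ U := (ae_ball_iff hcount).mpr h1
  obtain ⟨w, hw⟩ := h2.exists
  refine ⟨w, hbasis.dense_iff.mpr fun U hU _ => ?_⟩
  obtain ⟨n, hn⟩ := hw U hU
  exact ⟨f^[n] w, hn, n, rfl⟩

/-- the fibre maps fix `±δ` -/
lemma nS_k_fix {δ : ℝ} (x y : ℝ) (hy : Real.cos (2 * π * y) = Real.cos (2 * π * δ)) :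
    (nS (Real.cos (2 * π * δ))).k (x, y) = y := by
  rw [nS_k]
  simp only [hy, sub_self, mul_zero, add_zero]

lemma mem_rep_iff {a b : ℝ} (h0 : 0 ≤ a) (h1 : b ≤ 1) (t : ℝ) :
    rep (t : UnitAddCircle) ∈ Ioo a b ↔ ∃ n : ℤ, t - n ∈ Ioo a b := by
  constructor
  · intro h
    have h2 : ((rep (t : UnitAddCircle) : ℝ) : UnitAddCircle) = t := coe_rep _
    obtain ⟨n, hn⟩ := coe_eq_iff.mp h2
    exact ⟨-n, by push_cast; rw [sub_neg_eq_add, ← hn]; exact h⟩
  · rintro ⟨n, hn⟩
    have h2 : (t : UnitAddCircle) = ((t - n : ℝ) : UnitAddCircle) :=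
      coe_eq_iff.mpr ⟨n, by ring⟩
    rw [h2, rep_coe ⟨h0.trans_lt hn.1, hn.2.le.trans h1⟩]
    exact hn

/-- the invariant annulus -/
theorem nS_not_ergodic {δ : ℝ} (h0 : 0 < δ) (h1 : δ < 1 / 2) :
    ¬ Ergodic (nS (Real.cos (2 * π * δ))).f (volume : Measure T2) := by
  intro herg
  set s := nS (Real.cos (2 * π * δ)) with hs
  set A : Set T2 := {w | rep w.2 ∈ Ioo δ (1 - δ)} with hA
  have hkey : ∀ x h : ℝ, s.k (x, h) ∈ Ioo δ (1 - δ) ↔ h ∈ Ioo δ (1 - δ) := by
    intro x h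
    have e1 : s.k (x, δ) = δ := nS_k_fix x δ rfl
    have e2 : s.k (x, 1 - δ) = 1 - δ := nS_k_fix x (1 - δ) (by
      rw [show 2 * π * (1 - δ) = 2 * π - 2 * π * δ by ring, Real.cos_two_pi_sub])
    have hmono := s.k_strictMono x
    have a1 := hmono.lt_iff_lt (a := δ) (b := h)
    have a2 := hmono.lt_iff_lt (a := h) (b := 1 - δ)
    simp only [e1, e2] at a1 a2
    rw [mem_Ioo, mem_Ioo, a1, a2]
  have hh : ∀ z : ℝ × ℝ, ∀ n : ℤ, s.h (z.1, z.2 - n) = s.h z - n := by
    intro z n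
    have hper : ∀ y, s.h (z.1, y + 1) - (y + 1) = s.h (z.1, y) - y := by
      intro y
      have := s.F_add_one_right z.1 y
      have h2 := congrArg Prod.snd this
      simp only [] at h2
      show (s.F (z.1, y + 1)).2 - (y + 1) = (s.F (z.1, y)).2 - y
      rw [h2]
      have : (s.m : ℝ) = 1 := by rw [hs, nS_m]; norm_num
      rw [this]
      ring
    have := per_int (u := fun y => s.h (z.1, y) - y) hper z.2 (-n)
    push_cast at this
    simp only [← sub_eq_add_neg] at this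
    have h3 : s.h (z.1, z.2) = s.h z := rfl
    rw [h3] at this
    linarith
  have hinv : s.f ⁻¹' A = A := by
    ext w
    obtain ⟨z, rfl⟩ := pr_surj w
    rw [mem_preimage, s.f_pr]
    show rep ((s.F z).2 : UnitAddCircle) ∈ Ioo δ (1 - δ) ↔ rep (z.2 : UnitAddCircle) ∈ Ioo δ (1 - δ)
    rw [mem_rep_iff h0.le (by linarith), mem_rep_iff h0.le (by linarith)]
    refine exists_congr fun n => ?_
    show s.h z - n ∈ Ioo δ (1 - δ) ↔ _
    rw [← hh z n, ← hkey (s.g z.1)]
    have := s.k_gh (z.1, z.2 - n)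
    simp only at this
    rw [this]
  have hAimg : A = pr '' (univ ×ˢ Ioo δ (1 - δ)) := by
    ext w
    obtain ⟨z, rfl⟩ := pr_surj w
    show rep (z.2 : UnitAddCircle) ∈ Ioo δ (1 - δ) ↔ _
    rw [mem_rep_iff h0.le (by linarith)]
    constructor
    · rintro ⟨n, hn⟩
      refine ⟨(z.1, z.2 - n), ⟨mem_univ _, hn⟩, ?_⟩
      have := pr_add_right z.1 (z.2 - n) n
      rw [← this]
      simp
    · rintro ⟨z', ⟨-, hz'⟩, he⟩
      have h2 : ((z'.2 : ℝ) : UnitAddCircle) = z.2 := congrArg Prod.snd he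
      obtain ⟨n, hn⟩ := coe_eq_iff.mp h2
      exact ⟨-n, by push_cast; rw [sub_neg_eq_add, ← hn]; exact hz'⟩
  have hAo : IsOpen A := by
    rw [hAimg]
    exact pr_quot.isOpenMap _ (isOpen_univ.prod isOpen_Ioo)
  have hAne : A.Nonempty := by
    rw [hAimg]
    exact ⟨pr (0, 1 / 2), (0, 1 / 2), ⟨mem_univ _, by constructor <;> simp only <;> linarith⟩, rfl⟩
  have hBo : IsOpen (pr '' (univ ×ˢ Ioo (-δ) δ)) :=
    pr_quot.isOpenMap _ (isOpen_univ.prod isOpen_Ioo)
  have hBne : (pr '' (univ ×ˢ Ioo (-δ) δ)).Nonempty :=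
    ⟨pr (0, 0), (0, 0), ⟨mem_univ _, by constructor <;> simp only <;> linarith⟩, rfl⟩
  have hBsub : pr '' (univ ×ˢ Ioo (-δ) δ) ⊆ Aᶜ := by
    rintro w ⟨z, ⟨-, hz⟩, rfl⟩ hw
    have h2 : rep (z.2 : UnitAddCircle) ∈ Ioo δ (1 - δ) := hw
    rw [mem_rep_iff h0.le (by linarith)] at h2
    obtain ⟨n, hn⟩ := h2
    have hz1 := hz.1
    have hz2 := hz.2
    have hn1 := hn.1
    have hn2 := hn.2
    have a1 : (n : ℝ) < 0 := by linarith
    have a2 : (-1 : ℝ) < n := by linarith
    have a3 : n < 0 := by exact_mod_cast a1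
    have a4 : -1 < n := by exact_mod_cast a2
    omega
  have h2 := herg.toPreErgodic.ae_empty_or_univ hAo.measurableSet hinv
  rcases h2 with h2 | h2
  · have h3 : volume A = 0 := by rw [measure_congr h2, measure_empty]
    exact (hAo.measure_pos volume hAne).ne' h3
  · have h3 : volume Aᶜ = 0 := by
      have := eventuallyEq_univ.mp h2
      exact this
    exact (hBo.measure_pos volume hBne).ne' (measure_mono_null hBsub h3)

/-- the maps are not injective -/
lemma nS_not_inj (δ : ℝ) : ¬ Injective (nS (Real.cos (2 * π * δ))).f := by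
  set s := nS (Real.cos (2 * π * δ)) with hs
  intro hinj
  have hfix : ∀ x, s.h (x, δ) = δ := by
    intro x
    apply (s.k_strictMono (s.g x)).injective
    have := s.k_gh (x, δ)
    simp only at this ⊢
    rw [this]
    exact (nS_k_fix _ δ rfl).symm
  have h1 : s.f (pr (0, δ)) = s.f (pr (1 / 4, δ)) := by
    rw [s.f_pr, s.f_pr, hs, nS_F, nS_F, ← hs, hfix, hfix]
    have := pr_add_left 0 δ 1
    push_cast at this
    simp only [mul_zero]
    rw [← this]
    norm_num
  have h2 := hinj h1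
  have h3 : ((0 : ℝ) : UnitAddCircle) = ((1 / 4 : ℝ) : UnitAddCircle) := congrArg Prod.fst h2
  obtain ⟨n, hn⟩ := coe_eq_iff.mp h3
  have a1 : (n : ℝ) < 0 := by linarith
  have a2 : (-1 : ℝ) < n := by linarith
  have a3 : n < 0 := by exact_mod_cast a1
  have a4 : -1 < n := by exact_mod_cast a2
  omega

/-- almost every point has `sin (2 π y) ≠ 0` -/
lemma nS_J_ae : ∀ᵐ w ∂(volume : Measure T2), tl (nS e).J w < 0 := by
  have h1 : ∀ᵐ b ∂(volume : Measure UnitAddCircle), b ≠ ((0 : ℝ) : UnitAddCircle) ∧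
      b ≠ ((1 / 2 : ℝ) : UnitAddCircle) := by
    have h2 : ∀ c : UnitAddCircle, ∀ᵐ b ∂(volume : Measure UnitAddCircle), b ≠ c := fun c => by
      have h3 : volume ({c} : Set UnitAddCircle) = 0 := by
        rw [← Metric.closedBall_zero, AddCircle.volume_closedBall]
        simp
      rw [ae_iff]
      simpa using h3
    exact (h2 _).and (h2 _)
  have h2 : ∀ᵐ w ∂(volume : Measure T2), w.2 ≠ ((0 : ℝ) : UnitAddCircle) ∧
      w.2 ≠ ((1 / 2 : ℝ) : UnitAddCircle) :=
    (Measure.quasiMeasurePreserving_snd (μ := (volume : Measure UnitAddCircle))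
      (ν := (volume : Measure UnitAddCircle))).ae h1
  filter_upwards [h2] with w hw
  apply nS_J_neg
  simp only
  intro hsin
  rw [Real.sin_eq_zero_iff] at hsin
  obtain ⟨n, hn⟩ := hsin
  have h3 : rep w.2 = n / 2 := by
    have := Real.pi_pos
    have h4 : (n : ℝ) = 2 * rep w.2 := by
      have h5 : (n : ℝ) * π = (2 * rep w.2) * π := by linarith
      exact mul_right_cancel₀ this.ne' h5
    linarith
  have h4 := rep_mem w.2
  rw [h3] at h4
  have a1 : (0 : ℝ) < n := by linarith [h4.1]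
  have a2 : (n : ℝ) ≤ 2 := by linarith [h4.2]
  have a3 : 0 < n := by exact_mod_cast a1
  have a4 : n ≤ 2 := by exact_mod_cast a2
  have h5 := coe_rep w.2
  rw [h3] at h5
  have a5 : n = 1 ∨ n = 2 := by omega
  rcases a5 with rfl | rfl
  · apply hw.2
    rw [← h5]
    norm_num
  · apply hw.1
    rw [← h5]
    exact coe_eq_iff.mpr ⟨1, by norm_num⟩

theorem nS_nuh : ∀ᵐ w ∂(volume : Measure T2), ∀ z : ℝ × ℝ, pr z = w → ∃ χm χp : ℝ, χm < 0 ∧ 0 < χp ∧
      Tendsto (fun n : ℕ => (1 / (n : ℝ)) * Real.log ‖fderiv ℝ ((nS e).F^[n]) z‖) atTop (𝓝 χp) ∧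
      Tendsto (fun n : ℕ => (1 / (n : ℝ)) * Real.log (conorm (fderiv ℝ ((nS e).F^[n]) z))) atTop
        (𝓝 χm) :=
  Sk.nuh (s := nS e) rfl (nS_J_ae e) (la := Real.log 4) (Real.log_pos (by norm_num))
    fun z => by rw [nS_a]

end Pool.Agent.H165R3
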