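import Pool.Agent.H165R3.Ent

/-!
# Weak flexibility: the planar form of the main theorem
-/

set_option autoImplicit false

open Set Filter Topology MeasureTheory Function
open scoped ContDiff ENNReal

namespace Pool.Agent.H165R3

/-- the product of two expanding circle maps -/
noncomputable def prodSk (r1 r2 : Sg) : Sk where
  d := r1.d
  m := r2.d
  hd := r1.d_pos
  hm := r2.d_pos
  G := r1.G
  p := r1.p
  k := fun z => r2.G z.2
  κ := fun z => r2.p z.2
  hG := r1.G_contDiff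
  hGp := r1.G_deriv
  hp := r1.p_pos
  hGd := r1.G_add_d
  hk := r2.G_contDiff.comp contDiff_snd
  hkκ := fun _ y => r2.G_deriv y
  hκ := fun _ => r2.p_pos _
  hkd := fun _ _ => rfl
  hkm := fun _ y => r2.G_add_d y
  hsum := fun x y => by
    simp_rw [← Finset.mul_sum, r2.p_sum, mul_one]
    exact r1.p_sum x

/-- the product of an expanding circle map and a rotation -/
noncomputable def rotSk (r : Sg) (α : ℝ) : Sk where
  d := r.d
  m := 1
  hd := r.d_pos
  hm := one_pos
  G := r.G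
  p := r.p
  k := fun z => z.2 - α
  κ := fun _ => 1
  hG := r.G_contDiff
  hGp := r.G_deriv
  hp := r.p_pos
  hGd := r.G_add_d
  hk := contDiff_snd.sub contDiff_const
  hkκ := fun _ y => by
    have := (hasDerivAt_id y).sub_const α
    exact this
  hκ := fun _ => one_pos
  hkd := fun _ _ => rfl
  hkm := fun _ y => by simp only [Nat.cast_one]; ring
  hsum := fun x y => by
    simp only [Finset.sum_range_one, mul_one]
    exact r.p_sum x

lemma prodSk_exp (r1 r2 : Sg) : (prodSk r1 r2).Exp where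
  d2 := by show 2 ≤ r1.d; have := r1.hd; omega
  sp := r1.p_sum

lemma rotSk_exp (r : Sg) (α : ℝ) : (rotSk r α).Exp where
  d2 := by show 2 ≤ r.d; have := r.hd; omega
  sp := r.p_sum

lemma c_zero_of {s : Sk} (h : ∀ x x' y, s.k (x, y) = s.k (x', y)) (z : ℝ × ℝ) : s.c z = 0 := by
  have h1 : ∀ z, s.kx z = 0 := by
    intro z
    obtain ⟨x, y⟩ := z
    unfold Sk.kx
    have h2 : HasFDerivAt s.k (fderiv ℝ s.k (x, y)) (x, y) :=
      (s.hk.differentiable (by simp) _).hasFDerivAt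
    have h3 : HasDerivAt (fun t : ℝ => (t, y)) ((1 : ℝ), (0 : ℝ)) x :=
      (hasDerivAt_id x).prodMk (hasDerivAt_const x y)
    have h4 := h2.comp_hasDerivAt x h3
    have h5 : HasDerivAt (s.k ∘ fun t : ℝ => (t, y)) 0 x := by
      have : (s.k ∘ fun t : ℝ => (t, y)) = fun _ => s.k (x, y) := by
        funext t; exact h t x y
      rw [this]
      exact hasDerivAt_const _ _
    exact h4.unique h5
  unfold Sk.c
  rw [h1]
  simp

lemma prodSk_h (r1 r2 : Sg) (x y : ℝ) : (prodSk r1 r2).h (x, y) = (prodSk r2 r1).g y := by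
  have h1 : r2.G ((prodSk r1 r2).h (x, y)) = y := (prodSk r1 r2).k_F (x, y)
  have h2 : r2.G ((prodSk r2 r1).g y) = y := (prodSk r2 r1).G_g y
  exact (prodSk r2 r1).G_strictMono.injective (h1.trans h2.symm)

lemma prodSk_f (r1 r2 : Sg) : (prodSk r1 r2).f = Prod.map (prodSk r1 r2).gA (prodSk r2 r1).gA := by
  funext w
  obtain ⟨⟨x, y⟩, rfl⟩ := pr_surj w
  rw [Sk.f_pr, Sk.F_eq, prodSk_h]
  show pr _ = ((prodSk r1 r2).gA (x : UnitAddCircle), (prodSk r2 r1).gA (y : UnitAddCircle))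
  rw [Sk.gA_coe, Sk.gA_coe]
  rfl

lemma prodSk_ergodic (r1 r2 : Sg) : Ergodic (prodSk r1 r2).f (volume : Measure T2) := by
  have h1 := (prodSk r1 r2).f_mp
  rw [prodSk_f] at h1 ⊢
  exact prod_ergodic (prodSk_exp r1 r2).exact (prodSk_exp r2 r1).ergodic_gA h1

lemma rotSk_h (r : Sg) (α x y : ℝ) : (rotSk r α).h (x, y) = y + α := by
  have h1 : (rotSk r α).h (x, y) - α = y := (rotSk r α).k_F (x, y)
  linarith

lemma rotSk_f (r : Sg) (α : ℝ) :
    (rotSk r α).f = Prod.map (rotSk r α).gA (fun b => b + (α : UnitAddCircle)) := by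
  funext w
  obtain ⟨⟨x, y⟩, rfl⟩ := pr_surj w
  rw [Sk.f_pr, Sk.F_eq, rotSk_h]
  show pr _ = ((rotSk r α).gA (x : UnitAddCircle), (y : UnitAddCircle) + (α : UnitAddCircle))
  rw [Sk.gA_coe]
  simp [pr]

lemma rotSk_ergodic (r : Sg) : Ergodic (rotSk r √2).f (volume : Measure T2) := by
  have h1 := (rotSk r √2).f_mp
  rw [rotSk_f] at h1 ⊢
  refine prod_ergodic (rotSk_exp r √2).exact ?_ h1
  rw [AddCircle.ergodic_add_right, ← AddCircle.denseRange_zsmul_iff,
    AddCircle.denseRange_zsmul_coe_iff, div_one]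
  exact irrational_sqrt_two

theorem main_plane (l1 l2 : ℝ) (hl : l1 + l2 > 0) :
    ∃ s : Sk, Ergodic s.f (volume : Measure T2) ∧ ((∀ z, s.c z = 0) ∨ s.L1 < s.L2) ∧
      max s.L1 s.L2 = max l1 l2 ∧ s.L1 + s.L2 = l1 + l2 := by
  have hsum : max l1 l2 + min l1 l2 = l1 + l2 := max_add_min l1 l2
  have hM : 0 < max l1 l2 := by
    have := min_le_max (a := l1) (b := l2)
    linarith
  obtain ⟨r1, hr1⟩ := exists_base _ hM
  rcases lt_trichotomy (min l1 l2) 0 with hm | hm | hm
  · obtain ⟨s, hfix, hexp, hL2, hL12⟩ := exists_skew r1 (l1 + l2) hl (by rw [hr1]; linarith)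
    rw [hr1] at hL2
    have hL1 : s.L1 = min l1 l2 := by linarith
    refine ⟨s, hfix.ergodic hexp.ergodic_gA, Or.inr (by linarith), ?_, hL12⟩
    rw [hL1, hL2, max_eq_right min_le_max]
  · refine ⟨rotSk r1 √2, rotSk_ergodic r1, Or.inl (c_zero_of fun _ _ _ => rfl), ?_⟩
    have hL2 : (rotSk r1 √2).L2 = max l1 l2 := by rw [Sk.L2_eq]; exact hr1
    have hL1 : (rotSk r1 √2).L1 = 0 := by
      rw [Sk.L1_eq]
      have : ∀ z, (rotSk r1 √2).κ z = 1 := fun _ => rfl
      simp [this]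
    rw [hL1, hL2, zero_add]
    exact ⟨max_eq_right hM.le, by linarith⟩
  · obtain ⟨r2, hr2⟩ := exists_base _ hm
    refine ⟨prodSk r1 r2, prodSk_ergodic r1 r2, Or.inl (c_zero_of fun _ _ _ => rfl), ?_⟩
    have hL2 : (prodSk r1 r2).L2 = max l1 l2 := by rw [Sk.L2_eq]; exact hr1
    have hL1 : (prodSk r1 r2).L1 = min l1 l2 := by
      rw [Sk.L1_eq]
      have e1 : ∀ x, ∫ t in (0 : ℝ)..(prodSk r1 r2).m, Real.negMulLog ((prodSk r1 r2).κ (x, t))
          = min l1 l2 := fun x => hr2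
      simp only [e1]
      rw [intervalIntegral.integral_const_mul]
      have e2 : ∫ x in (0 : ℝ)..(prodSk r1 r2).d, (prodSk r1 r2).p x = 1 := by
        show ∫ x in (0 : ℝ)..r1.d, r1.p x = 1
        have := r1.G_add_d 0
        unfold Sg.G at this
        simpa using this
      rw [e2, mul_one]
    rw [hL1, hL2]
    exact ⟨max_eq_right min_le_max, by linarith⟩

end Pool.Agent.H165R3
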