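import Pool.Agent.H165R3.Base
import Pool.Agent.H165R3.BPE

/-!
# Nonuniform hyperbolicity of skew products (no ergodicity assumed)
-/

set_option autoImplicit false

open Set Filter Topology MeasureTheory Function
open scoped ContDiff ENNReal

namespace Pool.Agent.H165R3

/-- the conorm `inf {‖A v‖ : ‖v‖ = 1}` of a linear map of the plane -/
noncomputable def conorm (A : ℝ × ℝ →L[ℝ] ℝ × ℝ) : ℝ := ⨅ v : {v : ℝ × ℝ // ‖v‖ = 1}, ‖A v.1‖

lemma conorm_le_b (a c b : ℝ) : conorm (tri a c b) ≤ |b| := by
  have h : ‖((0 : ℝ), (1 : ℝ))‖ = 1 := by simp [Prod.norm_def]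
  refine (ciInf_le ⟨0, ?_⟩ (⟨(0, 1), h⟩ : {v : ℝ × ℝ // ‖v‖ = 1})).trans ?_
  · rintro _ ⟨v, rfl⟩
    exact norm_nonneg _
  · simp [Prod.norm_def]

lemma conorm_ge (a c b : ℝ) (ha : 0 < a) (hb : 0 < b) :
    (1 / a + |c| / (a * b) + 1 / b)⁻¹ ≤ conorm (tri a c b) := by
  have : Nonempty {v : ℝ × ℝ // ‖v‖ = 1} := ⟨⟨(0, 1), by simp [Prod.norm_def]⟩⟩
  refine le_ciInf fun v => ?_
  have h1 : v.1 = tri (1 / a) (-c / (a * b)) (1 / b) (tri a c b v.1) := by
    have := (triE a c b ha.ne' hb.ne').symm_apply_apply v.1
    exact this.symm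
  have h2 : ‖v.1‖ ≤ (1 / a + |c| / (a * b) + 1 / b) * ‖tri a c b v.1‖ := by
    conv_lhs => rw [h1]
    refine (ContinuousLinearMap.le_opNorm _ _).trans ?_
    refine mul_le_mul_of_nonneg_right ?_ (norm_nonneg _)
    refine (Sk.tri_norm_le _ _ _).trans (le_of_eq ?_)
    have e1 : |1 / a| = 1 / a := abs_of_pos (one_div_pos.mpr ha)
    have e2 : |1 / b| = 1 / b := abs_of_pos (one_div_pos.mpr hb)
    have e3 : |-c / (a * b)| = |c| / (a * b) := by
      rw [abs_div, abs_neg, abs_of_pos (mul_pos ha hb)]
    rw [e1, e2, e3]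
  rw [v.2] at h2
  have h3 : 0 < 1 / a + |c| / (a * b) + 1 / b := by positivity
  rw [inv_le_iff_one_le_mul₀ h3]
  linarith

namespace Sk

variable {s : Sk}

/-- pointwise computation of the two exponents -/
lemma exps_pt {z : ℝ × ℝ} {l1 l2 : ℝ}
    (hA : Tendsto (fun n : ℕ => (n : ℝ)⁻¹ * ∑ k ∈ Finset.range n, Real.log (s.a (s.F^[k] z)))
      atTop (𝓝 l2))
    (hB : Tendsto (fun n : ℕ => (n : ℝ)⁻¹ * ∑ k ∈ Finset.range n, Real.log (s.b (s.F^[k] z)))
      atTop (𝓝 l1)) (hlt : l1 < l2) :
    Tendsto (fun n : ℕ => (1 / (n : ℝ)) * Real.log ‖fderiv ℝ (s.F^[n]) z‖) atTop (𝓝 l2) ∧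
    Tendsto (fun n : ℕ => (1 / (n : ℝ)) * Real.log (conorm (fderiv ℝ (s.F^[n]) z))) atTop
      (𝓝 l1) := by
  obtain ⟨C, hC0, hC⟩ := per_bdd s.c_cont s.c_per1 s.c_per2
  have hder : ∀ n, fderiv ℝ (s.F^[n]) z = tri (s.aN n z) (s.cN n z) (s.bN n z) :=
    fun n => (s.F_iter_fderiv n z).fderiv
  have haN : ∀ n, 0 < s.aN n z := fun n => Finset.prod_pos fun _ _ => s.a_pos _
  have hbN : ∀ n, 0 < s.bN n z := fun n => Finset.prod_pos fun _ _ => s.b_pos _
  set SA : ℕ → ℝ := fun n => ∑ k ∈ Finset.range n, Real.log (s.a (s.F^[k] z)) with hSA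
  set SB : ℕ → ℝ := fun n => ∑ k ∈ Finset.range n, Real.log (s.b (s.F^[k] z)) with hSB
  have haE : ∀ n, s.aN n z = Real.exp (SA n) := fun n => s.aN_exp n z
  have hbE : ∀ n, s.bN n z = Real.exp (SB n) := fun n => s.bN_exp n z
  have hcb : ∀ n, |s.cN n z| ≤ Real.exp (SB n)
      * ∑ k ∈ Finset.range n, C * Real.exp (SA k - SB (k + 1)) := by
    intro n
    have h := s.cN_bound hC n z
    rw [hbE] at h
    refine h.trans (le_of_eq ?_)
    congr 1
    refine Finset.sum_congr rfl fun k _ => ?_
    rw [haE, hbE, ← Real.exp_sub]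
  constructor
  · have h1 := seq_limit (SA := SA) (SB := SB) (cc := fun n => s.cN n z)
      (Nn := fun n => ‖fderiv ℝ (s.F^[n]) z‖) hC0 hA hB hcb (Or.inr hlt)
      (fun n => by
        rw [← haE, hder]
        exact (le_abs_self _).trans (tri_norm_ge_a _ _ _))
      (fun n => by
        rw [← hbE, hder]
        exact (le_abs_self _).trans (tri_norm_ge_b _ _ _))
      (fun n => by
        rw [← haE, ← hbE, hder]
        have h3 := tri_norm_le (s.aN n z) (s.cN n z) (s.bN n z)
        rw [abs_of_pos (haN n), abs_of_pos (hbN n)] at h3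
        exact h3)
    rw [max_eq_right hlt.le] at h1
    exact h1
  · obtain ⟨Ca, hCa0, hCa⟩ := per_bdd (u := fun z => Real.log (s.a z))
      (s.a_cont.log fun z => (s.a_pos z).ne') (fun x y => by rw [s.a_per1])
      (fun x y => by rw [s.a_per2])
    obtain ⟨Cb, hCb0, hCb⟩ := per_bdd (u := fun z => Real.log (s.b z))
      (s.b_cont.log fun z => (s.b_pos z).ne') (fun x y => by rw [s.b_per1])
      (fun x y => by rw [s.b_per2])
    set Mn : ℕ → ℝ := fun n => 1 / s.aN n z + |s.cN n z| / (s.aN n z * s.bN n z) + 1 / s.bN n z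
      with hMn
    have hMpos : ∀ n, 0 < Mn n := fun n => by
      have := haN n
      have := hbN n
      simp only [hMn]
      positivity
    have h1 := seq_limit (SA := fun n => -SB n) (SB := fun n => -SA n)
      (cc := fun n => s.cN n z / (s.aN n z * s.bN n z)) (Nn := Mn)
      (C := C * Real.exp (Ca + Cb)) (L1 := -l2) (L2 := -l1) (by positivity)
      (by
        have := hB.neg
        refine this.congr fun n => ?_
        simp only [hSB]; ring)
      (by
        have := hA.neg
        refine this.congr fun n => ?_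
        simp only [hSA]; ring)
      (fun n => by
        have e0 : 0 < s.aN n z * s.bN n z := mul_pos (haN n) (hbN n)
        rw [abs_div, abs_of_pos e0, div_le_iff₀ e0]
        refine (hcb n).trans ?_
        have e1 : Real.exp (-SA n) * (∑ k ∈ Finset.range n,
            C * Real.exp (Ca + Cb) * Real.exp (-SB k - -SA (k + 1))) * (s.aN n z * s.bN n z)
            = Real.exp (SB n) * ∑ k ∈ Finset.range n,
            C * Real.exp (Ca + Cb) * Real.exp (-SB k - -SA (k + 1)) := by
          rw [haE, hbE, Real.exp_neg]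
          have := (Real.exp_pos (SA n)).ne'
          field_simp
        rw [e1]
        refine mul_le_mul_of_nonneg_left (Finset.sum_le_sum fun k _ => ?_) (Real.exp_pos _).le
        rw [mul_assoc, ← Real.exp_add]
        refine mul_le_mul_of_nonneg_left (Real.exp_le_exp.mpr ?_) hC0
        have e2 : SA (k + 1) = SA k + Real.log (s.a (s.F^[k] z)) := Finset.sum_range_succ _ _
        have e3 : SB (k + 1) = SB k + Real.log (s.b (s.F^[k] z)) := Finset.sum_range_succ _ _
        have e4 := abs_le.mp (hCa (s.F^[k] z))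
        have e5 := abs_le.mp (hCb (s.F^[k] z))
        rw [e2, e3]
        linarith [e4.1, e5.1])
      (Or.inr (by linarith))
      (fun n => by
        simp only [hMn]
        rw [Real.exp_neg, ← hbE, ← one_div]
        have := haN n
        have := hbN n
        have e3 : 0 ≤ 1 / s.aN n z + |s.cN n z| / (s.aN n z * s.bN n z) := by positivity
        linarith)
      (fun n => by
        simp only [hMn]
        rw [Real.exp_neg, ← haE, ← one_div]
        have := haN n
        have := hbN n
        have e3 : 0 ≤ 1 / s.bN n z + |s.cN n z| / (s.aN n z * s.bN n z) := by positivity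
        linarith)
      (fun n => by
        simp only [hMn]
        rw [Real.exp_neg, Real.exp_neg, ← haE, ← hbE, abs_div,
          abs_of_pos (mul_pos (haN n) (hbN n)), one_div, one_div]
        linarith)
    rw [max_eq_right (by linarith)] at h1
    have h2 := h1.neg
    rw [neg_neg] at h2
    refine tendsto_of_tendsto_of_tendsto_of_le_of_le' h2 hB ?_ ?_
    · filter_upwards [eventually_gt_atTop 0] with n hn
      have hn' : (0 : ℝ) < n := by exact_mod_cast hn
      rw [hder]
      have e1 := conorm_ge (s.aN n z) (s.cN n z) (s.bN n z) (haN n) (hbN n)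
      have e2 := Real.log_le_log (inv_pos.mpr (hMpos n)) e1
      rw [Real.log_inv] at e2
      have e3 : 0 < 1 / (n : ℝ) := by positivity
      have := mul_le_mul_of_nonneg_left e2 e3.le
      linarith
    · filter_upwards [eventually_gt_atTop 0] with n hn
      have hn' : (0 : ℝ) < n := by exact_mod_cast hn
      rw [hder, one_div]
      refine mul_le_mul_of_nonneg_left ?_ (by positivity)
      have e1 := conorm_le_b (s.aN n z) (s.cN n z) (s.bN n z)
      have e0 := conorm_ge (s.aN n z) (s.cN n z) (s.bN n z) (haN n) (hbN n)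
      rw [abs_of_pos (hbN n)] at e1
      have e2 := Real.log_le_log ((inv_pos.mpr (hMpos n)).trans_le e0) e1
      have e5 : Real.log (s.bN n z) = SB n := by rw [hbE, Real.log_exp]
      rw [e5] at e2
      exact e2

/-- weighted sums over the branches -/
lemma cv_w (hm : s.m = 1) (Θ om : ℝ × ℝ → ℝ) (hΘ : Continuous Θ) (hom : Continuous om)
    (h1 : ∀ x y, Θ (x + 1, y) = Θ (x, y)) (h2 : ∀ x y, om (x + s.d, y) = om (x, y)) :
    ∫ x in (0 : ℝ)..s.d, (∫ t in (0 : ℝ)..s.m, Θ (x, t) * om (x, t)) * s.p x
      = ∫ x in (0 : ℝ)..1, ∫ y in (0 : ℝ)..1,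
        Θ (x, y) * ∑ i ∈ Finset.range s.d, om (x + i, y) * s.p (x + i) := by
  rw [hm, Nat.cast_one]
  have hc : Continuous fun x : ℝ => ∫ t in (0 : ℝ)..1, Θ (x, t) * om (x, t) := by
    apply intervalIntegral.continuous_parametric_intervalIntegral_of_continuous'
    exact hΘ.mul hom
  have e1 : ∀ (x y : ℝ) (n : ℕ), Θ (x + n, y) = Θ (x, y) := fun x y n => by
    have := per_int (u := fun t => Θ (t, y)) (fun t => h1 t y) x n
    simpa using this
  have h3 := period_sum (fun x => (∫ t in (0 : ℝ)..1, Θ (x, t) * om (x, t)) * s.p x) s.d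
    (fun x => by simp only [e1, h2, s.p_add_d]) (hc.mul s.p_cont) 0
  rw [zero_add] at h3
  rw [h3, ← intervalIntegral.integral_finsetSum]
  swap
  · intro i _
    exact ((hc.mul s.p_cont).comp (continuous_add_const (i : ℝ))).intervalIntegrable _ _
  refine intervalIntegral.integral_congr fun x _ => ?_
  simp only [e1]
  simp_rw [← intervalIntegral.integral_mul_const]
  rw [← intervalIntegral.integral_finsetSum]
  swap
  · intro i _
    apply Continuous.intervalIntegrable
    exact ((hΘ.comp (by fun_prop)).mul (hom.comp (by fun_prop))).mul continuous_const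
  refine intervalIntegral.integral_congr fun t _ => ?_
  rw [Finset.mul_sum]
  exact Finset.sum_congr rfl fun i _ => by ring

variable (s) in
/-- conditional fibre exponent -/
noncomputable def J (z : ℝ × ℝ) : ℝ :=
  ∑ i ∈ Finset.range s.d, Real.negMulLog (s.κ (z.1 + i, z.2)) * s.p (z.1 + i)

variable (s) in
/-- logarithm of the fibre derivative -/
noncomputable def lb (z : ℝ × ℝ) : ℝ := Real.log (s.b z)

lemma J_cont : Continuous s.J := by
  unfold J
  refine continuous_finsetSum _ fun i _ => ?_
  exact (Real.continuous_negMulLog.comp (s.kappa_cont.comp (by fun_prop))).mul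
    (s.p_cont.comp (by fun_prop))

lemma lb_cont : Continuous s.lb := s.b_cont.log fun z => (s.b_pos z).ne'
lemma lb_per1 (x y : ℝ) : s.lb (x + 1, y) = s.lb (x, y) := by unfold lb; rw [s.b_per1]
lemma lb_per2 (x y : ℝ) : s.lb (x, y + 1) = s.lb (x, y) := by unfold lb; rw [s.b_per2]

lemma J_per1 (x y : ℝ) : s.J (x + 1, y) = s.J (x, y) := by
  unfold J
  simp only
  have h : ∀ i : ℕ, x + 1 + (i : ℝ) = x + (i + 1 : ℕ) := by intro i; push_cast; ring
  simp only [h]
  have h2 := Finset.sum_range_succ (fun i : ℕ => Real.negMulLog (s.κ (x + i, y)) * s.p (x + i)) s.d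
  have h3 := Finset.sum_range_succ'
    (fun i : ℕ => Real.negMulLog (s.κ (x + i, y)) * s.p (x + i)) s.d
  rw [h2] at h3
  simp only [s.kappa_add_d, s.p_add_d, Nat.cast_zero, add_zero] at h3
  linarith

lemma J_per2 (hm : s.m = 1) (x y : ℝ) : s.J (x, y + 1) = s.J (x, y) := by
  unfold J
  have := s.kappa_add_m
  rw [hm] at this
  simp only [Nat.cast_one] at this
  simp only [this]

/-- integration of the fibre exponent against observables of the image point -/
lemma int_lb (hm : s.m = 1) (φ : T2 → ℝ) (hφ : Continuous φ) :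
    ∫ w, φ (s.f w) * tl s.lb w = ∫ w, φ w * tl s.J w := by
  have hc1 := tl_cont (lb_cont (s := s)) lb_per1 lb_per2
  have hc2 := tl_cont (J_cont (s := s)) J_per1 (J_per2 hm)
  rw [integral_T2 (fun w => φ (s.f w) * tl s.lb w) ((hφ.comp s.f_cont).mul hc1),
    integral_T2 (fun w => φ w * tl s.J w) (hφ.mul hc2)]
  have e1 : ∀ z, tl s.lb (pr z) = s.lb z := tl_pr lb_per1 lb_per2
  have e2 : ∀ z, tl s.J (pr z) = s.J z := tl_pr J_per1 (J_per2 hm)
  simp only [f_pr, e1, e2]
  have hlogc : Continuous fun z => Real.log (s.κ z) := s.kappa_cont.log fun z => (s.hκ z).ne'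
  have hφp : Continuous fun z : ℝ × ℝ => φ (pr z) := hφ.comp pr_cont
  have p1 : ∀ (x y : ℝ) (n : ℕ), φ (pr (x + n, y)) = φ (pr (x, y)) := fun x y n => by
    have := pr_add_left x y n
    push_cast at this
    rw [this]
  have p2 : ∀ (x y : ℝ) (n : ℕ), φ (pr (x, y + n)) = φ (pr (x, y)) := fun x y n => by
    have := pr_add_right x y n
    push_cast at this
    rw [this]
  have h3 := s.cv (fun z => φ (pr z) * (-Real.log (s.κ z))) (hφp.mul hlogc.neg)
    (fun x y => by simp only [s.kappa_add_d, p1]) (fun x y => by simp only [s.kappa_add_m, p2])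
  have h4 := cv_w (s := s) hm (fun z => φ (pr z)) (fun z => -Real.log (s.κ z) * s.κ z) hφp
    (hlogc.neg.mul s.kappa_cont) (fun x y => by
      have := p1 x y 1
      rw [Nat.cast_one] at this
      exact this) (fun x y => by simp only [s.kappa_add_d])
  have h5 : ∀ z, s.lb z = -Real.log (s.κ (s.F z)) := by
    intro z
    unfold lb b
    rw [one_div, Real.log_inv]
  simp only [h5]
  rw [h3]
  have h6 : ∀ x t, φ (pr (x, t)) * -Real.log (s.κ (x, t)) * s.κ (x, t)
      = φ (pr (x, t)) * (-Real.log (s.κ (x, t)) * s.κ (x, t)) := fun x t => by ring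
  simp only [h6]
  rw [h4]
  refine intervalIntegral.integral_congr fun x _ => ?_
  refine intervalIntegral.integral_congr fun t _ => ?_
  simp only [J]
  congr 1
  refine Finset.sum_congr rfl fun i _ => ?_
  unfold Real.negMulLog
  ring

/-- the same for invariant sets -/
lemma inv_int (hm : s.m = 1) {B : Set T2} (hB : MeasurableSet B) (hinv : s.f ⁻¹' B = B) :
    ∫ w in B, tl s.lb w = ∫ w in B, tl s.J w := by
  have hc1 := tl_cont (lb_cont (s := s)) lb_per1 lb_per2
  have hc2 := tl_cont (J_cont (s := s)) J_per1 (J_per2 hm)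
  obtain ⟨C1, hC10, hC1⟩ := per_bdd (lb_cont (s := s)) lb_per1 lb_per2
  obtain ⟨C2, hC20, hC2⟩ := per_bdd (J_cont (s := s)) J_per1 (J_per2 hm)
  set C := C1 + C2 with hC
  have b1 : ∀ w, 0 ≤ C + tl s.lb w := fun w => by
    have := abs_le.mp (hC1 (rep w.1, rep w.2))
    show 0 ≤ C + s.lb (rep w.1, rep w.2)
    linarith [this.1]
  have b2 : ∀ w, 0 ≤ C + tl s.J w := fun w => by
    have := abs_le.mp (hC2 (rep w.1, rep w.2))
    show 0 ≤ C + s.J (rep w.1, rep w.2)
    linarith [this.1]
  have i1 : Integrable (fun w => C + tl s.lb w) (volume : Measure T2) :=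
    (continuous_const.add hc1).integrable_of_hasCompactSupport (HasCompactSupport.of_compactSpace _)
  have i2 : Integrable (fun w => C + tl s.J w) (volume : Measure T2) :=
    (continuous_const.add hc2).integrable_of_hasCompactSupport (HasCompactSupport.of_compactSpace _)
  set m1 : Measure T2 := Measure.map s.f
    ((volume : Measure T2).withDensity fun w => ENNReal.ofReal (C + tl s.lb w)) with hm1
  set m2 : Measure T2 := (volume : Measure T2).withDensity fun w => ENNReal.ofReal (C + tl s.J w)
    with hm2
  have f0 : IsFiniteMeasure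
      ((volume : Measure T2).withDensity fun w => ENNReal.ofReal (C + tl s.lb w)) :=
    isFiniteMeasure_withDensity_ofReal i1.2
  have f1 : IsFiniteMeasure m1 := Measure.isFiniteMeasure_map _ _
  have f2 : IsFiniteMeasure m2 := isFiniteMeasure_withDensity_ofReal i2.2
  have hmeas1 : Measurable fun w => (C + tl s.lb w).toNNReal :=
    (continuous_const.add hc1).measurable.real_toNNReal
  have hmeas2 : Measurable fun w => (C + tl s.J w).toNNReal :=
    (continuous_const.add hc2).measurable.real_toNNReal
  have heq : m1 = m2 := by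
    apply MeasureTheory.ext_of_forall_integral_eq_of_IsFiniteMeasure
    intro φ
    rw [hm1, hm2, integral_map s.f_cont.measurable.aemeasurable
      φ.continuous.measurable.aestronglyMeasurable]
    have g1 : ∀ u : T2 → ℝ, ∫ w, u w ∂((volume : Measure T2).withDensity
        fun w => ENNReal.ofReal (C + tl s.lb w)) = ∫ w, (C + tl s.lb w) * u w := by
      intro u
      have := integral_withDensity_eq_integral_smul (μ := (volume : Measure T2)) hmeas1 u
      refine this.trans (integral_congr_ae (Eventually.of_forall fun w => ?_))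
      simp only [NNReal.smul_def, Real.coe_toNNReal _ (b1 w), smul_eq_mul]
    have g2 : ∀ u : T2 → ℝ, ∫ w, u w ∂((volume : Measure T2).withDensity
        fun w => ENNReal.ofReal (C + tl s.J w)) = ∫ w, (C + tl s.J w) * u w := by
      intro u
      have := integral_withDensity_eq_integral_smul (μ := (volume : Measure T2)) hmeas2 u
      refine this.trans (integral_congr_ae (Eventually.of_forall fun w => ?_))
      simp only [NNReal.smul_def, Real.coe_toNNReal _ (b2 w), smul_eq_mul]
    rw [g1, g2]
    have j : ∀ u : T2 → ℝ, Continuous u → Integrable u (volume : Measure T2) := fun u hu =>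
      hu.integrable_of_hasCompactSupport (HasCompactSupport.of_compactSpace _)
    have e1 : ∫ w, (C + tl s.lb w) * φ (s.f w)
        = (∫ w, C * φ (s.f w)) + ∫ w, φ (s.f w) * tl s.lb w := by
      rw [← integral_add (f := fun w => C * φ (s.f w)) (g := fun w => φ (s.f w) * tl s.lb w)
        (j _ (continuous_const.mul (φ.continuous.comp s.f_cont)))
        (j _ ((φ.continuous.comp s.f_cont).mul hc1))]
      exact integral_congr_ae (Eventually.of_forall fun w => by ring)
    have e2 : ∫ w, (C + tl s.J w) * φ w = (∫ w, C * φ w) + ∫ w, φ w * tl s.J w := by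
      rw [← integral_add (f := fun w => C * φ w) (g := fun w => φ w * tl s.J w)
        (j _ (continuous_const.mul φ.continuous))
        (j _ (φ.continuous.mul hc2))]
      exact integral_congr_ae (Eventually.of_forall fun w => by ring)
    rw [e1, e2, int_lb hm _ φ.continuous]
    congr 1
    have := integral_map (μ := (volume : Measure T2)) s.f_cont.measurable.aemeasurable
      (f := fun w => C * φ w) (continuous_const.mul φ.continuous).measurable.aestronglyMeasurable
    rw [s.f_mp.map_eq] at this
    exact this.symm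
  have h1 : m1 B = m2 B := by rw [heq]
  rw [hm1, hm2, Measure.map_apply s.f_cont.measurable hB, hinv, withDensity_apply _ hB,
    withDensity_apply _ hB] at h1
  have h2 : ∫ w in B, (C + tl s.lb w) = ∫ w in B, (C + tl s.J w) := by
    rw [integral_eq_lintegral_of_nonneg_ae (Eventually.of_forall b1)
      i1.aestronglyMeasurable.restrict, integral_eq_lintegral_of_nonneg_ae
      (Eventually.of_forall b2) i2.aestronglyMeasurable.restrict, h1]
  have j1 : Integrable (tl s.lb) (volume : Measure T2) :=
    hc1.integrable_of_hasCompactSupport (HasCompactSupport.of_compactSpace _)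
  have j2 : Integrable (tl s.J) (volume : Measure T2) :=
    hc2.integrable_of_hasCompactSupport (HasCompactSupport.of_compactSpace _)
  rw [integral_add (integrable_const _) j1.integrableOn,
    integral_add (integrable_const _) j2.integrableOn] at h2
  linarith

/-- **Nonuniform hyperbolicity**, without ergodicity -/
theorem nuh (hm : s.m = 1) (hJ : ∀ᵐ w ∂(volume : Measure T2), tl s.J w < 0) {la : ℝ} (hla : 0 < la)
    (ha : ∀ z, Real.log (s.a z) = la) :
    ∀ᵐ w ∂(volume : Measure T2), ∀ z : ℝ × ℝ, pr z = w → ∃ χm χp : ℝ, χm < 0 ∧ 0 < χp ∧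
      Tendsto (fun n : ℕ => (1 / (n : ℝ)) * Real.log ‖fderiv ℝ (s.F^[n]) z‖) atTop (𝓝 χp) ∧
      Tendsto (fun n : ℕ => (1 / (n : ℝ)) * Real.log (conorm (fderiv ℝ (s.F^[n]) z))) atTop
        (𝓝 χm) := by
  have hc1 := tl_cont (lb_cont (s := s)) lb_per1 lb_per2
  have hc2 := tl_cont (J_cont (s := s)) J_per1 (J_per2 hm)
  have j1 : Integrable (tl s.lb) (volume : Measure T2) :=
    hc1.integrable_of_hasCompactSupport (HasCompactSupport.of_compactSpace _)
  have j2 : Integrable (tl s.J) (volume : Measure T2) :=
    hc2.integrable_of_hasCompactSupport (HasCompactSupport.of_compactSpace _)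
  obtain ⟨C1, hC10, hC1⟩ := per_bdd (lb_cont (s := s)) lb_per1 lb_per2
  have hb := BPE.birkhoff s.f_mp (tl s.lb) hc1.measurable C1 (fun w => hC1 _)
  set g := (volume : Measure T2)[tl s.lb | MeasurableSpace.invariants s.f] with hg
  have hle := MeasurableSpace.invariants_le s.f
  have hneg : ∀ᵐ w ∂(volume : Measure T2), g w < 0 := by
    set B : Set T2 := {w | 0 ≤ g w} with hBdef
    have hBi : MeasurableSet[MeasurableSpace.invariants s.f] B := by
      have hgm : Measurable[MeasurableSpace.invariants s.f] g :=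
        stronglyMeasurable_condExp.measurable
      exact hgm measurableSet_Ici
    obtain ⟨hBm, hBinv⟩ := MeasurableSpace.measurableSet_invariants.1 hBi
    have h1 := setIntegral_condExp hle j1 hBi
    have h2 : 0 ≤ ∫ w in B, tl s.lb w := by
      rw [← h1]
      exact setIntegral_nonneg hBm fun w hw => hw
    rw [inv_int hm hBm hBinv] at h2
    have h3 : volume B = 0 := by
      by_contra hne
      have h4 : ∫ w in B, tl s.J w < 0 := by
        have h5 : 0 < ∫ w in B, - tl s.J w := by
          rw [setIntegral_pos_iff_support_of_nonneg_ae]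
          · rw [pos_iff_ne_zero]
            intro h6
            apply hne
            have h7 : volume (B \ (support (fun w => - tl s.J w) ∩ B)) = 0 := by
              refine measure_mono_null (t := {w | ¬ tl s.J w < 0}) ?_ hJ
              rintro w ⟨hw1, hw2⟩
              intro hw3
              apply hw2
              refine ⟨fun h0 => ?_, hw1⟩
              have h00 : - tl s.J w = 0 := h0
              linarith
            have h8 : volume B ≤ volume (B \ (support (fun w => - tl s.J w) ∩ B))
                + volume (support (fun w => - tl s.J w) ∩ B) := by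
              refine (measure_mono ?_).trans (measure_union_le _ _)
              intro w hw
              by_cases h9 : w ∈ support (fun w => - tl s.J w) ∩ B
              · exact Or.inr h9
              · exact Or.inl ⟨hw, h9⟩
            rw [h7, h6, add_zero] at h8
            exact le_antisymm h8 (zero_le)
          · filter_upwards [ae_restrict_of_ae hJ] with w hw
            simp only [Pi.zero_apply]
            linarith
          · exact j2.neg.integrableOn
        rw [integral_neg] at h5
        linarith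
      linarith
    have h4 := measure_eq_zero_iff_ae_notMem.1 h3
    filter_upwards [h4] with w hw
    exact not_le.mp hw
  filter_upwards [hb.and hneg] with w hw z hzw
  subst hzw
  obtain ⟨hz1, hz2⟩ := hw
  have e1 : ∀ z, tl s.lb (pr z) = s.lb z := tl_pr lb_per1 lb_per2
  simp only [f_iter_pr, e1] at hz1
  have hA : Tendsto (fun n : ℕ => (n : ℝ)⁻¹ * ∑ k ∈ Finset.range n, Real.log (s.a (s.F^[k] z)))
      atTop (𝓝 la) := by
    refine tendsto_const_nhds.congr' ?_
    filter_upwards [eventually_gt_atTop 0] with n hn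
    simp only [ha, Finset.sum_const, Finset.card_range, nsmul_eq_mul]
    have : (n : ℝ) ≠ 0 := by exact_mod_cast hn.ne'
    field_simp
  have := exps_pt (s := s) (z := z) hA hz1 (hz2.trans hla)
  exact ⟨g (pr z), la, hz2, hla, this.1, this.2⟩

end Sk

end Pool.Agent.H165R3
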