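import Mathlib

/-!
# Skew products of the two-torus given by their inverse branches
-/

set_option autoImplicit false

open Set Filter Topology MeasureTheory
open scoped ContDiff

namespace Pool.Agent.H165R3

/-- a continuous function with `u (x + N) = u x + 1` is onto -/
lemma surj_of_step (u : ℝ → ℝ) (hc : Continuous u) (N : ℕ) (h : ∀ x, u (x + N) = u x + 1) :
    Function.Surjective u := by
  have h1 : ∀ n : ℕ, u (N * n) = u 0 + n := by
    intro n
    induction n with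
    | zero => simp
    | succ n ih =>
      have := h (N * n)
      push_cast
      rw [show (N : ℝ) * (n + 1) = N * n + N by ring, this, ih]
      ring
  have h2 : ∀ n : ℕ, u (-(N * n)) = u 0 - n := by
    intro n
    induction n with
    | zero => simp
    | succ n ih =>
      have := h (-(N * (n + 1)))
      rw [show -((N : ℝ) * (n + 1)) + N = -(N * n) by ring, ih] at this
      push_cast
      linarith
  intro y
  obtain ⟨n, hn⟩ := exists_nat_ge (|y| + |u 0|)
  have h3 := abs_le.mp (le_refl |y|)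
  have h4 := abs_le.mp (le_refl |u 0|)
  exact mem_range_of_exists_le_of_exists_ge hc ⟨-(N * n), by rw [h2]; linarith⟩
    ⟨N * n, by rw [h1]; linarith⟩

/-- the lower triangular map `(u, v) ↦ (a u, c u + b v)` -/
noncomputable def tri (a c b : ℝ) : ℝ × ℝ →L[ℝ] ℝ × ℝ :=
  (a • ContinuousLinearMap.fst ℝ ℝ ℝ).prod
    (c • ContinuousLinearMap.fst ℝ ℝ ℝ + b • ContinuousLinearMap.snd ℝ ℝ ℝ)

@[simp] lemma tri_apply (a c b : ℝ) (z : ℝ × ℝ) : tri a c b z = (a * z.1, c * z.1 + b * z.2) := rfl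

lemma tri_comp (a c b a' c' b' : ℝ) :
    (tri a c b).comp (tri a' c' b') = tri (a * a') (c * a' + b * c') (b * b') := by
  apply ContinuousLinearMap.ext
  intro z
  simp only [ContinuousLinearMap.comp_apply, tri_apply, Prod.mk.injEq]
  constructor <;> ring

/-- invertible triangular maps -/
noncomputable def triE (a c b : ℝ) (ha : a ≠ 0) (hb : b ≠ 0) : (ℝ × ℝ) ≃L[ℝ] (ℝ × ℝ) :=
  ContinuousLinearEquiv.equivOfInverse (tri a c b) (tri (1 / a) (-c / (a * b)) (1 / b))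
    (fun z => by simp only [tri_apply]; ext <;> (field_simp; try ring))
    (fun z => by simp only [tri_apply]; ext <;> (field_simp; try ring))

lemma triE_coe (a c b : ℝ) (ha : a ≠ 0) (hb : b ≠ 0) :
    (triE a c b ha hb : (ℝ × ℝ) →L[ℝ] (ℝ × ℝ)) = tri a c b := rfl

lemma triE_symm_coe (a c b : ℝ) (ha : a ≠ 0) (hb : b ≠ 0) :
    ((triE a c b ha hb).symm : (ℝ × ℝ) →L[ℝ] (ℝ × ℝ)) = tri (1 / a) (-c / (a * b)) (1 / b) := rfl

/-- Data of the inverse `(x, y) ↦ (G x, k (x, y))` of (the lift of) a skew product of the torus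
which preserves the area. -/
structure Sk where
  d : ℕ
  m : ℕ
  hd : 0 < d
  hm : 0 < m
  G : ℝ → ℝ
  p : ℝ → ℝ
  k : ℝ × ℝ → ℝ
  κ : ℝ × ℝ → ℝ
  hG : ContDiff ℝ ∞ G
  hGp : ∀ x, HasDerivAt G (p x) x
  hp : ∀ x, 0 < p x
  hGd : ∀ x, G (x + d) = G x + 1
  hk : ContDiff ℝ ∞ k
  hkκ : ∀ x y, HasDerivAt (fun t => k (x, t)) (κ (x, y)) y
  hκ : ∀ z, 0 < κ z
  hkd : ∀ x y, k (x + d, y) = k (x, y)
  hkm : ∀ x y, k (x, y + m) = k (x, y) + 1
  hsum : ∀ x y, ∑ i ∈ Finset.range d, ∑ j ∈ Finset.range m, p (x + i) * κ (x + i, y + j) = 1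

namespace Sk

variable (s : Sk)

lemma G_strictMono : StrictMono s.G :=
  strictMono_of_deriv_pos fun x => by rw [(s.hGp x).deriv]; exact s.hp x

lemma G_surj : Function.Surjective s.G := surj_of_step s.G s.hG.continuous s.d s.hGd

lemma k_strictMono (x : ℝ) : StrictMono fun y => s.k (x, y) :=
  strictMono_of_deriv_pos fun y => by rw [(s.hkκ x y).deriv]; exact s.hκ _

lemma k_surj (x : ℝ) : Function.Surjective fun y => s.k (x, y) :=
  surj_of_step _ (s.hk.continuous.comp (by fun_prop)) s.m (s.hkm x)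

/-- the homeomorphism `G` -/
noncomputable def Gh : ℝ ≃ₜ ℝ := (s.G_strictMono.orderIsoOfSurjective s.G s.G_surj).toHomeomorph

lemma Gh_apply (x : ℝ) : s.Gh x = s.G x := rfl

/-- the base map -/
noncomputable def g : ℝ → ℝ := s.Gh.symm

lemma G_g (x : ℝ) : s.G (s.g x) = x := s.Gh.apply_symm_apply x
lemma g_G (x : ℝ) : s.g (s.G x) = x := s.Gh.symm_apply_apply x

/-- the inverse map -/
noncomputable def Psi (z : ℝ × ℝ) : ℝ × ℝ := (s.G z.1, s.k z)

lemma Psi_inj : Function.Injective s.Psi := by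
  rintro ⟨x, y⟩ ⟨x', y'⟩ h
  simp only [Psi, Prod.mk.injEq] at h
  have h1 := s.G_strictMono.injective h.1
  subst h1
  rw [(s.k_strictMono x).injective h.2]

lemma Psi_surj : Function.Surjective s.Psi := by
  rintro ⟨x, y⟩
  obtain ⟨x', rfl⟩ := s.G_surj x
  obtain ⟨y', rfl⟩ := s.k_surj x' y
  exact ⟨(x', y'), rfl⟩

lemma Psi_contDiff : ContDiff ℝ ∞ s.Psi :=
  (s.hG.comp contDiff_fst).prodMk s.hk

/-- the partial derivative of `k` with respect to the first variable -/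
noncomputable def kx (z : ℝ × ℝ) : ℝ := fderiv ℝ s.k z (1, 0)

lemma kx_cont : Continuous s.kx := by
  have h : Continuous (fderiv ℝ s.k) := s.hk.continuous_fderiv (by simp)
  exact h.clm_apply continuous_const

lemma kappa_eq (z : ℝ × ℝ) : s.κ z = fderiv ℝ s.k z (0, 1) := by
  obtain ⟨x, y⟩ := z
  have h1 : HasFDerivAt s.k (fderiv ℝ s.k (x, y)) (x, y) :=
    (s.hk.differentiable (by simp) _).hasFDerivAt
  have h2 : HasDerivAt (fun t : ℝ => (x, t)) ((0 : ℝ), (1 : ℝ)) y :=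
    (hasDerivAt_const y x).prodMk (hasDerivAt_id y)
  have h3 := h1.comp_hasDerivAt y h2
  exact (s.hkκ x y).unique h3

lemma kappa_cont : Continuous s.κ := by
  have h : Continuous (fderiv ℝ s.k) := s.hk.continuous_fderiv (by simp)
  have h2 : Continuous fun z => fderiv ℝ s.k z (0, 1) := h.clm_apply continuous_const
  exact h2.congr fun z => (s.kappa_eq z).symm

lemma p_eq : s.p = deriv s.G := by
  funext x
  exact (s.hGp x).deriv.symm

lemma p_cont : Continuous s.p := by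
  rw [p_eq]
  exact s.hG.continuous_deriv (by simp)

lemma Psi_fderiv (z : ℝ × ℝ) : HasFDerivAt s.Psi (tri (s.p z.1) (s.kx z) (s.κ z)) z := by
  have h1 : HasFDerivAt (fun z : ℝ × ℝ => s.G z.1) (s.p z.1 • ContinuousLinearMap.fst ℝ ℝ ℝ) z :=
    (s.hGp z.1).comp_hasFDerivAt z hasFDerivAt_fst
  have h2 : HasFDerivAt s.k (fderiv ℝ s.k z) z := (s.hk.differentiable (by simp) _).hasFDerivAt
  have h3 : fderiv ℝ s.k z = s.kx z • ContinuousLinearMap.fst ℝ ℝ ℝ
      + s.κ z • ContinuousLinearMap.snd ℝ ℝ ℝ := by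
    apply ContinuousLinearMap.ext
    rintro ⟨u, v⟩
    have : ((u, v) : ℝ × ℝ) = u • ((1, 0) : ℝ × ℝ) + v • ((0, 1) : ℝ × ℝ) := by
      ext <;> simp
    rw [this, map_add, map_smul, map_smul, ← kappa_eq]
    simp [kx, mul_comm]
  rw [h3] at h2
  exact h1.prodMk h2

lemma Psi_open : IsOpenMap s.Psi :=
  isOpenMap_of_hasStrictFDerivAt_equiv
    (f' := fun z => triE (s.p z.1) (s.kx z) (s.κ z) (s.hp _).ne' (s.hκ _).ne')
    fun z => (s.Psi_contDiff.contDiffAt.hasStrictFDerivAt' (s.Psi_fderiv z) (by simp))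

/-- the homeomorphism of the plane -/
noncomputable def Ph : (ℝ × ℝ) ≃ₜ (ℝ × ℝ) :=
  (Equiv.ofBijective s.Psi ⟨s.Psi_inj, s.Psi_surj⟩).toHomeomorphOfContinuousOpen
    s.Psi_contDiff.continuous s.Psi_open

/-- the lift of the skew product -/
noncomputable def F : ℝ × ℝ → ℝ × ℝ := s.Ph.symm

lemma F_Psi (z : ℝ × ℝ) : s.F (s.Psi z) = z := s.Ph.symm_apply_apply z
lemma Psi_F (z : ℝ × ℝ) : s.Psi (s.F z) = z := s.Ph.apply_symm_apply z

/-- the fibre map -/
noncomputable def h (z : ℝ × ℝ) : ℝ := (s.F z).2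

lemma F_fst (z : ℝ × ℝ) : (s.F z).1 = s.g z.1 := by
  have h1 := s.Psi_F z
  have h2 : s.G (s.F z).1 = z.1 := congrArg Prod.fst h1
  rw [← h2, g_G]

lemma F_eq (z : ℝ × ℝ) : s.F z = (s.g z.1, s.h z) := Prod.ext (s.F_fst z) rfl

lemma k_F (z : ℝ × ℝ) : s.k (s.F z) = z.2 := congrArg Prod.snd (s.Psi_F z)

lemma k_gh (z : ℝ × ℝ) : s.k (s.g z.1, s.h z) = z.2 := by rw [← F_eq, k_F]

lemma F_contDiff : ContDiff ℝ ∞ s.F :=
  Homeomorph.contDiff_symm s.Ph
    (f₀' := fun z => triE (s.p z.1) (s.kx z) (s.κ z) (s.hp _).ne' (s.hκ _).ne')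
    (fun z => s.Psi_fderiv z) s.Psi_contDiff

lemma F_cont : Continuous s.F := s.F_contDiff.continuous
lemma h_cont : Continuous s.h := continuous_snd.comp s.F_cont
lemma g_cont : Continuous s.g := s.Gh.symm.continuous

/-- first diagonal entry of the derivative -/
noncomputable def a (z : ℝ × ℝ) : ℝ := 1 / s.p (s.F z).1
/-- second diagonal entry of the derivative -/
noncomputable def b (z : ℝ × ℝ) : ℝ := 1 / s.κ (s.F z)
/-- off-diagonal entry of the derivative -/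
noncomputable def c (z : ℝ × ℝ) : ℝ := -s.kx (s.F z) / (s.p (s.F z).1 * s.κ (s.F z))

lemma a_pos (z : ℝ × ℝ) : 0 < s.a z := one_div_pos.mpr (s.hp _)
lemma b_pos (z : ℝ × ℝ) : 0 < s.b z := one_div_pos.mpr (s.hκ _)

lemma a_cont : Continuous s.a :=
  continuous_const.div (s.p_cont.comp (continuous_fst.comp s.F_cont)) fun z => (s.hp _).ne'
lemma b_cont : Continuous s.b :=
  continuous_const.div (s.kappa_cont.comp s.F_cont) fun z => (s.hκ _).ne'
lemma c_cont : Continuous s.c :=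
  (s.kx_cont.comp s.F_cont).neg.div
    ((s.p_cont.comp (continuous_fst.comp s.F_cont)).mul (s.kappa_cont.comp s.F_cont))
    fun z => (mul_pos (s.hp _) (s.hκ _)).ne'

lemma F_hasFDerivAt (z : ℝ × ℝ) : HasFDerivAt s.F (tri (s.a z) (s.c z) (s.b z)) z := by
  have h1 : HasFDerivAt s.Ph (triE (s.p (s.F z).1) (s.kx (s.F z)) (s.κ (s.F z))
    (s.hp _).ne' (s.hκ _).ne' : (ℝ × ℝ) →L[ℝ] (ℝ × ℝ)) (s.Ph.symm z) := s.Psi_fderiv (s.F z)
  exact h1.of_local_left_inverse s.F_cont.continuousAt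
    (Eventually.of_forall fun y => s.Ph.apply_symm_apply y)

/-! periodicity -/

lemma F_add_one_left (x y : ℝ) : s.F (x + 1, y) = ((s.F (x, y)).1 + s.d, (s.F (x, y)).2) := by
  apply s.Psi_inj
  rw [Psi_F]
  have h1 := s.Psi_F (x, y)
  simp only [Psi, Prod.mk.injEq] at h1
  simp only [Psi, s.hGd, s.hkd, Prod.mk.injEq, Prod.mk.eta]
  rw [h1.1, h1.2]
  simp

lemma F_add_one_right (x y : ℝ) : s.F (x, y + 1) = ((s.F (x, y)).1, (s.F (x, y)).2 + s.m) := by
  apply s.Psi_inj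
  rw [Psi_F]
  have h1 := s.Psi_F (x, y)
  simp only [Psi, Prod.mk.injEq] at h1
  simp only [Psi, s.hkm, Prod.mk.injEq, Prod.mk.eta]
  rw [h1.1, h1.2]
  simp

end Sk

end Pool.Agent.H165R3
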