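import Pool.Agent.H165R3.Torus

/-!
# Synchronisation in the fibres
-/

set_option autoImplicit false

open Set Filter Topology MeasureTheory Function
open scoped ContDiff

namespace Pool.Agent.H165R3

/-- the hypotheses for synchronisation: every fibre map is a circle diffeomorphism fixing `0`,
and no interior point is fixed by all inverse branches over a given base point -/
structure Sk.Fix (s : Sk) : Prop where
  m1 : s.m = 1
  k0 : ∀ x, s.k (x, 0) = 0
  nd : ∀ x, ∀ y ∈ Ioo (0 : ℝ) 1, ∃ i ∈ Finset.range s.d, s.k (x + i, y) ≠ y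

/-- `q y = y (1 - y)` -/
def q (y : ℝ) : ℝ := y * (1 - y)

lemma q_cont : Continuous q := by unfold q; fun_prop
lemma q_nonneg {y : ℝ} (hy : y ∈ Icc (0 : ℝ) 1) : 0 ≤ q y := mul_nonneg hy.1 (by linarith [hy.2])
lemma q_le {y : ℝ} : q y ≤ 1 / 4 := by unfold q; nlinarith [sq_nonneg (y - 1 / 2)]

namespace Sk

variable {s : Sk}

lemma Fix.k1 (hs : s.Fix) (x : ℝ) : s.k (x, 1) = 1 := by
  have := s.hkm x 0
  rw [hs.m1, hs.k0] at this
  simpa using this

lemma Fix.sum1 (hs : s.Fix) (x y : ℝ) :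
    ∑ i ∈ Finset.range s.d, s.p (x + i) * s.κ (x + i, y) = 1 := by
  have := s.hsum x y
  rw [hs.m1] at this
  simpa using this

/-- the average of the inverse branches is the identity -/
lemma Fix.sumk (hs : s.Fix) (x y : ℝ) :
    ∑ i ∈ Finset.range s.d, s.p (x + i) * s.k (x + i, y) = y := by
  have h1 : ∀ y, HasDerivAt (fun y => ∑ i ∈ Finset.range s.d, s.p (x + i) * s.k (x + i, y) - y)
      0 y := by
    intro y
    have h2 : HasDerivAt (fun y => ∑ i ∈ Finset.range s.d, s.p (x + i) * s.k (x + i, y))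
        (∑ i ∈ Finset.range s.d, s.p (x + i) * s.κ (x + i, y)) y :=
      HasDerivAt.fun_sum fun i _ => (s.hkκ (x + i) y).const_mul _
    have h3 := h2.sub (hasDerivAt_id y)
    rw [hs.sum1, sub_self] at h3
    exact h3
  have h4 := is_const_of_deriv_eq_zero (fun y => (h1 y).differentiableAt) (fun y => (h1 y).deriv)
    y 0
  simp only [hs.k0, mul_zero, Finset.sum_const_zero, sub_zero] at h4
  linarith

lemma Fix.sump (hs : s.Fix) (x : ℝ) : ∑ i ∈ Finset.range s.d, s.p (x + i) = 1 := by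
  have := hs.sumk x 1
  simpa [hs.k1] using this

lemma Fix.k_mem (hs : s.Fix) (x : ℝ) {y : ℝ} (hy : y ∈ Icc (0 : ℝ) 1) :
    s.k (x, y) ∈ Icc (0 : ℝ) 1 := by
  have h1 := (s.k_strictMono x).monotone hy.1
  have h2 := (s.k_strictMono x).monotone hy.2
  simp only [hs.k0, hs.k1] at h1 h2
  exact ⟨h1, h2⟩

variable (s)

/-- the fibrewise preimage of `β` under the `n`-th iterate -/
noncomputable def Hn : ℕ → ℝ → ℝ → ℝ
  | 0, _, β => β
  | n + 1, x, β => s.k (s.g x, Hn n (s.g x) β)

/-- the conditional variance -/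
noncomputable def V (z : ℝ × ℝ) : ℝ :=
  ∑ i ∈ Finset.range s.d, s.p (z.1 + i) * (s.k (z.1 + i, z.2) - z.2) ^ 2

variable {s}

lemma Hn_cont (n : ℕ) (β : ℝ) : Continuous fun x => s.Hn n x β := by
  induction n with
  | zero => exact continuous_const
  | succ n ih => exact s.hk.continuous.comp (s.g_cont.prodMk (ih.comp s.g_cont))

lemma g_add_nat (x : ℝ) (n : ℕ) : s.g (x + n) = s.g x + (s.d * n : ℕ) := by
  induction n with
  | zero => simp
  | succ n ih =>
    push_cast
    rw [← add_assoc, s.g_add_one, ih]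
    push_cast
    ring

lemma k_add_nat (x y : ℝ) (n : ℕ) : s.k (x + (s.d * n : ℕ), y) = s.k (x, y) := by
  induction n with
  | zero => simp
  | succ n ih =>
    push_cast at ih ⊢
    rw [mul_add, mul_one, ← add_assoc, s.hkd, ih]

lemma Hn_add_nat (n : ℕ) (x β : ℝ) (j : ℕ) : s.Hn n (x + j) β = s.Hn n x β := by
  induction n generalizing x j with
  | zero => rfl
  | succ n ih =>
    simp only [Hn]
    rw [g_add_nat, ih (s.g x) (s.d * j), k_add_nat]

lemma Fix.Hn_mem (hs : s.Fix) (n : ℕ) (x : ℝ) {β : ℝ} (hβ : β ∈ Icc (0 : ℝ) 1) :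
    s.Hn n x β ∈ Icc (0 : ℝ) 1 := by
  induction n generalizing x with
  | zero => exact hβ
  | succ n ih => exact hs.k_mem _ (ih _)

lemma Fix.Hn_zero (hs : s.Fix) (n : ℕ) (x : ℝ) : s.Hn n x 0 = 0 := by
  induction n generalizing x with
  | zero => rfl
  | succ n ih => simp only [Hn, ih, hs.k0]

lemma Fix.Hn_one (hs : s.Fix) (n : ℕ) (x : ℝ) : s.Hn n x 1 = 1 := by
  induction n generalizing x with
  | zero => rfl
  | succ n ih => simp only [Hn, ih, hs.k1]

/-- the fibre coordinate of the `n`-th iterate is at most `β` exactly below `Hn` -/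
lemma iter_le_iff (n : ℕ) (x y β : ℝ) : (s.F^[n] (x, y)).2 ≤ β ↔ y ≤ s.Hn n x β := by
  induction n generalizing x y with
  | zero => rfl
  | succ n ih =>
    rw [iterate_succ_apply, s.F_eq (x, y), ih]
    simp only [Hn]
    constructor
    · intro h
      have h1 : s.k (s.g x, s.h (x, y)) ≤ s.k (s.g x, s.Hn n (s.g x) β) :=
        (s.k_strictMono (s.g x)).monotone h
      rw [s.k_gh (x, y)] at h1
      exact h1
    · intro h
      rw [← (s.k_strictMono (s.g x)).le_iff_le]
      show s.k (s.g x, s.h (x, y)) ≤ s.k (s.g x, s.Hn n (s.g x) β)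
      rw [s.k_gh (x, y)]
      exact h

lemma V_cont : Continuous s.V := by
  unfold V
  refine continuous_finsetSum _ fun i _ => ?_
  exact (s.p_cont.comp (by fun_prop)).mul
    (((s.hk.continuous.comp (by fun_prop)).sub continuous_snd).pow 2)

lemma V_nonneg (z : ℝ × ℝ) : 0 ≤ s.V z :=
  Finset.sum_nonneg fun _ _ => mul_nonneg (s.hp _).le (sq_nonneg _)

lemma Fix.V_pos (hs : s.Fix) (x : ℝ) {y : ℝ} (hy : y ∈ Ioo (0 : ℝ) 1) : 0 < s.V (x, y) := by
  obtain ⟨i, hi, h⟩ := hs.nd x y hy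
  refine Finset.sum_pos' (fun _ _ => mul_nonneg (s.hp _).le (sq_nonneg _)) ⟨i, hi, ?_⟩
  exact mul_pos (s.hp _) (by have := sub_ne_zero.mpr h; positivity)

/-- one step: the mean of `q` decreases by the conditional variance -/
lemma Fix.q_step (hs : s.Fix) (x y : ℝ) :
    ∑ i ∈ Finset.range s.d, q (s.k (x + i, y)) * s.p (x + i) = q y - s.V (x, y) := by
  have h1 := hs.sumk x y
  have h2 := hs.sump x
  have h3 : s.V (x, y) = ∑ i ∈ Finset.range s.d, s.p (x + i) * s.k (x + i, y) ^ 2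
      - 2 * y * ∑ i ∈ Finset.range s.d, s.p (x + i) * s.k (x + i, y)
      + y ^ 2 * ∑ i ∈ Finset.range s.d, s.p (x + i) := by
    unfold V
    rw [Finset.mul_sum, Finset.mul_sum, ← Finset.sum_sub_distrib, ← Finset.sum_add_distrib]
    exact Finset.sum_congr rfl fun i _ => by ring
  have h4 : ∑ i ∈ Finset.range s.d, q (s.k (x + i, y)) * s.p (x + i)
      = ∑ i ∈ Finset.range s.d, s.p (x + i) * s.k (x + i, y)
        - ∑ i ∈ Finset.range s.d, s.p (x + i) * s.k (x + i, y) ^ 2 := by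
    rw [← Finset.sum_sub_distrib]
    exact Finset.sum_congr rfl fun i _ => by unfold q; ring
  rw [h4, h3, h1, h2]
  unfold q
  ring

variable (s) in
/-- the mean of `q` along the fibres -/
noncomputable def an (β : ℝ) (n : ℕ) : ℝ := ∫ x in (0 : ℝ)..1, q (s.Hn n x β)

variable (s) in
/-- the mean conditional variance -/
noncomputable def vn (β : ℝ) (n : ℕ) : ℝ := ∫ x in (0 : ℝ)..1, s.V (x, s.Hn n x β)

lemma Fix.an_succ (hs : s.Fix) (β : ℝ) (n : ℕ) : s.an β (n + 1) = s.an β n - s.vn β n := by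
  unfold an vn
  have hc : Continuous fun t => q (s.k (t, s.Hn n t β)) :=
    q_cont.comp (s.hk.continuous.comp (continuous_id.prodMk (Hn_cont n β)))
  have hper : ∀ t, q (s.k (t + s.d, s.Hn n (t + s.d) β)) = q (s.k (t, s.Hn n t β)) := by
    intro t
    rw [Hn_add_nat, s.hkd]
  have h1 : ∫ x in (0 : ℝ)..1, q (s.Hn (n + 1) x β)
      = ∫ t in (0 : ℝ)..s.d, q (s.k (t, s.Hn n t β)) * s.p t :=
    s.cv1 (fun t => q (s.k (t, s.Hn n t β))) hc hper
  have h2 := period_sum (fun t => q (s.k (t, s.Hn n t β)) * s.p t) s.d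
    (fun t => by simp only [hper, s.p_add_d]) (hc.mul s.p_cont) 0
  rw [zero_add] at h2
  rw [h1, h2, ← intervalIntegral.integral_finsetSum]
  swap
  · intro i _
    exact ((hc.mul s.p_cont).comp (continuous_add_const (i : ℝ))).intervalIntegrable _ _
  rw [← intervalIntegral.integral_sub]
  rotate_left
  · exact (q_cont.comp (Hn_cont n β)).intervalIntegrable _ _
  · exact (V_cont.comp (continuous_id.prodMk (Hn_cont n β))).intervalIntegrable _ _
  refine intervalIntegral.integral_congr fun t _ => ?_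
  simp only [Hn_add_nat]
  exact hs.q_step t (s.Hn n t β)

lemma vn_nonneg (β : ℝ) (n : ℕ) : 0 ≤ s.vn β n :=
  intervalIntegral.integral_nonneg (by norm_num) fun _ _ => V_nonneg _

lemma Fix.an_nonneg (hs : s.Fix) {β : ℝ} (hβ : β ∈ Icc (0 : ℝ) 1) (n : ℕ) : 0 ≤ s.an β n :=
  intervalIntegral.integral_nonneg (by norm_num) fun _ _ => q_nonneg (hs.Hn_mem n _ hβ)

lemma Fix.vn_tendsto (hs : s.Fix) {β : ℝ} (hβ : β ∈ Icc (0 : ℝ) 1) :
    Tendsto (s.vn β) atTop (𝓝 0) := by
  have hanti : Antitone (s.an β) := antitone_nat_of_succ_le fun n => by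
    rw [hs.an_succ]
    linarith [vn_nonneg (s := s) β n]
  have hbdd : BddBelow (range (s.an β)) := ⟨0, by
    rintro _ ⟨n, rfl⟩
    exact hs.an_nonneg hβ n⟩
  have h1 := tendsto_atTop_ciInf hanti hbdd
  have h2 := h1.sub ((tendsto_add_atTop_iff_nat 1).mpr h1)
  rw [sub_self] at h2
  refine h2.congr fun n => ?_
  rw [hs.an_succ]
  ring

/-- compactness bound -/
lemma Fix.bound (hs : s.Fix) {ε : ℝ} (hε : 0 < ε) :
    ∃ C : ℝ, 0 ≤ C ∧ ∀ x ∈ Icc (0 : ℝ) 1, ∀ y ∈ Icc (0 : ℝ) 1, q y ≤ ε + C * s.V (x, y) := by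
  set K : Set (ℝ × ℝ) := (Icc 0 1 ×ˢ Icc 0 1) ∩ {z | ε ≤ q z.2} with hK
  have hKc : IsCompact K := (isCompact_Icc.prod isCompact_Icc).inter_right
    (isClosed_le continuous_const (q_cont.comp continuous_snd))
  rcases K.eq_empty_or_nonempty with he | hne
  · refine ⟨0, le_rfl, fun x hx y hy => ?_⟩
    by_contra hcon
    push Not at hcon
    have : (x, y) ∈ K := ⟨⟨hx, hy⟩, by simp at hcon; exact hcon.le⟩
    rw [he] at this
    exact this
  · obtain ⟨z0, hz0, hmin⟩ := hKc.exists_isMinOn hne V_cont.continuousOn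
    have hz2 : z0.2 ∈ Ioo (0 : ℝ) 1 := by
      have h1 : ε ≤ q z0.2 := hz0.2
      have h2 := hz0.1.2
      unfold q at h1
      constructor
      · rcases h2.1.lt_or_eq with h | h
        · exact h
        · rw [← h] at h1; linarith
      · rcases h2.2.lt_or_eq with h | h
        · exact h
        · rw [h] at h1; linarith
    have hpos : 0 < s.V z0 := hs.V_pos z0.1 hz2
    refine ⟨1 / 4 / s.V z0, by positivity, fun x hx y hy => ?_⟩
    by_cases hq : ε ≤ q y
    · have h1 : s.V z0 ≤ s.V (x, y) := hmin ⟨⟨hx, hy⟩, hq⟩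
      have h2 : 1 / 4 ≤ 1 / 4 / s.V z0 * s.V (x, y) := by
        rw [div_mul_eq_mul_div, le_div_iff₀ hpos]
        nlinarith
      have h3 := q_le (y := y)
      linarith
    · push Not at hq
      have := V_nonneg (s := s) (x, y)
      have h2 : 0 ≤ 1 / 4 / s.V z0 * s.V (x, y) := by positivity
      linarith

/-- **synchronisation** -/
theorem Fix.an_tendsto (hs : s.Fix) {β : ℝ} (hβ : β ∈ Icc (0 : ℝ) 1) :
    Tendsto (s.an β) atTop (𝓝 0) := by
  rw [Metric.tendsto_atTop]
  intro ε hε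
  obtain ⟨C, hC, hb⟩ := hs.bound (half_pos hε)
  have h1 : ∀ n, s.an β n ≤ ε / 2 + C * s.vn β n := by
    intro n
    have hcV : Continuous fun x => s.V (x, s.Hn n x β) :=
      V_cont.comp (continuous_id.prodMk (Hn_cont n β))
    have hcV' : Continuous fun x => C * s.V (x, s.Hn n x β) := continuous_const.mul hcV
    have h2 : s.an β n ≤ ∫ x in (0 : ℝ)..1, (ε / 2 + C * s.V (x, s.Hn n x β)) := by
      refine intervalIntegral.integral_mono_on (by norm_num)
        ((q_cont.comp (Hn_cont n β)).intervalIntegrable _ _) ?_ ?_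
      · exact (continuous_const.add hcV').intervalIntegrable _ _
      · intro x hx
        exact hb x hx _ (hs.Hn_mem n x hβ)
    rw [intervalIntegral.integral_add (continuous_const.intervalIntegrable _ _)
      (hcV'.intervalIntegrable _ _),
      intervalIntegral.integral_const_mul, intervalIntegral.integral_const] at h2
    simpa [vn] using h2
  have h3 : Tendsto (fun n => ε / 2 + C * s.vn β n) atTop (𝓝 (ε / 2 + C * 0)) :=
    tendsto_const_nhds.add (tendsto_const_nhds.mul (hs.vn_tendsto hβ))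
  have h4 := (h3.eventually (gt_mem_nhds (show ε / 2 + C * 0 < ε by linarith)))
  obtain ⟨N, hN⟩ := eventually_atTop.mp h4
  refine ⟨N, fun n hn => ?_⟩
  rw [Real.dist_eq, sub_zero, abs_of_nonneg (hs.an_nonneg hβ n)]
  exact (h1 n).trans_lt (hN n hn)

end Sk

end Pool.Agent.H165R3
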